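import Pool.Agent.Work.MP_0f91f8_co.Rg.Stmts
import Pool.Agent.Work.WI.W5

/-!
# Item MER: reciprocals of the primes `= 1 (mod 4)`
-/

set_option autoImplicit false

namespace Pool.Agent.Work.MP_0f91f8_co.Rg

open Finset

namespace I_MER

/-- The sum of `1 / p` over the primes `p = 1 (mod 4)` with `x < p ≤ y`. -/
noncomputable def A (x y : ℕ) : ℝ :=
  ∑ p ∈ (Ioc x y).filter (fun p => p.Prime ∧ p % 4 = 1), (1 : ℝ) / p

theorem A_nonneg (x y : ℕ) : 0 ≤ A x y :=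
  sum_nonneg fun p _ => by positivity

theorem A_add {x y z : ℕ} (h1 : x ≤ y) (h2 : y ≤ z) : A x y + A y z = A x z := by
  unfold A
  rw [← Ioc_union_Ioc_eq_Ioc h1 h2, filter_union, sum_union]
  refine disjoint_filter_filter ?_
  rw [Finset.disjoint_left]
  intro p hp hp'
  rw [mem_Ioc] at hp hp'
  omega

theorem A_mono {x x' y y' : ℕ} (h1 : x' ≤ x) (h2 : y ≤ y') : A x y ≤ A x' y' := by
  unfold A
  refine sum_le_sum_of_subset_of_nonneg ?_ fun p _ _ => by positivity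
  exact filter_subset_filter _ (Ioc_subset_Ioc h1 h2)

theorem theta_sub (n : ℕ) :
    WI.thetaAP (1 : ZMod 4) ((2 * n : ℕ) : ℝ) - WI.thetaAP (1 : ZMod 4) (n : ℝ) =
      ∑ p ∈ (Ioc n (2 * n)).filter (fun p => p.Prime ∧ p % 4 = 1), Real.log (p : ℝ) := by
  have h1 : ∀ p : ℕ, ((p : ZMod 4) = 1) ↔ p % 4 = 1 := by
    intro p
    have h := ZMod.natCast_eq_natCast_iff' p 1 4
    simpa using h
  unfold WI.thetaAP
  rw [Nat.floor_natCast, Nat.floor_natCast, sub_eq_iff_eq_add]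
  have h2 : Icc 1 (2 * n) = Ioc n (2 * n) ∪ Icc 1 n := by
    ext p
    rw [mem_union, mem_Icc, mem_Ioc, mem_Icc]
    omega
  rw [h2, filter_union, sum_union]
  · congr 1
    refine sum_congr ?_ fun _ _ => rfl
    refine filter_congr fun p _ => ?_
    rw [h1]
  · refine disjoint_filter_filter ?_
    rw [Finset.disjoint_left]
    intro p hp hp'
    rw [mem_Ioc] at hp
    rw [mem_Icc] at hp'
    omega

/-- The sum over a dyadic block. -/
theorem block : ∃ X₀ : ℕ, 1 ≤ X₀ ∧ ∀ n : ℕ, X₀ ≤ n →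
    1 / (8 * Real.log ((2 * n : ℕ) : ℝ)) ≤ A n (2 * n) := by
  have hT := WI.thetaAP_tendsto (q := 4) (a := (1 : ZMod 4)) isUnit_one
  have hφ : (((4 : ℕ).totient : ℝ)⁻¹) = 1 / 2 := by
    have : (4 : ℕ).totient = 2 := by decide
    rw [this]
    norm_num
  rw [hφ] at hT
  have h1 := hT.eventually_const_lt (show (1 / 2 - 1 / 12 : ℝ) < 1 / 2 by norm_num)
  have h2 := hT.eventually_lt_const (show (1 / 2 : ℝ) < 1 / 2 + 1 / 12 by norm_num)
  obtain ⟨x₀, hx₀⟩ := Filter.eventually_atTop.1 (h1.and h2)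
  refine ⟨max 1 ⌈x₀⌉₊, le_max_left _ _, ?_⟩
  intro n hn
  have hn1 : 1 ≤ n := (le_max_left _ _).trans hn
  have hn0 : (0 : ℝ) < n := by exact_mod_cast hn1
  have hnx : x₀ ≤ (n : ℝ) := (Nat.le_ceil x₀).trans (by
    exact_mod_cast (le_max_right _ _).trans hn)
  have ha := (hx₀ (n : ℝ) hnx).2
  have hb := (hx₀ ((2 * n : ℕ) : ℝ) (hnx.trans (by push_cast; linarith))).1
  rw [div_lt_iff₀ hn0] at ha
  rw [lt_div_iff₀ (by push_cast; linarith)] at hb
  have hc := theta_sub n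
  have hlog : 0 < Real.log ((2 * n : ℕ) : ℝ) := by
    refine Real.log_pos ?_
    have : (1 : ℝ) ≤ n := by exact_mod_cast hn1
    push_cast
    linarith
  have hd : ∑ p ∈ (Ioc n (2 * n)).filter (fun p => p.Prime ∧ p % 4 = 1), Real.log (p : ℝ) ≤
      (2 * n * Real.log ((2 * n : ℕ) : ℝ)) * A n (2 * n) := by
    unfold A
    rw [mul_sum]
    refine sum_le_sum fun p hp => ?_
    rw [mem_filter, mem_Ioc] at hp
    have hp0 : (0 : ℝ) < p := by exact_mod_cast hp.2.1.pos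
    have hple : (p : ℝ) ≤ ((2 * n : ℕ) : ℝ) := by exact_mod_cast hp.1.2
    have hl : Real.log (p : ℝ) ≤ Real.log ((2 * n : ℕ) : ℝ) := Real.log_le_log hp0 hple
    have h3 : (1 : ℝ) ≤ 2 * n * (1 / p) := by
      rw [mul_one_div, le_div_iff₀ hp0]
      push_cast at hple
      linarith
    calc Real.log (p : ℝ) ≤ Real.log ((2 * n : ℕ) : ℝ) * 1 := by rw [mul_one]; exact hl
      _ ≤ Real.log ((2 * n : ℕ) : ℝ) * (2 * n * (1 / p)) :=
          mul_le_mul_of_nonneg_left h3 hlog.le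
      _ = _ := by ring
  rw [div_le_iff₀ (by positivity)]
  have he : (n : ℝ) / 4 ≤ (2 * n * Real.log ((2 * n : ℕ) : ℝ)) * A n (2 * n) := by
    refine le_trans ?_ hd
    rw [← hc]
    push_cast at ha hb ⊢
    linarith
  have hf : (n : ℝ) * 1 ≤ n * (A n (2 * n) * (8 * Real.log ((2 * n : ℕ) : ℝ))) := by
    nlinarith
  exact le_of_mul_le_mul_left hf hn0

theorem blocks {X₀ : ℕ} (hX : ∀ n : ℕ, X₀ ≤ n →
    1 / (8 * Real.log ((2 * n : ℕ) : ℝ)) ≤ A n (2 * n)) (x : ℕ) (hx : X₀ ≤ x) (hx1 : 1 ≤ x)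
    (L : ℝ) : ∀ J : ℕ, Real.log ((2 ^ J * x : ℕ) : ℝ) ≤ L → (J : ℝ) / (8 * L) ≤ A x (2 ^ J * x) := by
  intro J
  induction J with
  | zero =>
    intro _
    simpa using A_nonneg x x
  | succ J ih =>
    intro hL
    have hx2 : (1 : ℝ) ≤ x := by exact_mod_cast hx1
    have h1 : Real.log ((2 ^ J * x : ℕ) : ℝ) ≤ L := by
      refine le_trans (Real.log_le_log ?_ ?_) hL
      · have : 0 < 2 ^ J * x := by positivity
        exact_mod_cast this
      · have : 2 ^ J * x ≤ 2 ^ (J + 1) * x :=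
          Nat.mul_le_mul_right _ (Nat.pow_le_pow_right (by norm_num) (Nat.le_succ _))
        exact_mod_cast this
    have h2 := ih h1
    have hge : X₀ ≤ 2 ^ J * x := hx.trans (Nat.le_mul_of_pos_left _ (by positivity))
    have h3 := hX (2 ^ J * x) hge
    have e1 : 2 * (2 ^ J * x) = 2 ^ (J + 1) * x := by ring
    rw [e1] at h3
    have hlog : 0 < Real.log ((2 ^ (J + 1) * x : ℕ) : ℝ) := by
      refine Real.log_pos ?_
      have h4 : 2 ≤ 2 ^ (J + 1) * x := by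
        calc 2 = 2 ^ 1 * 1 := by norm_num
          _ ≤ 2 ^ (J + 1) * x := Nat.mul_le_mul (Nat.pow_le_pow_right (by norm_num) (by omega)) hx1
      have h5 : ((2 : ℕ) : ℝ) ≤ ((2 ^ (J + 1) * x : ℕ) : ℝ) := by exact_mod_cast h4
      push_cast at h5 ⊢
      linarith
    have hLpos : 0 < L := lt_of_lt_of_le hlog hL
    have h6 : 1 / (8 * L) ≤ 1 / (8 * Real.log ((2 ^ (J + 1) * x : ℕ) : ℝ)) :=
      one_div_le_one_div_of_le (by positivity) (by linarith)
    have h7 := A_add (x := x) (y := 2 ^ J * x) (z := 2 ^ (J + 1) * x)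
      (Nat.le_mul_of_pos_left _ (by positivity)) (by rw [← e1]; omega)
    rw [← h7]
    push_cast
    rw [add_div]
    push_cast at h2 h3 h6 ⊢
    linarith

theorem powers : ∃ T₀ : ℕ, 1 ≤ T₀ ∧ ∀ T : ℕ, T₀ ≤ T → ∀ i : ℕ, 1 ≤ i →
    1 / (8 * ((i : ℝ) + 1)) ≤ A (T ^ i) (T ^ (i + 1)) := by
  obtain ⟨X₀, _, hX⟩ := block
  refine ⟨max X₀ 27, le_trans (by norm_num) (le_max_right _ _), ?_⟩
  intro T hT i hi
  have hT1 : 27 ≤ T := (le_max_right _ _).trans hT
  have hTX : X₀ ≤ T := (le_max_left _ _).trans hT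
  have hT0 : 0 < T := by omega
  have hTi : T ≤ T ^ i := Nat.le_self_pow (by omega) T
  set J := Nat.log 2 T with hJ
  have h1 : 2 ^ J ≤ T := Nat.pow_log_le_self 2 (by omega)
  have h2 : T < 2 ^ (J + 1) := Nat.lt_pow_succ_log_self (by norm_num) T
  have h3 : 2 ^ J * T ^ i ≤ T ^ (i + 1) := by
    rw [pow_succ, mul_comm (T ^ i) T]
    exact Nat.mul_le_mul_right _ h1
  have hlogT : Real.log ((T ^ (i + 1) : ℕ) : ℝ) = ((i : ℝ) + 1) * Real.log T := by
    push_cast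
    rw [Real.log_pow]
    push_cast
    ring
  have h4 : Real.log ((2 ^ J * T ^ i : ℕ) : ℝ) ≤ ((i : ℝ) + 1) * Real.log T := by
    rw [← hlogT]
    refine Real.log_le_log ?_ ?_
    · have : 0 < 2 ^ J * T ^ i := by positivity
      exact_mod_cast this
    · exact_mod_cast h3
  have h5 := blocks hX (T ^ i) (hTX.trans hTi) (le_trans (by omega) hTi) _ J h4
  have hT27 : (27 : ℝ) ≤ T := by exact_mod_cast hT1
  have hl3 : 3 ≤ Real.log (T : ℝ) := by
    rw [Real.le_log_iff_exp_le (by linarith)]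
    have he := Real.exp_one_lt_d9
    have he0 := Real.exp_pos 1
    have h6 : Real.exp 3 = Real.exp 1 ^ 3 := by
      rw [← Real.exp_nat_mul]
      norm_num
    rw [h6]
    have h7 : Real.exp 1 ^ 3 ≤ 3 ^ 3 := pow_le_pow_left₀ he0.le (by linarith) 3
    linarith
  have hJlog : Real.log (T : ℝ) ≤ J := by
    have h8 : (T : ℝ) < 2 ^ (J + 1) := by exact_mod_cast h2
    have h9 := Real.log_lt_log (by linarith) h8
    rw [Real.log_pow] at h9
    push_cast at h9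
    have h10 := Real.log_two_lt_d9
    have h11 : (0 : ℝ) ≤ J := Nat.cast_nonneg _
    nlinarith
  have h12 : 1 / (8 * ((i : ℝ) + 1)) ≤ (J : ℝ) / (8 * (((i : ℝ) + 1) * Real.log T)) := by
    have hi0 : (0 : ℝ) < (i : ℝ) + 1 := by positivity
    have hl0 : 0 < Real.log (T : ℝ) := by linarith
    rw [div_le_div_iff₀ (by positivity) (by positivity)]
    nlinarith [mul_le_mul_of_nonneg_left hJlog hi0.le]
  exact (h12.trans h5).trans (A_mono le_rfl h3)

theorem harmonic {T : ℕ} (hT : 1 ≤ T) (h : ∀ i : ℕ, 1 ≤ i →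
    1 / (8 * ((i : ℝ) + 1)) ≤ A (T ^ i) (T ^ (i + 1))) (a : ℕ) (ha : 1 ≤ a) :
    ∀ n : ℕ, a ≤ n → ∑ i ∈ range n, 1 / (8 * ((i : ℝ) + 1)) ≤
      ∑ i ∈ range a, 1 / (8 * ((i : ℝ) + 1)) + A (T ^ a) (T ^ n) := by
  intro n hn
  induction n, hn using Nat.le_induction with
  | base => linarith [A_nonneg (T ^ a) (T ^ a)]
  | succ n hn ih =>
    rw [sum_range_succ]
    have h1 := h n (ha.trans hn)
    have h2 := A_add (Nat.pow_le_pow_right hT hn) (Nat.pow_le_pow_right hT (Nat.le_succ n))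
    rw [Nat.succ_eq_add_one] at h2
    linarith

end I_MER

open I_MER in
/-- Reciprocals of the primes `= 1 (mod 4)`. -/
theorem MER_pf : S_MER := by
  intro M k₂
  obtain ⟨T₀, hT₀, hT⟩ := powers
  have h1 := Real.tendsto_sum_range_one_div_nat_succ_atTop
  obtain ⟨n, hn⟩ := (h1.eventually_ge_atTop
    (8 * (M + ∑ i ∈ range (k₂ + 1), 1 / (8 * ((i : ℝ) + 1))))).exists_forall_of_atTop
  refine ⟨max n (k₂ + 1), lt_of_lt_of_le (Nat.lt_succ_self k₂) (le_max_right _ _), T₀, ?_⟩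
  intro T hTT
  have h2 := hn (max n (k₂ + 1)) (le_max_left _ _)
  have h3 := harmonic (hT₀.trans hTT) (hT T hTT) (k₂ + 1) (by omega) (max n (k₂ + 1))
    (le_max_right _ _)
  have h4 : ∑ i ∈ range (max n (k₂ + 1)), 1 / (8 * ((i : ℝ) + 1)) =
      (1 / 8) * ∑ i ∈ range (max n (k₂ + 1)), 1 / ((i : ℝ) + 1) := by
    rw [mul_sum]
    refine sum_congr rfl fun i _ => ?_
    rw [← one_div_mul_one_div]
  rw [h4] at h3
  have h5 : A (T ^ (k₂ + 1)) (T ^ max n (k₂ + 1)) ≤ A (T ^ k₂) (T ^ max n (k₂ + 1)) :=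
    A_mono (Nat.pow_le_pow_right (hT₀.trans hTT) (Nat.le_succ _)) le_rfl
  have h6 : ∑ p ∈ P1 T k₂ (max n (k₂ + 1)), (1 : ℝ) / p = A (T ^ k₂) (T ^ max n (k₂ + 1)) := rfl
  rw [h6]
  linarith

end Pool.Agent.Work.MP_0f91f8_co.Rg
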