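import Pool.Agent.Work.MP_0f91f8_co.Rg.Stmts

/-!
# Affine maps with determinant prime to `N` permute the residues (item AFF)
-/

set_option autoImplicit false

namespace Pool.Agent.Work.MP_0f91f8_co.Rg

open Finset

namespace I_AFF

/-- Reduction modulo `N`. -/
def red (N : ℕ) (z : Z2) : Z2 := (z.1 % N, z.2 % N)

theorem F_red {N : ℕ} {F : Z2 → ℝ} (hF : Per N F) (z : Z2) : F (red N z) = F z := by
  have h := hF (red N z) (z.1 / N, z.2 / N)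
  rw [← h]
  have h1 : z.1 % (N : ℤ) + (N : ℤ) * (z.1 / N) = z.1 := Int.emod_add_mul_ediv z.1 N
  have h2 : z.2 % (N : ℤ) + (N : ℤ) * (z.2 / N) = z.2 := Int.emod_add_mul_ediv z.2 N
  show F (z.1 % (N : ℤ) + (N : ℤ) * (z.1 / N), z.2 % (N : ℤ) + (N : ℤ) * (z.2 / N)) = F z
  rw [h1, h2]

theorem mem_box {N : ℕ} {z : Z2} :
    z ∈ Box 0 0 N N ↔ (0 ≤ z.1 ∧ z.1 < N) ∧ (0 ≤ z.2 ∧ z.2 < N) := by
  unfold Box
  rw [mem_product, mem_Ico, mem_Ico, zero_add]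

theorem eq_of_dvd {N : ℕ} {a b : ℤ} (ha : 0 ≤ a ∧ a < N) (hb : 0 ≤ b ∧ b < N)
    (h : (N : ℤ) ∣ a - b) : a = b := by
  have h1 : a % (N : ℤ) = b % (N : ℤ) :=
    Int.emod_eq_emod_iff_emod_sub_eq_zero.2 (Int.emod_eq_zero_of_dvd h)
  rwa [Int.emod_eq_of_lt ha.1 ha.2, Int.emod_eq_of_lt hb.1 hb.2] at h1

theorem inj {N : ℕ} {φ : Aff} (hd : IsCoprime φ.det (N : ℤ)) {z w : Z2}
    (hz : z ∈ Box 0 0 N N) (hw : w ∈ Box 0 0 N N) (h : red N (φ.ap z) = red N (φ.ap w)) :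
    z = w := by
  rw [mem_box] at hz hw
  have e1 : (φ.a + φ.x11 * z.1 + φ.x12 * z.2) % (N : ℤ) =
      (φ.a + φ.x11 * w.1 + φ.x12 * w.2) % (N : ℤ) := congrArg Prod.fst h
  have e2 : (φ.b + φ.x21 * z.1 + φ.x22 * z.2) % (N : ℤ) =
      (φ.b + φ.x21 * w.1 + φ.x22 * w.2) % (N : ℤ) := congrArg Prod.snd h
  have d1 := Int.dvd_of_emod_eq_zero (Int.emod_eq_emod_iff_emod_sub_eq_zero.1 e1)
  have d2 := Int.dvd_of_emod_eq_zero (Int.emod_eq_emod_iff_emod_sub_eq_zero.1 e2)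
  have c1 : (N : ℤ) ∣ φ.det * (z.1 - w.1) := by
    have := dvd_sub (dvd_mul_of_dvd_right d1 φ.x22) (dvd_mul_of_dvd_right d2 φ.x12)
    have e : φ.x22 * (φ.a + φ.x11 * z.1 + φ.x12 * z.2 - (φ.a + φ.x11 * w.1 + φ.x12 * w.2)) -
        φ.x12 * (φ.b + φ.x21 * z.1 + φ.x22 * z.2 - (φ.b + φ.x21 * w.1 + φ.x22 * w.2)) =
        φ.det * (z.1 - w.1) := by
      unfold Aff.det
      ring
    rwa [e] at this
  have c2 : (N : ℤ) ∣ φ.det * (z.2 - w.2) := by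
    have := dvd_sub (dvd_mul_of_dvd_right d2 φ.x11) (dvd_mul_of_dvd_right d1 φ.x21)
    have e : φ.x11 * (φ.b + φ.x21 * z.1 + φ.x22 * z.2 - (φ.b + φ.x21 * w.1 + φ.x22 * w.2)) -
        φ.x21 * (φ.a + φ.x11 * z.1 + φ.x12 * z.2 - (φ.a + φ.x11 * w.1 + φ.x12 * w.2)) =
        φ.det * (z.2 - w.2) := by
      unfold Aff.det
      ring
    rwa [e] at this
  have f1 := hd.symm.dvd_of_dvd_mul_left c1
  have f2 := hd.symm.dvd_of_dvd_mul_left c2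
  exact Prod.ext (eq_of_dvd hz.1 hw.1 f1) (eq_of_dvd hz.2 hw.2 f2)

end I_AFF

open I_AFF

theorem AFF_pf : S_AFF := by
  intro N F φ hN hF hd
  have hper : Per N (fun z => F (φ.ap z)) := by
    intro z w
    have h := hF (φ.ap z) (φ.x11 * w.1 + φ.x12 * w.2, φ.x21 * w.1 + φ.x22 * w.2)
    show F (φ.ap (z.1 + N * w.1, z.2 + N * w.2)) = F (φ.ap z)
    rw [← h]
    congr 1
    unfold Aff.ap
    refine Prod.ext ?_ ?_
    · show φ.a + φ.x11 * (z.1 + N * w.1) + φ.x12 * (z.2 + N * w.2) =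
        φ.a + φ.x11 * z.1 + φ.x12 * z.2 + N * (φ.x11 * w.1 + φ.x12 * w.2)
      ring
    · show φ.b + φ.x21 * (z.1 + N * w.1) + φ.x22 * (z.2 + N * w.2) =
        φ.b + φ.x21 * z.1 + φ.x22 * z.2 + N * (φ.x21 * w.1 + φ.x22 * w.2)
      ring
  refine ⟨hper, ?_⟩
  unfold av
  congr 1
  have hN' : (0 : ℤ) < N := by exact_mod_cast hN
  have hmaps : ∀ z ∈ Box 0 0 N N, red N (φ.ap z) ∈ Box 0 0 N N := by
    intro z _
    rw [mem_box]
    exact ⟨⟨Int.emod_nonneg _ hN'.ne', Int.emod_lt_of_pos _ hN'⟩,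
      ⟨Int.emod_nonneg _ hN'.ne', Int.emod_lt_of_pos _ hN'⟩⟩
  have hinj : Set.InjOn (fun z => red N (φ.ap z)) (Box 0 0 N N : Set Z2) := by
    intro z hz w hw h
    exact inj hd (mem_coe.1 hz) (mem_coe.1 hw) h
  have himg : (Box 0 0 N N).image (fun z => red N (φ.ap z)) = Box 0 0 N N := by
    apply eq_of_subset_of_card_le
    · intro y hy
      obtain ⟨z, hz, rfl⟩ := mem_image.1 hy
      exact hmaps z hz
    · rw [card_image_of_injOn hinj]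
  calc ∑ z ∈ Box 0 0 N N, F (φ.ap z)
      = ∑ z ∈ Box 0 0 N N, F (red N (φ.ap z)) := sum_congr rfl fun z _ => (F_red hF _).symm
    _ = ∑ y ∈ (Box 0 0 N N).image (fun z => red N (φ.ap z)), F y :=
        (sum_image (f := F) (g := fun z => red N (φ.ap z)) hinj).symm
    _ = ∑ z ∈ Box 0 0 N N, F z := by rw [himg]

end Pool.Agent.Work.MP_0f91f8_co.Rg
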