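import Pool.Agent.Work.MP_0f91f8_co.Rg.Stmts

/-!
# Item AVM: the mean over a multiple of the period
-/

set_option autoImplicit false

namespace Pool.Agent.Work.MP_0f91f8_co.Rg

open Finset

namespace I_AVM

/-- One variable: the sum of a function of period `N` over `M` periods. -/
theorem sum_mul (N : ℕ) (f : ℤ → ℝ) (hf : ∀ x k : ℤ, f (x + N * k) = f x) (M : ℕ) :
    ∑ x ∈ Ico (0 : ℤ) ((N * M : ℕ) : ℤ), f x = M * ∑ x ∈ Ico (0 : ℤ) (N : ℤ), f x := by
  induction M with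
  | zero => simp
  | succ M ih =>
    have h1 : ((N * (M + 1) : ℕ) : ℤ) = ((N * M : ℕ) : ℤ) + N := by push_cast; ring
    have h0 : (0 : ℤ) ≤ ((N * M : ℕ) : ℤ) := Int.natCast_nonneg _
    have hN : (0 : ℤ) ≤ (N : ℤ) := Int.natCast_nonneg _
    have h5 : Ico (0 : ℤ) (((N * M : ℕ) : ℤ) + N) =
        Ico (0 : ℤ) ((N * M : ℕ) : ℤ) ∪ Ico ((N * M : ℕ) : ℤ) (((N * M : ℕ) : ℤ) + N) :=
      (Finset.Ico_union_Ico_eq_Ico h0 (by linarith)).symm
    rw [h1, h5, Finset.sum_union (Finset.Ico_disjoint_Ico_consecutive _ _ _), ih]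
    have h2 : ∑ x ∈ Ico ((N * M : ℕ) : ℤ) (((N * M : ℕ) : ℤ) + N), f x =
        ∑ x ∈ Ico (0 : ℤ) (N : ℤ), f x := by
      have h3 : Ico ((N * M : ℕ) : ℤ) (((N * M : ℕ) : ℤ) + N) =
          (Ico (0 : ℤ) (N : ℤ)).image (fun x => x + ((N * M : ℕ) : ℤ)) := by
        rw [Finset.image_add_right_Ico, zero_add, add_comm (N : ℤ)]
      rw [h3, Finset.sum_image (fun a _ b _ hab => by simpa using hab)]
      refine Finset.sum_congr rfl fun x _ => ?_
      have h4 : x + ((N * M : ℕ) : ℤ) = x + N * (M : ℤ) := by push_cast; ring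
      rw [h4, hf]
    rw [h2]
    push_cast
    ring

end I_AVM

theorem AVM_pf : S_AVM := by
  intro N M F hN hM hF
  have hN' : (N : ℝ) ≠ 0 := by positivity
  have hM' : (M : ℝ) ≠ 0 := by positivity
  have key : ∑ z ∈ Box 0 0 (N * M) (N * M), F z = (M : ℝ) ^ 2 * ∑ z ∈ Box 0 0 N N, F z := by
    unfold Box
    rw [Finset.sum_product, Finset.sum_product]
    simp only [zero_add]
    have h1 : ∀ x : ℤ, ∑ y ∈ Ico (0 : ℤ) ((N * M : ℕ) : ℤ), F (x, y) =
        M * ∑ y ∈ Ico (0 : ℤ) (N : ℤ), F (x, y) := fun x =>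
      I_AVM.sum_mul N (fun y => F (x, y)) (fun y k => by
        have := hF (x, y) (0, k)
        simpa using this) M
    rw [Finset.sum_congr rfl (fun x _ => h1 x), ← Finset.mul_sum]
    have h2 := I_AVM.sum_mul N (fun x => ∑ y ∈ Ico (0 : ℤ) (N : ℤ), F (x, y)) (fun x k =>
      Finset.sum_congr rfl fun y _ => by
        have := hF (x, y) (k, 0)
        simpa using this) M
    rw [h2]
    ring
  unfold av
  rw [key]
  push_cast
  field_simp

end Pool.Agent.Work.MP_0f91f8_co.Rg
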