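import Pool.Agent.Work.MP_0f91f8_co.Rg.Stmts

set_option autoImplicit false

namespace Pool.Agent.Work.MP_0f91f8_co.Rg

open Finset

theorem CARD_pf : S_CARD := by
  intro I R h
  have h1 : ∀ S ∈ I, (fun S : Finset ℕ => ∏ p ∈ S, p) S ∈ Icc 1 R := by
    intro S hS
    rw [mem_Icc]
    refine ⟨?_, (h S hS).2⟩
    exact Nat.one_le_iff_ne_zero.mpr
      (Finset.prod_ne_zero_iff.mpr fun p hp => ((h S hS).1 p hp).ne_zero)
  have h2 : Set.InjOn (fun S : Finset ℕ => ∏ p ∈ S, p) I := by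
    intro S hS T hT hST
    have e1 := Nat.primeFactors_prod (h S hS).1
    have e2 := Nat.primeFactors_prod (h T hT).1
    have hST' : ∏ p ∈ S, p = ∏ p ∈ T, p := hST
    rw [← e1, ← e2, hST']
  have h3 := Finset.card_le_card_of_injOn _ h1 h2
  simpa using h3

end Pool.Agent.Work.MP_0f91f8_co.Rg
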