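import Pool.Agent.Work.MP_0f91f8_co.Rg.Stmts

/-!
# Item COP: the forms are prime to `E`
-/

set_option autoImplicit false

namespace Pool.Agent.Work.MP_0f91f8_co.Rg

open Finset

/-- Modulo a prime factor of `E` the five forms are `1`. -/
theorem COP_pf : S_COP := by
  intro E κ hg z p hp hE hd
  obtain ⟨⟨k, hk⟩, ⟨l, hl⟩⟩ := hg.rad p hp hE
  obtain ⟨e, he⟩ := hE
  have hP : Prime (p : ℤ) := Nat.prime_iff_prime_int.mp hp
  unfold LP at hd
  obtain ⟨i, _, hi⟩ := hP.exists_mem_finset_dvd hd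
  have hu : (p : ℤ) ∣ uu E z - 1 := ⟨e * z.1, by unfold uu; rw [he]; push_cast; ring⟩
  have hv : (p : ℤ) ∣ (κ : ℤ) * vv E κ z := ⟨k * vv E κ z, by rw [hk]; push_cast; ring⟩
  have hv1 : (p : ℤ) ∣ vv E κ z - 1 := ⟨l * z.2, by unfold vv; rw [hl]; push_cast; ring⟩
  have hone : ∀ x : ℤ, (p : ℤ) ∣ x → (p : ℤ) ∣ x - 1 → False := by
    intro x h1 h2
    have h3 : (p : ℤ) ∣ 1 := by
      have := dvd_sub h1 h2
      simpa using this
    exact hP.not_isUnit (isUnit_of_dvd_one h3)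
  unfold LL at hi
  split_ifs at hi with h0 h1 h2 h3
  · exact hone _ hi hu
  · exact hone _ hi hv1
  · refine hone _ hi ?_
    have e1 : uu E z - (κ : ℤ) * vv E κ z - 1 = uu E z - 1 - (κ : ℤ) * vv E κ z := by ring
    rw [e1]
    exact dvd_sub hu hv
  · refine hone _ hi ?_
    have e1 : uu E z + (κ : ℤ) * vv E κ z - 1 = uu E z - 1 + (κ : ℤ) * vv E κ z := by ring
    rw [e1]
    exact dvd_add hu hv
  · refine hone _ hi ?_
    have e1 : uu E z ^ 2 + ((κ : ℤ) * vv E κ z) ^ 2 - 1 =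
        (uu E z + 1) * (uu E z - 1) + (κ : ℤ) * vv E κ z * ((κ : ℤ) * vv E κ z) := by ring
    rw [e1]
    exact dvd_add (hu.mul_left _) (hv.mul_left _)

end Pool.Agent.Work.MP_0f91f8_co.Rg
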