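import Pool.Agent.Work.MP_0f91f8_co.Rg.Stmts

/-!
# Item CRT: means multiply for coprime periods
-/

set_option autoImplicit false

namespace Pool.Agent.Work.MP_0f91f8_co.Rg

open Finset

namespace I_CRT

theorem one_dim (N : ℕ) [NeZero N] (h : ℤ → ℝ) :
    ∑ i ∈ Ico (0 : ℤ) (0 + (N : ℤ)), h i = ∑ a : ZMod N, h (a.val : ℤ) := by
  symm
  refine Finset.sum_bij (fun (a : ZMod N) _ => (a.val : ℤ)) ?_ ?_ ?_ ?_
  · intro a _
    rw [mem_Ico]
    have := a.val_lt
    omega
  · intro a _ b _ hab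
    apply ZMod.val_injective N
    exact_mod_cast hab
  · intro i hi
    rw [mem_Ico] at hi
    refine ⟨(i.toNat : ZMod N), mem_univ _, ?_⟩
    rw [ZMod.val_natCast, Nat.mod_eq_of_lt (by omega)]
    omega
  · intro a _
    rfl

theorem two_dim (N : ℕ) [NeZero N] (H : Z2 → ℝ) :
    ∑ z ∈ Box 0 0 N N, H z = ∑ a : ZMod N, ∑ b : ZMod N, H ((a.val : ℤ), (b.val : ℤ)) := by
  unfold Box
  rw [Finset.sum_product, one_dim N (fun i => ∑ y ∈ Ico (0 : ℤ) (0 + (N : ℤ)), H (i, y))]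
  refine Finset.sum_congr rfl fun a _ => ?_
  exact one_dim N (fun j => H ((a.val : ℤ), j))

theorem per_mod {M : ℕ} {F : Z2 → ℝ} (hF : Per M F) (x y : ℤ) :
    F (x, y) = F (x % M, y % M) := by
  have h := hF (x % M, y % M) (x / M, y / M)
  simp only at h
  rw [Int.emod_add_mul_ediv, Int.emod_add_mul_ediv] at h
  exact h

theorem val_fst {M N : ℕ} [NeZero M] [NeZero N] [NeZero (M * N)] (h : Nat.Coprime M N)
    (a : ZMod (M * N)) : ((ZMod.chineseRemainder h a).1.val : ℤ) = (a.val : ℤ) % M := by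
  have h1 : (ZMod.chineseRemainder h a).1 = ((a.val : ℕ) : ZMod M) := by
    conv_lhs => rw [← ZMod.natCast_zmod_val a]
    rw [map_natCast, Prod.fst_natCast]
  rw [h1, ZMod.val_natCast]
  push_cast
  rfl

theorem val_snd {M N : ℕ} [NeZero M] [NeZero N] [NeZero (M * N)] (h : Nat.Coprime M N)
    (a : ZMod (M * N)) : ((ZMod.chineseRemainder h a).2.val : ℤ) = (a.val : ℤ) % N := by
  have h1 : (ZMod.chineseRemainder h a).2 = ((a.val : ℕ) : ZMod N) := by
    conv_lhs => rw [← ZMod.natCast_zmod_val a]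
    rw [map_natCast, Prod.snd_natCast]
  rw [h1, ZMod.val_natCast]
  push_cast
  rfl

end I_CRT

open I_CRT

theorem CRT_pf : S_CRT := by
  intro M N F G hM hN hc hF hG
  have : NeZero M := ⟨hM.ne'⟩
  have : NeZero N := ⟨hN.ne'⟩
  have : NeZero (M * N) := ⟨(Nat.mul_pos hM hN).ne'⟩
  have key : ∑ z ∈ Box 0 0 (M * N) (M * N), F z * G z =
      (∑ z ∈ Box 0 0 M M, F z) * ∑ z ∈ Box 0 0 N N, G z := by
    rw [two_dim, two_dim, two_dim]
    have e1 : ∀ f : ZMod M × ZMod N → ℝ,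
        ∑ a : ZMod (M * N), f (ZMod.chineseRemainder hc a) = ∑ x : ZMod M, ∑ y : ZMod N, f (x, y) := by
      intro f
      rw [← Fintype.sum_prod_type']
      exact Fintype.sum_equiv (ZMod.chineseRemainder hc).toEquiv _ _ (fun a => rfl)
    have e2 : ∀ a b : ZMod (M * N), F ((a.val : ℤ), (b.val : ℤ)) * G ((a.val : ℤ), (b.val : ℤ)) =
        F (((ZMod.chineseRemainder hc a).1.val : ℤ), ((ZMod.chineseRemainder hc b).1.val : ℤ)) *
        G (((ZMod.chineseRemainder hc a).2.val : ℤ), ((ZMod.chineseRemainder hc b).2.val : ℤ)) := by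
      intro a b
      rw [val_fst, val_fst, val_snd, val_snd, ← per_mod hF, ← per_mod hG]
    simp only [e2]
    have e3 : ∀ a : ZMod (M * N), ∑ b : ZMod (M * N),
        F (((ZMod.chineseRemainder hc a).1.val : ℤ), ((ZMod.chineseRemainder hc b).1.val : ℤ)) *
        G (((ZMod.chineseRemainder hc a).2.val : ℤ), ((ZMod.chineseRemainder hc b).2.val : ℤ)) =
        (fun p : ZMod M × ZMod N => ∑ x : ZMod M, ∑ y : ZMod N,
          F ((p.1.val : ℤ), (x.val : ℤ)) * G ((p.2.val : ℤ), (y.val : ℤ)))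
          (ZMod.chineseRemainder hc a) := fun a =>
      e1 (fun q => F (((ZMod.chineseRemainder hc a).1.val : ℤ), (q.1.val : ℤ)) *
        G (((ZMod.chineseRemainder hc a).2.val : ℤ), (q.2.val : ℤ)))
    simp only [e3]
    rw [e1 (fun p : ZMod M × ZMod N => ∑ x : ZMod M, ∑ y : ZMod N,
          F ((p.1.val : ℤ), (x.val : ℤ)) * G ((p.2.val : ℤ), (y.val : ℤ)))]
    rw [Finset.sum_mul]
    refine Finset.sum_congr rfl fun x _ => ?_
    rw [Finset.mul_sum]
    refine Finset.sum_congr rfl fun y _ => ?_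
    rw [Finset.sum_mul]
    refine Finset.sum_congr rfl fun x' _ => ?_
    rw [Finset.mul_sum]
  unfold av
  rw [key]
  push_cast
  have h1 : (M : ℝ) ≠ 0 := by exact_mod_cast hM.ne'
  have h2 : (N : ℝ) ≠ 0 := by exact_mod_cast hN.ne'
  field_simp

end Pool.Agent.Work.MP_0f91f8_co.Rg
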