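import Pool.Agent.Work.MP_0f91f8_co.Rg.Defs

/-!
# Colourings that ignore most large primes: statements of the items

THEOREM (`Main` at the end): there are absolute constants `ε₀, δ₀ > 0` such that the Pythagorean
equation is partition regular for all colourings `c` with `c (s m) = c (s n)` whenever
`m ≡ n (mod M)`, `|m - n| ≤ δ m`, the prime factors of `s` are `≤ N ^ ε₀` (`N` the size of `s m`),
those of `m`, `n` are `> N ^ ε₀` and not in `Q`; `Q` is a set of primes whose logarithmic mass in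
`(N ^ ε₀, N]` is `≤ δ₀` for infinitely many `N`.

PROOF IN SHORT. Pigeonhole on `D ^ i` times a fixed rough number, `0 ≤ i ≤ r`: it is enough to find
`u = 1 + E a`, `w = κ v = κ + E b` (`κ = D ^ e / 2`) such that the five numbers `u`, `v`, `u - w`,
`u + w`, `u ^ 2 + w ^ 2` have no prime factor `≤ T` and none in `Q`; then
`(u ^ 2 - w ^ 2, 2 u w, u ^ 2 + w ^ 2) = (rough, D ^ e * rough, rough)`. Points `(a, b)` of a box of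
side `H = T ^ k₀` are weighted by `F ^ 2`, `F = ∑_{S} ∏_{p ∈ S} ψ_p`, `S` the sets of primes
`p ≤ T`, `p ∤ E`, with product `≤ R = T ^ k₁`; `ψ_p` is `-1` if `p` divides the product of the
forms and `h_p` otherwise; it has mean `0` and mean square `h_p`, and functions of different primes
are independent. So `∑ F ^ 2 = H ^ 2 ∑_S h_S + small`. Small primes `q ≤ T`: on `q ∣ L` the sum `F`
reduces to the sets with `R / q < ∏ S ≤ R`, `q ∉ S`, a proportion `O(log q / log R)` by Mertens.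
Middle primes `q ∈ Q`: the points with `q ∣ L_i` are in the image of a box of area `O(H ^ 2 / q)`
under an affine map of determinant `± q` (for `u ^ 2 + w ^ 2`: multiplication by a Gaussian prime).
Top primes `q > H / T ^ k₄` (resp. `H ^ 2 / T ^ (2 k₄)`): then no prime of `(T ^ k₂, T ^ k₃]`
divides `L_i`, and the extra factor `1 + ∑_p ψ_{i,p}` over the primes `p = 1 (mod 4)` of this
range shows that such points have weight at most `1 / (1 + ∑ 1 / p)` of the total.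

FORMAT: item `NAME` = new file `Rg/I_NAME.lean`, imports this file, namespace of this file,
auxiliary lemmas in the sub-namespace `I_NAME`, main theorem
`theorem NAME_pf (h1 : S_A) (h2 : S_B) .. : S_NAME`, whose hypotheses are any earlier statements.
-/

set_option autoImplicit false

namespace Pool.Agent.Work.MP_0f91f8_co.Rg

open Finset

/-! ## A. Periodic functions -/

/-- [BOX] One variable: if `G` has period `N` and `|G| ≤ c`, a sum over `X` consecutive integers is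
`(X / N) ∑_{period} G` up to `2 c N` (write `X = N k + r`). Two variables: apply it in the second
variable for each fixed first one (error `2 N` each), then in the first variable to
`a ↦ ∑_{b < N} F (a, b)` (bounded by `N`). -/
def S_BOX : Prop := ∀ (N : ℕ) (F : Z2 → ℝ), 0 < N → Per N F → (∀ z, |F z| ≤ 1) →
  ∀ (A B : ℤ) (X Y : ℕ), |∑ z ∈ Box A B X Y, F z - X * Y * av N F| ≤ 2 * N * (X + Y)

/-- [AVM] the mean over a multiple of the period (split the box of side `N M` into `M ^ 2` boxes). -/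
def S_AVM : Prop := ∀ (N M : ℕ) (F : Z2 → ℝ), 0 < N → 0 < M → Per N F → av (N * M) F = av N F

/-- [CRT] products for coprime periods. For a fixed class `(a, b)` modulo `M` the points
`(a + M i, b + M j)`, `i, j < N`, run over all classes modulo `N`. (Or `ZMod.chineseRemainder`.) -/
def S_CRT : Prop := ∀ (M N : ℕ) (F G : Z2 → ℝ), 0 < M → 0 < N → Nat.Coprime M N → Per M F →
  Per N G → av (M * N) (fun z => F z * G z) = av M F * av N G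

/-- [AFF] an affine map with determinant prime to `N` permutes `(ℤ / N) ^ 2`. -/
def S_AFF : Prop := ∀ (N : ℕ) (F : Z2 → ℝ) (φ : Aff), 0 < N → Per N F → IsCoprime φ.det (N : ℤ) →
  Per N (fun z => F (φ.ap z)) ∧ av N (fun z => F (φ.ap z)) = av N F

/-- [PRD] induction on `S` with `CRT`. -/
def S_PRD : Prop := ∀ (S : Finset ℕ) (θ : ℕ → Z2 → ℝ), (∀ p ∈ S, p.Prime) →
  (∀ p ∈ S, Per p (θ p)) → Per (∏ p ∈ S, p) (Pr θ S) ∧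
    av (∏ p ∈ S, p) (Pr θ S) = ∏ p ∈ S, av p (θ p)

/-- [ORT] orthogonality. `Pr ψ S * Pr ψ T = Pr θ (S ∪ T)` with `θ p = (ψ p) ^ 2` for
`p ∈ S ∩ T` and `θ p = ψ p` for the other `p`; `PRD`, `CRT` (with `χ`) and `AVM` (from
`q * ∏_{S ∪ T}` to the multiple `q * (∏_S * ∏_T)`). -/
def S_ORT : Prop := ∀ (P : Finset ℕ) (ψ : ℕ → Z2 → ℝ) (h : ℕ → ℝ), Fam P ψ h →
  ∀ (q : ℕ) (χ : Z2 → ℝ), 0 < q → Per q χ → (∀ p ∈ P, Nat.Coprime q p) →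
  ∀ S T : Finset ℕ, S ⊆ P → T ⊆ P →
    Per (q * ((∏ p ∈ S, p) * ∏ p ∈ T, p)) (fun z => χ z * (Pr ψ S z * Pr ψ T z)) ∧
    av (q * ((∏ p ∈ S, p) * ∏ p ∈ T, p)) (fun z => χ z * (Pr ψ S z * Pr ψ T z)) =
      if S = T then av q χ * ∏ p ∈ S, h p else 0

/-- [QF] expand the square, `ORT` and `BOX` for each of the `|I| ^ 2` pairs (period
`≤ q * R ^ 2`). -/
def S_QF : Prop := ∀ (P : Finset ℕ) (ψ : ℕ → Z2 → ℝ) (h : ℕ → ℝ), Fam P ψ h →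
  ∀ (I : Finset (Finset ℕ)) (R : ℕ), (∀ S ∈ I, S ⊆ P ∧ ∏ p ∈ S, p ≤ R) →
  ∀ (q : ℕ) (χ : Z2 → ℝ), 0 < q → Per q χ → (∀ z, 0 ≤ χ z ∧ χ z ≤ 1) →
  (∀ p ∈ P, Nat.Coprime q p) → ∀ (A B : ℤ) (X Y : ℕ),
    |∑ z ∈ Box A B X Y, χ z * FF ψ I z ^ 2 - X * Y * (av q χ * GG h I)| ≤
      (I.card : ℝ) ^ 2 * (2 * (q * (R : ℝ) ^ 2) * (X + Y))

/-- [EV] affine images. By `AFF` the functions `ψ p ∘ φ` form a family again; every point of `Z`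
has a preimage in the box (different points have different preimages), so the sum over `Z` is at
most the sum of `(F ∘ φ) ^ 2` over the box; `QF` with `q = 1`, `χ = 1`. -/
def S_EV : Prop := ∀ (P : Finset ℕ) (ψ : ℕ → Z2 → ℝ) (h : ℕ → ℝ), Fam P ψ h →
  ∀ (I : Finset (Finset ℕ)) (R : ℕ), (∀ S ∈ I, S ⊆ P ∧ ∏ p ∈ S, p ≤ R) →
  ∀ φ : Aff, (∀ p ∈ P, IsCoprime φ.det (p : ℤ)) → ∀ (Z : Finset Z2) (A B : ℤ) (X Y : ℕ),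
    (∀ z ∈ Z, ∃ w ∈ Box A B X Y, φ.ap w = z) →
    ∑ z ∈ Z, FF ψ I z ^ 2 ≤ X * Y * GG h I + (I.card : ℝ) ^ 2 * (2 * (R : ℝ) ^ 2 * (X + Y))

/-! ## B. The functions `psi` -/

/-- [PSI] elementary facts (`psi = - chi + hh (1 - chi)`; mean `- g + (1 - g) h = 0`, mean square
`g + (1 - g) h ^ 2 = h`, `h ≤ 1`). -/
def S_PSI : Prop := ∀ L : Z2 → ℤ, Con L → ∀ p : ℕ, p.Prime → 0 < gg L p → gg L p ≤ 1 / 2 →
  Per p (chi L p) ∧ Per p (psi L p) ∧ av p (psi L p) = 0 ∧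
    av p (fun z => psi L p z ^ 2) = hh L p ∧ (∀ z, |psi L p z| ≤ 1) ∧
    (∀ z, (p : ℤ) ∣ L z → psi L p z = -1) ∧ (∀ z, ¬ (p : ℤ) ∣ L z → psi L p z = hh L p) ∧
    gg L p ≤ hh L p ∧ hh L p ≤ 2 * gg L p

/-- [CON] polynomials with integral coefficients. -/
def S_CON : Prop := ∀ E κ : ℕ, (∀ i : Fin 5, Con (LL E κ i)) ∧ Con (LP E κ)

/-- [COP] modulo a prime factor `p` of `E` one has `u = v = 1` and `κ v = 0`. -/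
def S_COP : Prop := ∀ E κ : ℕ, Good E κ → ∀ (z : Z2) (p : ℕ), p.Prime → p ∣ E →
  ¬ (p : ℤ) ∣ LP E κ z

/-- [DEN1] each of the first four forms has exactly `p` zeros modulo `p` (`p ∤ E`, so `E`, `κ` and
`E / κ` are invertible modulo `p`). -/
def S_DEN1 : Prop := ∀ E κ : ℕ, Good E κ → ∀ p : ℕ, p.Prime → ¬ p ∣ E → ∀ i : Fin 5, i ≠ 4 →
  gg (LL E κ i) p = 1 / p

/-- [DEN5] for each `b` at most two `a` with `u ^ 2 = - (κ v) ^ 2` modulo `p`; there is a zero with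
`u = v = 0`; if `p = 1 (mod 4)`, `ι ^ 2 = -1`, then for each `b` there is an `a` with
`u = ι κ v`. -/
def S_DEN5 : Prop := ∀ E κ : ℕ, Good E κ → ∀ p : ℕ, p.Prime → ¬ p ∣ E →
  0 < gg (LL E κ 4) p ∧ gg (LL E κ 4) p ≤ 2 / p ∧ (p % 4 = 1 → 1 / (p : ℝ) ≤ gg (LL E κ 4) p)

/-- [DENP] union bound (`DEN1`, `DEN5`); `17 ≤ p` since `30030 ∣ E`. -/
def S_DENP : Prop := ∀ E κ : ℕ, Good E κ → ∀ p : ℕ, p.Prime → ¬ p ∣ E →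
  17 ≤ p ∧ 0 < gg (LP E κ) p ∧ gg (LP E κ) p ≤ 6 / p

/-- [FAM] the families (`PSI`, `CON`, `DEN1`, `DEN5`, `DENP`). -/
def S_FAM : Prop := ∀ E κ : ℕ, Good E κ → ∀ T : ℕ,
  Fam (P0 E T) (psi (LP E κ)) (hh (LP E κ)) ∧
  (∀ p ∈ P0 E T, 0 ≤ hh (LP E κ) p ∧ hh (LP E κ) p ≤ 12 / p) ∧
  ∀ (i : Fin 5) (k₂ k₃ : ℕ), E ≤ T → 1 ≤ k₂ →
    Fam (P0 E T ∪ P1 T k₂ k₃) (mix T (psi (LP E κ)) (psi (LL E κ i)))
      (mix T (hh (LP E κ)) (hh (LL E κ i))) ∧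
    ∀ p ∈ P1 T k₂ k₃, T < p ∧ 1 / (p : ℝ) ≤ hh (LL E κ i) p ∧
      ∀ z, ¬ (p : ℤ) ∣ LL E κ i z → psi (LL E κ i) p z = hh (LL E κ i) p

/-! ## C. The sieve -/

/-- [CARD] the product of a set of primes determines the set. -/
def S_CARD : Prop := ∀ (I : Finset (Finset ℕ)) (R : ℕ),
  (∀ S ∈ I, (∀ p ∈ S, p.Prime) ∧ ∏ p ∈ S, p ≤ R) → I.card ≤ R

/-- [LOC] `F = ∑_{q ∉ S} Pr S + ∑_{q ∉ S', q ∏ S' ≤ R} ψ_q Pr S'` with `ψ_q = -1`. -/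
def S_LOC : Prop := ∀ (P : Finset ℕ) (ψ : ℕ → Z2 → ℝ) (R q : ℕ) (z : Z2), (∀ p ∈ P, p.Prime) →
  q ∈ P → ψ q z = -1 → FF ψ (Sq P R) z = FF ψ (Sh P R q) z

/-- [SUM] For `S` in `Sh P R q`: `log (R / q) ≤ log ∏ S = ∑_{p ∈ S} log p`. Hence the left side is
at most the sum over pairs `(S', p)`, `S' = S \ {p}` (in `Sq P R`), of `h_{S'} h_p log p` with
`R / (q ∏ S') < p ≤ R / ∏ S'`; for fixed `S'`, with `x = R / ∏ S' ≥ 1`,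
`∑_{x / q < p ≤ x} h_p log p ≤ 12 (log q + 2 C₀)` by Mertens
(`Pool.Agent.Work.MP_e0c7e8_nt.Mert.mertens1`, second part; if `x < q` use it for `x` alone), and
`log q ≥ log 2`. -/
def S_SUM : Prop := ∃ C : ℝ, 0 < C ∧ ∀ (P : Finset ℕ) (h : ℕ → ℝ),
  (∀ p ∈ P, p.Prime ∧ 0 ≤ h p ∧ h p ≤ 12 / p) → ∀ R q : ℕ, q.Prime → q ≤ R →
    GG h (Sh P R q) * Real.log (R / q) ≤ C * Real.log q * GG h (Sq P R)

/-- [SMA] `SUM` with `R = T ^ k`, `log (R / q) ≥ (k - 1) log T`, and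
`∑_{q ≤ T} log q / q ≤ log T + C₀` (`mertens1` again), `log T ≥ log 2`. -/
def S_SMA : Prop := ∃ C : ℝ, 0 < C ∧ ∀ (P : Finset ℕ) (g h : ℕ → ℝ) (T k : ℕ), 2 ≤ T → 2 ≤ k →
  (∀ p ∈ P, p.Prime ∧ p ≤ T ∧ 0 ≤ g p ∧ g p ≤ 6 / p ∧ 0 ≤ h p ∧ h p ≤ 12 / p) →
    ∑ q ∈ P, g q * GG h (Sh P (T ^ k) q) ≤ C / (k - 1) * GG h (Sq P (T ^ k))

/-- [SML] the small primes: `LOC` (with `PSI`), `QF` for the family on `P0 E T` without `q` and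
`I = Sh (P0 E T) (T ^ k) q`, `R = T ^ k`, `χ = chi (LP E κ) q`; `CARD`; `SMA` with `g = gg`,
`h = hh` (`DENP`, `FAM`). Error: `T` times `T ^ (2 k) * (2 * (T * T ^ (2 k)) * (2 H))`. -/
def S_SML : Prop := ∃ C : ℝ, 0 < C ∧ ∀ E κ : ℕ, Good E κ → ∀ T k : ℕ, 2 ≤ T → 2 ≤ k →
  ∀ (A B : ℤ) (H : ℕ), ∑ q ∈ P0 E T, ∑ z ∈ (Box A B H H).filter (fun z => (q : ℤ) ∣ LP E κ z),
      FF (psi (LP E κ)) (Sq (P0 E T) (T ^ k)) z ^ 2 ≤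
    C / (k - 1) * ((H : ℝ) ^ 2 * GG (hh (LP E κ)) (Sq (P0 E T) (T ^ k))) +
      4 * (T : ℝ) ^ (4 * k + 2) * H

/-- [LIN] the points with `q ∣ L_i`, `i ≠ 4`, are in an affine image of a box. `L₀`: `a = a₀ + q s`,
`b = t`. `L₁`: `a = s`, `b = b₀ + q t` (then exchange the roles: `X` is the short side; take
`(s, t) ↦ (t, b₀ + q s)`). `L₂`: `a - b = c (mod q)`: `(a, b) = (c + q s + t, t)`. `L₃`:
`a + b = c`: `(a, b) = (c + q s - t, t)`. Here `E`, `κ`, `E / κ` are invertible modulo `q`, and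
`κ * (E / κ) = E`. The range of `s` has length at most `2 H / q + 2 ≤ 4 H / q`. -/
def S_LIN : Prop := ∀ E κ : ℕ, Good E κ → ∀ q : ℕ, q.Prime → ¬ q ∣ E → ∀ i : Fin 5, i ≠ 4 →
  ∀ (A B : ℤ) (H : ℕ), q ≤ H → ∃ (φ : Aff) (A' B' : ℤ) (X Y : ℕ), |φ.det| = q ∧
    X * q ≤ 4 * H ∧ Y ≤ H ∧ ∀ z ∈ Box A B H H, (q : ℤ) ∣ LL E κ i z →
      ∃ w ∈ Box A' B' X Y, φ.ap w = z

/-- [GAU] Let `q ∣ u ^ 2 + w ^ 2`, `w = κ v = κ + E b`. If `q % 4 = 3`, then `q ∣ u` (take any map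
of determinant `q`). Otherwise `q = x ^ 2 + y ^ 2` and `q` divides
`(u x + w y) (u x - w y) = u ^ 2 q - y ^ 2 (u ^ 2 + w ^ 2)`. First case: `q ∣ u x + w y`; as
`(u x + w y) ^ 2 + (u y - w x) ^ 2 = q (u ^ 2 + w ^ 2)`, also `q ∣ u y - w x`. Fix one such point
`(a₁, b₁)` of the box (if there is one); for any other one `q` divides
`x (a - a₁) + y (b - b₁) = q s` and `x (b - b₁) - y (a - a₁) = q t` (`q ∤ E`), and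
`(a, b) = (a₁ + x s - y t, b₁ + y s + x t)`, determinant `q`. Moreover
`(q s) ^ 2 ≤ (|x| + |y|) ^ 2 H ^ 2 ≤ 2 q H ^ 2`, so `|s| ≤ S`, `S = √(2 H ^ 2 / q)`; the same for
`t`; `X = 2 S + 1`. Second case: `y` replaced by `- y`. -/
def S_GAU : Prop := ∀ E κ : ℕ, Good E κ → ∀ q : ℕ, q.Prime → ¬ q ∣ E →
  ∀ (A B : ℤ) (H : ℕ), q ≤ H ^ 2 → ∃ (φ φ' : Aff) (A₁ B₁ A₂ B₂ : ℤ) (X : ℕ), |φ.det| = q ∧
    |φ'.det| = q ∧ X ^ 2 * q ≤ 18 * H ^ 2 ∧ ∀ z ∈ Box A B H H, (q : ℤ) ∣ LL E κ 4 z →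
      (q : ℤ) ∣ LL E κ 0 z ∨ (∃ w ∈ Box A₁ B₁ X X, φ.ap w = z) ∨
        ∃ w ∈ Box A₂ B₂ X X, φ'.ap w = z

/-- [MIDL] middle primes, linear forms: `EV` with `LIN`; `T < q`, so `q` is prime to `P0 E T`;
`H = T ^ k₀`, `10 T ^ (4 k) H ≤ H ^ 2 / q` as `q ≤ T ^ (k₀ - k₄)`, `k₄ ≥ 4 k + 1`, `T ≥ 10`;
`GG ≥ 1` (the empty set). -/
def S_MIDL : Prop := ∀ E κ : ℕ, Good E κ → ∀ T k k₄ k₀ : ℕ, E ≤ T → 20 ≤ T → 4 * k + 1 ≤ k₄ →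
  k₄ ≤ k₀ → ∀ q : ℕ, q.Prime → T < q → q ≤ T ^ (k₀ - k₄) → ∀ i : Fin 5, i ≠ 4 → ∀ A B : ℤ,
    ∑ z ∈ (Box A B (T ^ k₀) (T ^ k₀)).filter (fun z => (q : ℤ) ∣ LL E κ i z),
      FF (psi (LP E κ)) (Sq (P0 E T) (T ^ k)) z ^ 2 ≤
    5 * ((T ^ k₀ : ℕ) : ℝ) ^ 2 * GG (hh (LP E κ)) (Sq (P0 E T) (T ^ k)) / q

/-- [MIDQ] middle primes, quadratic form: `EV` with `GAU`; `4 T ^ (4 k) X ≤ H ^ 2 / q` as
`√q ≤ T ^ (k₀ - k₄)` and `X ≤ 5 H / √q`. -/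
def S_MIDQ : Prop := ∀ E κ : ℕ, Good E κ → ∀ T k k₄ k₀ : ℕ, E ≤ T → 20 ≤ T → 4 * k + 1 ≤ k₄ →
  k₄ ≤ k₀ → ∀ q : ℕ, q.Prime → T < q → q ≤ T ^ (2 * (k₀ - k₄)) → ∀ A B : ℤ,
    ∑ z ∈ (Box A B (T ^ k₀) (T ^ k₀)).filter
        (fun z => (q : ℤ) ∣ LL E κ 4 z ∧ ¬ (q : ℤ) ∣ LL E κ 0 z),
      FF (psi (LP E κ)) (Sq (P0 E T) (T ^ k)) z ^ 2 ≤
    38 * ((T ^ k₀ : ℕ) : ℝ) ^ 2 * GG (hh (LP E κ)) (Sq (P0 E T) (T ^ k)) / q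

/-- [MER] primes `= 1 (mod 4)`: from `Pool.Agent.Work.WI` (`W5.lean`, `thetaAP_tendsto`, prime
number theorem in progressions) each dyadic block `(x, 2 x]`, `x` large, has
`∑ 1 / p ≥ 1 / (8 log (2 x))`; sum over the blocks in `(T ^ k₂, T ^ k₃]`:
`≥ c log (k₃ / k₂)`. -/
def S_MER : Prop := ∀ (M : ℝ) (k₂ : ℕ), ∃ k₃ : ℕ, k₂ < k₃ ∧ ∃ T₀ : ℕ, ∀ T : ℕ, T₀ ≤ T →
  M ≤ ∑ p ∈ P1 T k₂ k₃, (1 : ℝ) / p

/-- [EXT] the extended family: `FF` and `GG` are multiplied by `1 + ∑_p ..`; products at most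
`R * R'` (all sets of `I` are sets of numbers `≤ T`, all elements of `P` are `> T` and `≤ R'`). -/
def S_EXT : Prop := ∀ (I : Finset (Finset ℕ)) (P : Finset ℕ) (T R R' : ℕ), 1 ≤ R' →
  (∀ S ∈ I, (∀ p ∈ S, p ≤ T) ∧ ∏ p ∈ S, p ≤ R) → (∀ p ∈ P, T < p ∧ p ≤ R') →
  (∀ S ∈ Ext I P, ∏ p ∈ S, p ≤ R * R') ∧
  (∀ (ψ ψ' : ℕ → Z2 → ℝ) (z : Z2),
    FF (mix T ψ ψ') (Ext I P) z = FF ψ I z * (1 + ∑ p ∈ P, ψ' p z)) ∧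
  ∀ h h' : ℕ → ℝ, GG (mix T h h') (Ext I P) = GG h I * (1 + ∑ p ∈ P, h' p)

/-- [TOP] the points where no prime of `(T ^ k₂, T ^ k₃]`, `= 1 (mod 4)`, divides `L_i`: there the
extended weight is `F * G`, `G = 1 + ∑ hh`; its mean square is `GG * G`; so
`G ^ 2 ∑_Z F ^ 2 ≤ H ^ 2 GG G + 4 T ^ (4 (k + k₃)) H` (`FAM`, `EXT`, `QF` with `q = 1`, `CARD`),
and `G ≥ 1 + ∑ 1 / p ≥ 1`. -/
def S_TOP : Prop := ∀ E κ : ℕ, Good E κ → ∀ T k k₂ k₃ : ℕ, E ≤ T → 1 ≤ k₂ → ∀ (i : Fin 5)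
  (A B : ℤ) (H : ℕ) (Z : Finset Z2), Z ⊆ Box A B H H →
  (∀ z ∈ Z, ∀ p ∈ P1 T k₂ k₃, ¬ (p : ℤ) ∣ LL E κ i z) →
    (1 + ∑ p ∈ P1 T k₂ k₃, (1 : ℝ) / p) *
      ∑ z ∈ Z, FF (psi (LP E κ)) (Sq (P0 E T) (T ^ k)) z ^ 2 ≤
    (H : ℝ) ^ 2 * GG (hh (LP E κ)) (Sq (P0 E T) (T ^ k)) + 4 * (T : ℝ) ^ (4 * (k + k₃)) * H

/-- [SZ] sizes of the forms in the box of side `H` at `(α H, β H)`. -/
def S_SZ : Prop := ∀ E κ : ℕ, Good E κ → ∀ α β : ℕ, ∃ T₀ : ℕ, ∀ T H : ℕ, T₀ ≤ T → 1 ≤ H →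
  ∀ z ∈ Box (α * H) (β * H) H H,
    (∀ i : Fin 5, i ≠ 4 → |LL E κ i z| ≤ T * H) ∧ |LL E κ 4 z| ≤ T * (H : ℤ) ^ 2

/-- [SP] THE SIEVE PROPOSITION. Constants: `C` from `SML`, `k` with `C / (k - 1) ≤ 1 / 10`,
`k₄ = 4 k + 1`, `k₂ = 2 k₄ + 1`, `k₃` from `MER` with `M = 100`, `k₀ = 4 (k + k₃) + k₄ + 1`,
`δ₀ = 1 / 1000`; `H = T ^ k₀`, box at `(α H, β H)`, `W = ∑_box F ^ 2 ≥ (1 - 1/100) H ^ 2 GG`
(`QF`, `q = 1`; `GG ≥ 1`). Bad points: (1) a prime `p ≤ T` divides `LP` (then `p ∤ E` by `COP`):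
`SML`, `≤ (1/10 + 1/100) H ^ 2 GG`; (2) a prime `q ∈ Q`, `q > T`, divides `LP`, hence some `L_i`;
then `q ≤ T H ^ 2 ≤ T ^ (2 k₀ + 1)` by `SZ` (`LP ≠ 0` as some prime `≤ T` does not divide `E`
and is covered by (1), or simply: if `L_i = 0` the point is in (1)); (2a) `i ≠ 4`,
`q ≤ T ^ (k₀ - k₄)`: `MIDL`, in total `≤ 20 δ₀ H ^ 2 GG`; (2b) `i = 4`, `q ∤ L₀`,
`q ≤ T ^ (2 (k₀ - k₄))`: `MIDQ`, `≤ 38 δ₀ H ^ 2 GG`; (2c) otherwise no `p ∈ P1 T k₂ k₃` divides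
`L_i` (`p ≠ q`, so `p q ∣ L_i`, but `p q > T ^ k₂ T ^ (k₀ - k₄) ≥ T H` resp.
`> T ^ k₂ T ^ (2 (k₀ - k₄)) = T H ^ 2`): `TOP`, in total `≤ 5 (1 + 1/100) / 100 H ^ 2 GG`. The sum
is less than `W`, so some point of the box is not bad. -/
def S_SP : Prop := ∃ k₀ : ℕ, 0 < k₀ ∧ ∃ δ₀ : ℝ, 0 < δ₀ ∧ ∀ E κ : ℕ, Good E κ → ∀ α β : ℕ,
  ∃ T₀ : ℕ, ∀ T : ℕ, T₀ ≤ T → ∀ Q : Set ℕ, ∑ q ∈ QQ Q T (T ^ (2 * k₀ + 1)), (1 : ℝ) / q ≤ δ₀ →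
    ∃ z ∈ Box (α * (T ^ k₀ : ℕ)) (β * (T ^ k₀ : ℕ)) (T ^ k₀) (T ^ k₀),
      ∀ p : ℕ, p.Prime → (p : ℤ) ∣ LP E κ z → T < p ∧ p ∉ Q

/-! ## D. Colourings -/

/-- The final theorem. -/
def Main : Prop := ∃ ε₀ : ℝ, 0 < ε₀ ∧ ∃ δ₀ : ℝ, 0 < δ₀ ∧ ∀ Q : Set ℕ,
  (∃ᶠ N : ℕ in Filter.atTop, ∑ q ∈ QQ Q ⌊(N : ℝ) ^ ε₀⌋₊ N, (1 : ℝ) / q ≤ δ₀) →
  ∀ (M : ℕ) (δ : ℝ) (r : ℕ) (c : ℕ → Fin r), 0 < M → 0 < δ →
  (∀ s m n : ℕ, 0 < s → 0 < m → 0 < n → m ≡ n [MOD M] → |(m : ℝ) - n| ≤ δ * m →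
    (∀ p : ℕ, p.Prime → p ∣ s → (p : ℝ) ≤ ((s * min m n : ℕ) : ℝ) ^ ε₀) →
    (∀ p : ℕ, p.Prime → p ∣ m * n → ((s * max m n : ℕ) : ℝ) ^ ε₀ < p ∧ p ∉ Q) →
    c (s * m) = c (s * n)) →
  ∃ x y z : ℕ, 0 < x ∧ 0 < y ∧ 0 < z ∧ x ^ 2 + y ^ 2 = z ^ 2 ∧ c x = c y ∧ c y = c z

/-- [SCA] the choice of the scale: `T = ⌊N ^ (1 / k)⌋`, so `T ^ k ≤ N` and
`T ≥ N ^ (1 / (2 k))` for large `N`. -/
def S_SCA : Prop := ∀ k : ℕ, 0 < k → ∀ (δ₀ : ℝ) (Q : Set ℕ),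
  (∃ᶠ N : ℕ in Filter.atTop,
    ∑ q ∈ QQ Q ⌊(N : ℝ) ^ ((1 : ℝ) / (2 * k))⌋₊ N, (1 : ℝ) / q ≤ δ₀) →
  ∀ T₀ : ℕ, ∃ T : ℕ, T₀ ≤ T ∧ ∑ q ∈ QQ Q T (T ^ k), (1 : ℝ) / q ≤ δ₀

/-- [TRI] the numbers. Let `4 * 30030 ∣ D`, `1 ≤ e ≤ r`, `κ = D ^ e / 2`, `E = D ^ (r + 1)`. -/
def S_TRI : Prop := ∀ D r e : ℕ, 0 < D → 4 * 30030 ∣ D → 1 ≤ e → e ≤ r →
  Good (D ^ (r + 1)) (D ^ e / 2) ∧ 2 * (D ^ e / 2) = D ^ e ∧ D ∣ D ^ (r + 1) ∧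
    D ∣ D ^ (r + 1) / (D ^ e / 2) ∧ D ∣ (D ^ e / 2) ^ 2

/-- [FIN] the final theorem from `SP`. `k = 2 k₀ + 1`, `ε₀ = 1 / (2 k)`, the same `δ₀`.
`D = 4 * 30030 * M`, `E = D ^ (r + 1)`, `μ = D ^ r m₀`, `α_i = α₀ μ ^ (2 r - i)` for `0 ≤ i ≤ r`,
`m₀`, `α₀` large (depending on `δ`). `u_i` = the value of `u` at the point given by `SP` for
`κ = D / 2`, `α = α_i`, `β = α_i`; `b_i = u_i ^ 2`. Pigeonhole: `c (D ^ i b_i) = c (D ^ j b_j)` for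
some `i < j`. With `κ = D ^ (j - i) / 2`, `α = α_i`, `β = κ α₀ μ ^ (2 r + i - 2 j)` the proposition
gives `u`, `v`; `w = κ v`; `m = u ^ 2 - w ^ 2`, `u v`, `u ^ 2 + w ^ 2` are comparable up to `1 + δ`
with `b_i`, `b_j`, `b_i`. -/
def S_FIN : Prop := S_SP → Main

end Pool.Agent.Work.MP_0f91f8_co.Rg
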