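import Mathlib
import Pool.Agent.Work.MP_0f91f8_co.Rg.Stmts

/-!
Item DEN1 of the block [0f91f8 RG] (helper76).
-/

set_option autoImplicit false

namespace Pool.Agent.Work.MP_0f91f8_co.Rg

open Finset

namespace I_DEN1

/-- Exactly one solution of a linear congruence in a period. -/
lemma one_sol (p : ℕ) (hp : p.Prime) (m : ℤ) (hm : ¬ (p : ℤ) ∣ m) (c : ℤ) :
    ∑ a ∈ Ico (0 : ℤ) (0 + p), (if (p : ℤ) ∣ c + m * a then (1 : ℝ) else 0) = 1 := by
  have hp0 : (0 : ℤ) < p := by exact_mod_cast hp.pos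
  have hpi : Prime (p : ℤ) := Nat.prime_iff_prime_int.mp hp
  have hco : IsCoprime m (p : ℤ) := ((Prime.coprime_iff_not_dvd hpi).2 hm).symm
  obtain ⟨u, v, huv⟩ := hco
  -- u * m + v * p = 1
  have key : ∀ a ∈ Ico (0 : ℤ) (0 + p), ((p : ℤ) ∣ c + m * a ↔ a = (-(u * c)) % p) := by
    intro a ha
    rw [zero_add, mem_Ico] at ha
    constructor
    · rintro ⟨k, hk⟩
      have h1 : a = -(u * c) + p * (u * k + v * a) := by
        linear_combination (-a) * huv + u * hk
      have h2 : a % p = (-(u * c)) % p := by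
        conv_lhs => rw [h1]
        rw [Int.add_mul_emod_self_left]
      rw [← h2, Int.emod_eq_of_lt ha.1 ha.2]
    · intro h
      have h3 := Int.emod_add_mul_ediv (-(u * c)) p
      rw [← h] at h3
      refine ⟨c * v - m * (-(u * c) / p), ?_⟩
      linear_combination m * h3 - c * huv
  rw [Finset.sum_eq_single ((-(u * c)) % p)]
  · rw [if_pos]
    refine (key _ ?_).2 rfl
    rw [zero_add, mem_Ico]
    exact ⟨Int.emod_nonneg _ hp0.ne', Int.emod_lt_of_pos _ hp0⟩
  · intro a ha hne
    rw [if_neg]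
    intro hd
    exact hne ((key a ha).1 hd)
  · intro hn
    exfalso
    apply hn
    rw [zero_add, mem_Ico]
    exact ⟨Int.emod_nonneg _ hp0.ne', Int.emod_lt_of_pos _ hp0⟩

end I_DEN1

theorem DEN1_pf : S_DEN1 := by
  intro E κ hG p hp hpE i hi
  have hp0 : (p : ℝ) ≠ 0 := by exact_mod_cast hp.ne_zero
  have hEz : ¬ (p : ℤ) ∣ (E : ℤ) := by
    intro h
    exact hpE (by exact_mod_cast h)
  have hEk : ¬ (p : ℤ) ∣ ((E / κ : ℕ) : ℤ) := by
    intro h
    have h' : p ∣ E / κ := by exact_mod_cast h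
    exact hpE (h'.trans (Nat.div_dvd_of_dvd hG.dvd))
  have hcard : (∑ _b ∈ Ico (0 : ℤ) (0 + p), (1 : ℝ)) = p := by
    simp
  have hsum : ∑ z ∈ Box 0 0 p p, chi (LL E κ i) p z = p := by
    unfold Box chi
    have hcases : (∃ c : ℤ → ℤ, ∀ z : Z2, LL E κ i z = c z.2 + E * z.1) ∨
        (∀ z : Z2, LL E κ i z = 1 + ((E / κ : ℕ) : ℤ) * z.2) := by
      fin_cases i
      · left
        exact ⟨fun _ => 1, fun z => by simp [LL, uu]⟩
      · right
        intro z
        simp [LL, vv]
      · left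
        refine ⟨fun b => 1 - κ * (1 + ((E / κ : ℕ) : ℤ) * b), fun z => ?_⟩
        simp only [LL, uu, vv]
        simp
        ring
      · left
        refine ⟨fun b => 1 + κ * (1 + ((E / κ : ℕ) : ℤ) * b), fun z => ?_⟩
        simp only [LL, uu, vv]
        simp
        ring
      · exact absurd rfl hi
    rcases hcases with ⟨c, hc⟩ | hc
    · rw [Finset.sum_product_right]
      rw [← hcard]
      refine Finset.sum_congr rfl fun b _ => ?_
      refine Eq.trans ?_ (I_DEN1.one_sol p hp (E : ℤ) hEz (c b))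
      refine Finset.sum_congr rfl fun a _ => ?_
      rw [hc]
    · rw [Finset.sum_product]
      rw [← hcard]
      refine Finset.sum_congr rfl fun a _ => ?_
      refine Eq.trans ?_ (I_DEN1.one_sol p hp ((E / κ : ℕ) : ℤ) hEk 1)
      refine Finset.sum_congr rfl fun b _ => ?_
      rw [hc]
  unfold gg av
  rw [hsum]
  field_simp

end Pool.Agent.Work.MP_0f91f8_co.Rg
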