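import Pool.Agent.Work.MP_0f91f8_co.Rg.Stmts

set_option autoImplicit false

namespace Pool.Agent.Work.MP_0f91f8_co.Rg

open Finset

namespace I_DEN5

/-- The set of zeros. -/
noncomputable def Zr (L : Z2 → ℤ) (p : ℕ) : Finset Z2 :=
  (Ico (0 : ℤ) p ×ˢ Ico (0 : ℤ) p).filter fun z => (p : ℤ) ∣ L z

theorem gg_eq (L : Z2 → ℤ) (p : ℕ) : gg L p = ((Zr L p).card : ℝ) / (p : ℝ) ^ 2 := by
  unfold gg av Zr Box chi
  rw [sum_ite]
  simp

theorem lift_ex (p : ℕ) (hp : p.Prime) (x : ZMod p) :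
    ∃ a : ℤ, a ∈ Ico (0 : ℤ) p ∧ ((a : ℤ) : ZMod p) = x := by
  have : NeZero p := ⟨hp.ne_zero⟩
  refine ⟨(x.val : ℤ), ?_, ?_⟩
  · rw [mem_Ico]
    exact ⟨by positivity, by exact_mod_cast ZMod.val_lt x⟩
  · simp

theorem cast_inj (p : ℕ) {a b : ℤ} (ha : a ∈ Ico (0 : ℤ) p) (hb : b ∈ Ico (0 : ℤ) p)
    (h : ((a : ℤ) : ZMod p) = ((b : ℤ) : ZMod p)) : a = b := by
  rw [mem_Ico] at ha hb
  have h1 : (p : ℤ) ∣ b - a := (ZMod.intCast_eq_intCast_iff_dvd_sub a b p).1 h
  obtain ⟨k, hk⟩ := h1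
  have hp0 : (0 : ℤ) < p := by omega
  have : k = 0 := by
    by_contra hk0
    rcases lt_or_gt_of_ne hk0 with h2 | h2
    · have : (p : ℤ) * k ≤ (p : ℤ) * (-1) := by
        apply mul_le_mul_of_nonneg_left _ hp0.le
        omega
      omega
    · have : (p : ℤ) * 1 ≤ (p : ℤ) * k := by
        apply mul_le_mul_of_nonneg_left _ hp0.le
        omega
      omega
  rw [this] at hk
  omega

theorem L4 (E κ : ℕ) (z : Z2) :
    LL E κ 4 z = (1 + (E : ℤ) * z.1) ^ 2 + (κ * (1 + ((E / κ : ℕ) : ℤ) * z.2)) ^ 2 := by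
  unfold LL uu vv
  rw [if_neg (by decide), if_neg (by decide), if_neg (by decide), if_neg (by decide)]

theorem dvd_iff (E κ p : ℕ) (z : Z2) : (p : ℤ) ∣ LL E κ 4 z ↔
    (1 + (E : ZMod p) * ((z.1 : ℤ) : ZMod p)) ^ 2 +
      ((κ : ZMod p) * (1 + ((E / κ : ℕ) : ZMod p) * ((z.2 : ℤ) : ZMod p))) ^ 2 = 0 := by
  rw [← ZMod.intCast_zmod_eq_zero_iff_dvd, L4]
  generalize E / κ = q
  push_cast
  rfl

end I_DEN5

open I_DEN5 in
theorem DEN5_pf : S_DEN5 := by
  intro E κ hG p hp hpE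
  have : Fact p.Prime := ⟨hp⟩
  have hp0 : (0 : ℝ) < p := by exact_mod_cast hp.pos
  have hE0 : (E : ZMod p) ≠ 0 := by
    rw [Ne, ZMod.natCast_eq_zero_iff]
    exact hpE
  have hq0 : ((E / κ : ℕ) : ZMod p) ≠ 0 := by
    rw [Ne, ZMod.natCast_eq_zero_iff]
    exact fun h => hpE (h.trans (Nat.div_dvd_of_dvd hG.dvd))
  rw [gg_eq]
  -- solve for `a` and `b`
  have solve : ∀ (e : ZMod p), e ≠ 0 → ∀ x : ZMod p,
      ∃ a : ℤ, a ∈ Ico (0 : ℤ) p ∧ 1 + e * ((a : ℤ) : ZMod p) = x := by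
    intro e he x
    obtain ⟨a, ha, hax⟩ := lift_ex p hp ((x - 1) / e)
    refine ⟨a, ha, ?_⟩
    rw [hax]
    field_simp
    ring
  refine ⟨?_, ?_, ?_⟩
  · obtain ⟨a, ha, ha2⟩ := solve _ hE0 0
    obtain ⟨b, hb, hb2⟩ := solve _ hq0 0
    have hm : (a, b) ∈ Zr (LL E κ 4) p := by
      unfold Zr
      rw [mem_filter, mem_product]
      refine ⟨⟨ha, hb⟩, ?_⟩
      rw [dvd_iff]
      simp only
      rw [ha2, hb2]
      ring
    have : 0 < (Zr (LL E κ 4) p).card := card_pos.2 ⟨_, hm⟩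
    positivity
  · have hc : (Zr (LL E κ 4) p).card ≤ 2 * p := by
      have h1 : (Zr (LL E κ 4) p).card ≤ 2 * (Ico (0 : ℤ) p).card := by
        refine card_le_mul_card_image_of_maps_to (f := Prod.snd) ?_ 2 ?_
        · intro z hz
          unfold Zr at hz
          rw [mem_filter, mem_product] at hz
          exact hz.1.2
        · intro b hb
          -- at most two
          by_contra hlt
          push Not at hlt
          obtain ⟨x, y, z, hx, hy, hz, hxy, hxz, hyz⟩ := two_lt_card_iff.1 hlt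
          rw [mem_filter] at hx hy hz
          obtain ⟨hx1, hx2⟩ := hx
          obtain ⟨hy1, hy2⟩ := hy
          obtain ⟨hz1, hz2⟩ := hz
          unfold Zr at hx1 hy1 hz1
          rw [mem_filter, mem_product, dvd_iff] at hx1 hy1 hz1
          obtain ⟨⟨hx3, hx4⟩, hx5⟩ := hx1
          obtain ⟨⟨hy3, hy4⟩, hy5⟩ := hy1
          obtain ⟨⟨hz3, hz4⟩, hz5⟩ := hz1
          rw [hx2] at hx5
          rw [hy2] at hy5
          rw [hz2] at hz5
          have key : ∀ s t : Z2, s.1 ∈ Ico (0 : ℤ) p → t.1 ∈ Ico (0 : ℤ) p → s.2 = b → t.2 = b →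
              (1 + (E : ZMod p) * ((s.1 : ℤ) : ZMod p)) = (1 + (E : ZMod p) * ((t.1 : ℤ) : ZMod p)) →
              s = t := by
            intro s t hs ht hs2 ht2 he
            have h3 : ((s.1 : ℤ) : ZMod p) = ((t.1 : ℤ) : ZMod p) := by
              have := add_left_cancel he
              exact mul_left_cancel₀ hE0 this
            exact Prod.ext (cast_inj p hs ht h3) (hs2.trans ht2.symm)
          have e1 : ∀ s t : Z2, s.1 ∈ Ico (0 : ℤ) p → t.1 ∈ Ico (0 : ℤ) p → s.2 = b → t.2 = b →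
              s ≠ t →
              (1 + (E : ZMod p) * ((s.1 : ℤ) : ZMod p)) ^ 2 +
                ((κ : ZMod p) * (1 + ((E / κ : ℕ) : ZMod p) * ((b : ℤ) : ZMod p))) ^ 2 = 0 →
              (1 + (E : ZMod p) * ((t.1 : ℤ) : ZMod p)) ^ 2 +
                ((κ : ZMod p) * (1 + ((E / κ : ℕ) : ZMod p) * ((b : ℤ) : ZMod p))) ^ 2 = 0 →
              (1 + (E : ZMod p) * ((s.1 : ℤ) : ZMod p)) =
                - (1 + (E : ZMod p) * ((t.1 : ℤ) : ZMod p)) := by
            intro s t hs ht hs2 ht2 hne h1 h2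
            have h3 : (1 + (E : ZMod p) * ((s.1 : ℤ) : ZMod p)) ^ 2 =
                (1 + (E : ZMod p) * ((t.1 : ℤ) : ZMod p)) ^ 2 := by
              rw [eq_neg_of_add_eq_zero_left h1, eq_neg_of_add_eq_zero_left h2]
            rcases sq_eq_sq_iff_eq_or_eq_neg.1 h3 with h4 | h4
            · exact absurd (key s t hs ht hs2 ht2 h4) hne
            · exact h4
          have h1 := e1 x y hx3 hy3 hx2 hy2 hxy hx5 hy5
          have h2 := e1 x z hx3 hz3 hx2 hz2 hxz hx5 hz5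
          apply hyz
          apply key y z hy3 hz3 hy2 hz2
          exact neg_injective (h1.symm.trans h2)
      rwa [Int.card_Ico, sub_zero, Int.toNat_natCast] at h1
    have hc' : ((Zr (LL E κ 4) p).card : ℝ) ≤ 2 * p := by exact_mod_cast hc
    rw [div_le_div_iff₀ (by positivity) hp0]
    nlinarith
  · intro h4
    have hsq : IsSquare (-1 : ZMod p) := by
      rw [ZMod.exists_sq_eq_neg_one_iff]
      omega
    obtain ⟨ι, hι⟩ := hsq
    have ex : ∀ b : ℤ, ∃ a : ℤ, a ∈ Ico (0 : ℤ) p ∧ 1 + (E : ZMod p) * ((a : ℤ) : ZMod p) =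
        ι * ((κ : ZMod p) * (1 + ((E / κ : ℕ) : ZMod p) * ((b : ℤ) : ZMod p))) :=
      fun b => solve _ hE0 _
    choose f hf1 hf2 using ex
    have hc : p ≤ (Zr (LL E κ 4) p).card := by
      have h1 : (Ico (0 : ℤ) p).card ≤ (Zr (LL E κ 4) p).card := by
        refine card_le_card_of_injOn (fun b => (f b, b)) ?_ ?_
        · intro b hb
          have hb' : b ∈ Ico (0 : ℤ) p := hb
          show (f b, b) ∈ Zr (LL E κ 4) p
          unfold Zr
          rw [mem_filter, mem_product]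
          refine ⟨⟨hf1 b, hb'⟩, ?_⟩
          rw [dvd_iff]
          simp only
          rw [hf2 b, mul_pow, pow_two ι, ← hι]
          ring
        · intro b _ b' _ h
          exact (Prod.ext_iff.1 h).2
      rwa [Int.card_Ico, sub_zero, Int.toNat_natCast] at h1
    have hc' : (p : ℝ) ≤ ((Zr (LL E κ 4) p).card : ℝ) := by exact_mod_cast hc
    rw [div_le_div_iff₀ hp0 (by positivity)]
    nlinarith

end Pool.Agent.Work.MP_0f91f8_co.Rg
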