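import Pool.Agent.Work.MP_0f91f8_co.Rg.Stmts

set_option autoImplicit false

namespace Pool.Agent.Work.MP_0f91f8_co.Rg

open Finset

namespace I_DENP

theorem av_mono (N : ℕ) (F G : Z2 → ℝ) (h : ∀ z, F z ≤ G z) : av N F ≤ av N G := by
  unfold av
  apply div_le_div_of_nonneg_right _ (by positivity)
  exact sum_le_sum fun z _ => h z

theorem av_sum (N : ℕ) (F : Fin 5 → Z2 → ℝ) :
    av N (fun z => ∑ i : Fin 5, F i z) = ∑ i : Fin 5, av N (F i) := by
  unfold av
  rw [sum_comm, sum_div]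

theorem chi_nonneg (L : Z2 → ℤ) (p : ℕ) (z : Z2) : 0 ≤ chi L p z := by
  unfold chi
  split_ifs <;> norm_num

theorem chi_le_one (L : Z2 → ℤ) (p : ℕ) (z : Z2) : chi L p z ≤ 1 := by
  unfold chi
  split_ifs <;> norm_num

theorem chi_LP_le (E κ p : ℕ) (hp : p.Prime) (z : Z2) :
    chi (LP E κ) p z ≤ ∑ i : Fin 5, chi (LL E κ i) p z := by
  by_cases h : (p : ℤ) ∣ LP E κ z
  · have hp' : Prime (p : ℤ) := Nat.prime_iff_prime_int.mp hp
    unfold LP at h
    obtain ⟨i, -, hi⟩ := (Prime.dvd_finsetProd_iff hp' _).1 h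
    calc chi (LP E κ) p z ≤ 1 := chi_le_one _ _ _
      _ = chi (LL E κ i) p z := by unfold chi; rw [if_pos hi]
      _ ≤ ∑ i : Fin 5, chi (LL E κ i) p z :=
          single_le_sum (f := fun i => chi (LL E κ i) p z)
            (fun j _ => chi_nonneg _ _ _) (mem_univ i)
  · have : chi (LP E κ) p z = 0 := by unfold chi; rw [if_neg h]
    rw [this]
    exact sum_nonneg fun j _ => chi_nonneg _ _ _

theorem chi_le_LP (E κ p : ℕ) (i : Fin 5) (z : Z2) :
    chi (LL E κ i) p z ≤ chi (LP E κ) p z := by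
  by_cases h : (p : ℤ) ∣ LL E κ i z
  · have h2 : (p : ℤ) ∣ LP E κ z := dvd_trans h (dvd_prod_of_mem _ (mem_univ i))
    have : chi (LP E κ) p z = 1 := by unfold chi; rw [if_pos h2]
    rw [this]
    exact chi_le_one _ _ _
  · have : chi (LL E κ i) p z = 0 := by unfold chi; rw [if_neg h]
    rw [this]
    exact chi_nonneg _ _ _

theorem large (E p : ℕ) (hE : 30030 ∣ E) (hp : p.Prime) (h : ¬ p ∣ E) : 17 ≤ p := by
  by_contra hc
  have hlt : p < 17 := by omega
  apply h
  refine dvd_trans ?_ hE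
  have h2 := hp.two_le
  interval_cases p <;> first | (exfalso; revert hp; decide) | decide

end I_DENP

open I_DENP in
theorem DENP_pf (h1 : S_DEN1) (h2 : S_DEN5) : S_DENP := by
  intro E κ hg p hp hpE
  have h17 := large E p hg.small hp hpE
  have hp0 : (0 : ℝ) < p := by exact_mod_cast hp.pos
  refine ⟨h17, ?_, ?_⟩
  · have := av_mono p _ _ (chi_le_LP E κ p 0)
    have h3 : gg (LL E κ 0) p = 1 / p := h1 E κ hg p hp hpE 0 (by decide)
    unfold gg at h3 ⊢
    rw [h3] at this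
    have : (0 : ℝ) < 1 / p := by positivity
    linarith
  · have := av_mono p _ _ (chi_LP_le E κ p hp)
    rw [av_sum, Fin.sum_univ_five] at this
    have e0 : gg (LL E κ 0) p = 1 / p := h1 E κ hg p hp hpE 0 (by decide)
    have e1 : gg (LL E κ 1) p = 1 / p := h1 E κ hg p hp hpE 1 (by decide)
    have e2 : gg (LL E κ 2) p = 1 / p := h1 E κ hg p hp hpE 2 (by decide)
    have e3 : gg (LL E κ 3) p = 1 / p := h1 E κ hg p hp hpE 3 (by decide)
    have e4 := (h2 E κ hg p hp hpE).2.1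
    unfold gg at e0 e1 e2 e3 e4 ⊢
    rw [e0, e1, e2, e3] at this
    have h6 : (6 : ℝ) / p = 1 / p + 1 / p + 1 / p + 1 / p + 2 / p := by ring
    rw [h6]
    linarith

end Pool.Agent.Work.MP_0f91f8_co.Rg
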