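import Pool.Agent.Work.MP_0f91f8_co.Rg.Stmts

/-!
Affine images of boxes: the statement S_EV from S_AFF and S_QF.
-/

set_option autoImplicit false

namespace Pool.Agent.Work.MP_0f91f8_co.Rg

open Finset

namespace I_EV

theorem av_one : av 1 (fun _ => (1 : ℝ)) = 1 := by
  unfold av Box
  simp

theorem fam_comp (hA : S_AFF) (P : Finset ℕ) (ψ : ℕ → Z2 → ℝ) (h : ℕ → ℝ) (hF : Fam P ψ h)
    (φ : Aff) (hc : ∀ p ∈ P, IsCoprime φ.det (p : ℤ)) :
    Fam P (fun p z => ψ p (φ.ap z)) h where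
  prime := hF.prime
  per p hp := (hA p (ψ p) φ (hF.prime p hp).pos (hF.per p hp) (hc p hp)).1
  mean p hp := by
    rw [(hA p (ψ p) φ (hF.prime p hp).pos (hF.per p hp) (hc p hp)).2]
    exact hF.mean p hp
  sq p hp := by
    have hper : Per p (fun z => ψ p z ^ 2) := by
      intro z w
      show ψ p _ ^ 2 = ψ p z ^ 2
      rw [hF.per p hp z w]
    have := (hA p (fun z => ψ p z ^ 2) φ (hF.prime p hp).pos hper (hc p hp)).2
    rw [this]
    exact hF.sq p hp
  bd p hp z := hF.bd p hp _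

end I_EV

theorem EV_pf (hA : S_AFF) (hQ : S_QF) : S_EV := by
  intro P ψ h hF I R hI φ hc Z A B X Y hZ
  have hF' := I_EV.fam_comp hA P ψ h hF φ hc
  have hper : Per 1 (fun _ => (1 : ℝ)) := fun z w => rfl
  have key := hQ P (fun p z => ψ p (φ.ap z)) h hF' I R hI 1 (fun _ => (1 : ℝ)) one_pos hper
    (fun z => ⟨zero_le_one, le_refl _⟩) (fun p _ => Nat.coprime_one_left p) A B X Y
  rw [I_EV.av_one] at key
  have key2 := (abs_le.mp key).2
  have hFF : ∀ z, FF (fun p z => ψ p (φ.ap z)) I z = FF ψ I (φ.ap z) := fun z => rfl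
  have hsum : ∑ z ∈ Z, FF ψ I z ^ 2 ≤
      ∑ z ∈ Box A B X Y, (1 : ℝ) * FF (fun p z => ψ p (φ.ap z)) I z ^ 2 := by
    choose! g hg using hZ
    have hinj : Set.InjOn g (Z : Set Z2) := by
      intro a ha b hb hab
      have h1 := (hg a (by exact_mod_cast ha)).2
      have h2 := (hg b (by exact_mod_cast hb)).2
      rw [← h1, ← h2, hab]
    calc ∑ z ∈ Z, FF ψ I z ^ 2 = ∑ z ∈ Z, FF ψ I (φ.ap (g z)) ^ 2 := by
          refine Finset.sum_congr rfl fun z hz => ?_
          rw [(hg z hz).2]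
      _ = ∑ w ∈ Z.image g, FF ψ I (φ.ap w) ^ 2 := by
          rw [Finset.sum_image hinj]
      _ ≤ ∑ w ∈ Box A B X Y, FF ψ I (φ.ap w) ^ 2 := by
          refine Finset.sum_le_sum_of_subset_of_nonneg ?_ fun w _ _ => sq_nonneg _
          intro w hw
          obtain ⟨z, hz, rfl⟩ := Finset.mem_image.mp hw
          exact (hg z hz).1
      _ = _ := by
          refine Finset.sum_congr rfl fun z _ => ?_
          rw [hFF, one_mul]
  have hcast : (2 * (((1 : ℕ) : ℝ) * (R : ℝ) ^ 2) * ((X : ℝ) + Y)) =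
      2 * (R : ℝ) ^ 2 * (X + Y) := by
    push_cast
    ring
  rw [hcast] at key2
  linarith

end Pool.Agent.Work.MP_0f91f8_co.Rg
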