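import Pool.Agent.Work.MP_0f91f8_co.Rg.Stmts

set_option autoImplicit false

namespace Pool.Agent.Work.MP_0f91f8_co.Rg

open Finset

namespace I_EXT

/-- the sum over the extended index set -/
lemma sum_ext (I : Finset (Finset ℕ)) (P : Finset ℕ) (T : ℕ) (hI : ∀ S ∈ I, ∀ p ∈ S, p ≤ T)
    (hP : ∀ p ∈ P, T < p) (f : Finset ℕ → ℝ) :
    ∑ S ∈ Ext I P, f S = ∑ S ∈ I, f S + ∑ S ∈ I, ∑ p ∈ P, f (insert p S) := by
  have hdisj : Disjoint I ((I ×ˢ P).image fun x => insert x.2 x.1) := by
    rw [Finset.disjoint_left]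
    intro S hS hS'
    rw [mem_image] at hS'
    obtain ⟨x, hx, rfl⟩ := hS'
    rw [mem_product] at hx
    have h1 := hI _ hS x.2 (mem_insert_self _ _)
    have h2 := hP _ hx.2
    omega
  have hinj : Set.InjOn (fun x : Finset ℕ × ℕ => insert x.2 x.1)
      ((I ×ˢ P : Finset (Finset ℕ × ℕ)) : Set (Finset ℕ × ℕ)) := by
    rintro ⟨S, p⟩ hx ⟨S', p'⟩ hy hxy
    rw [mem_coe, mem_product] at hx hy
    simp only at hxy hx hy
    have hp1 := hP _ hx.2
    have hp2 := hP _ hy.2
    have hpp : p = p' := by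
      have h1 : p ∈ insert p' S' := by
        rw [← hxy]
        exact mem_insert_self _ _
      rw [mem_insert] at h1
      rcases h1 with h1 | h1
      · exact h1
      · have := hI _ hy.1 _ h1
        omega
    subst hpp
    have hSS : S = S' := by
      have hn : p ∉ S := fun h => by
        have := hI _ hx.1 _ h
        omega
      have hn' : p ∉ S' := fun h => by
        have := hI _ hy.1 _ h
        omega
      rw [← erase_insert hn, ← erase_insert hn', hxy]
    rw [hSS]
  unfold Ext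
  rw [sum_union hdisj, sum_image hinj, sum_product]

/-- not a member -/
lemma not_mem_of {I : Finset (Finset ℕ)} {P : Finset ℕ} {T : ℕ} (hI : ∀ S ∈ I, ∀ p ∈ S, p ≤ T)
    (hP : ∀ p ∈ P, T < p) {S : Finset ℕ} (hS : S ∈ I) {p : ℕ} (hp : p ∈ P) : p ∉ S := by
  intro h
  have h1 := hI _ hS _ h
  have h2 := hP _ hp
  omega

end I_EXT

open I_EXT in
/-- the extended index set -/
theorem EXT_pf : S_EXT := by
  intro I P T R R' hR' hI hP
  have hI1 : ∀ S ∈ I, ∀ p ∈ S, p ≤ T := fun S hS => (hI S hS).1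
  have hP1 : ∀ p ∈ P, T < p := fun p hp => (hP p hp).1
  refine ⟨?_, ?_, ?_⟩
  · intro S hS
    unfold Ext at hS
    rw [mem_union, mem_image] at hS
    rcases hS with hS | ⟨x, hx, rfl⟩
    · calc ∏ p ∈ S, p ≤ R := (hI S hS).2
        _ = R * 1 := (mul_one R).symm
        _ ≤ R * R' := Nat.mul_le_mul_left _ hR'
    · rw [mem_product] at hx
      rw [prod_insert (not_mem_of hI1 hP1 hx.1 hx.2), mul_comm R R']
      exact Nat.mul_le_mul (hP _ hx.2).2 (hI _ hx.1).2
  · intro ψ ψ' z
    unfold FF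
    rw [sum_ext I P T hI1 hP1]
    have h1 : ∀ S ∈ I, Pr (mix T ψ ψ') S z = Pr ψ S z := by
      intro S hS
      unfold Pr
      refine prod_congr rfl fun p hp => ?_
      unfold mix
      rw [if_pos (hI1 S hS p hp)]
    rw [sum_congr rfl h1, mul_add, mul_one, add_right_inj, sum_mul]
    refine sum_congr rfl fun S hS => ?_
    rw [mul_sum]
    refine sum_congr rfl fun p hp => ?_
    have h2 : Pr (mix T ψ ψ') (insert p S) z = mix T ψ ψ' p z * Pr (mix T ψ ψ') S z := by
      unfold Pr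
      rw [prod_insert (not_mem_of hI1 hP1 hS hp)]
    rw [h2, h1 S hS]
    unfold mix
    rw [if_neg (not_le.2 (hP1 p hp)), mul_comm]
  · intro h h'
    unfold GG
    rw [sum_ext I P T hI1 hP1]
    have h1 : ∀ S ∈ I, ∏ p ∈ S, mix T h h' p = ∏ p ∈ S, h p := by
      intro S hS
      refine prod_congr rfl fun p hp => ?_
      unfold mix
      rw [if_pos (hI1 S hS p hp)]
    rw [sum_congr rfl h1, mul_add, mul_one, add_right_inj, sum_mul]
    refine sum_congr rfl fun S hS => ?_
    rw [mul_sum]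
    refine sum_congr rfl fun p hp => ?_
    rw [prod_insert (not_mem_of hI1 hP1 hS hp), h1 S hS]
    unfold mix
    rw [if_neg (not_le.2 (hP1 p hp)), mul_comm]

end Pool.Agent.Work.MP_0f91f8_co.Rg
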