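import Pool.Agent.Work.MP_0f91f8_co.Rg.Stmts

/-!
Item FAM of the block Rg: the families of the functions `psi`.
-/

set_option autoImplicit false

namespace Pool.Agent.Work.MP_0f91f8_co.Rg

open Finset

namespace I_FAM

variable {E κ : ℕ}

theorem p0_facts (h3 : S_DENP) (hG : Good E κ) {T p : ℕ} (hp : p ∈ P0 E T) :
    p.Prime ∧ p ≤ T ∧ 17 ≤ p ∧ 0 < gg (LP E κ) p ∧ gg (LP E κ) p ≤ 6 / p ∧
      gg (LP E κ) p ≤ 1 / 2 := by
  unfold P0 at hp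
  rw [mem_filter, mem_Icc] at hp
  obtain ⟨⟨_, hT⟩, hpr, hE⟩ := hp
  obtain ⟨h17, h0, h6⟩ := h3 E κ hG p hpr hE
  refine ⟨hpr, hT, h17, h0, h6, h6.trans ?_⟩
  have h17' : (17 : ℝ) ≤ p := by exact_mod_cast h17
  rw [div_le_iff₀ (by linarith)]
  linarith

theorem p1_facts (h1 : S_DEN1) (h2 : S_DEN5) (h3 : S_DENP) (hG : Good E κ) {T k₂ k₃ p : ℕ}
    (hET : E ≤ T) (hk : 1 ≤ k₂) (hp : p ∈ P1 T k₂ k₃) (i : Fin 5) :
    p.Prime ∧ T < p ∧ 1 / (p : ℝ) ≤ gg (LL E κ i) p ∧ 0 < gg (LL E κ i) p ∧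
      gg (LL E κ i) p ≤ 1 / 2 := by
  unfold P1 at hp
  rw [mem_filter, mem_Ioc] at hp
  obtain ⟨⟨hT, _⟩, hpr, h4⟩ := hp
  have hT0 : T ≤ T ^ k₂ := Nat.le_self_pow (by omega) T
  have hTp : T < p := by omega
  have hE : ¬ p ∣ E := fun h => by
    have := Nat.le_of_dvd hG.epos h
    omega
  have h17 : (17 : ℝ) ≤ p := by exact_mod_cast (h3 E κ hG p hpr hE).1
  have hp0 : (0 : ℝ) < p := by linarith
  by_cases hi : i = 4
  · subst hi
    obtain ⟨a, b, d⟩ := h2 E κ hG p hpr hE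
    refine ⟨hpr, hTp, d h4, a, b.trans ?_⟩
    rw [div_le_iff₀ hp0]
    linarith
  · have e := h1 E κ hG p hpr hE i hi
    rw [e]
    refine ⟨hpr, hTp, le_refl _, by positivity, ?_⟩
    rw [div_le_iff₀ hp0]
    linarith

end I_FAM

theorem FAM_pf (h1 : S_PSI) (h2 : S_CON) (h3 : S_DEN1) (h4 : S_DEN5) (h5 : S_DENP) : S_FAM := by
  intro E κ hG T
  have hP : ∀ p ∈ P0 E T, _ := fun p hp =>
    h1 (LP E κ) (h2 E κ).2 p (I_FAM.p0_facts h5 hG hp).1 (I_FAM.p0_facts h5 hG hp).2.2.2.1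
      (I_FAM.p0_facts h5 hG hp).2.2.2.2.2
  refine ⟨⟨fun p hp => (I_FAM.p0_facts h5 hG hp).1, fun p hp => (hP p hp).2.1,
    fun p hp => (hP p hp).2.2.1, fun p hp => (hP p hp).2.2.2.1,
    fun p hp => (hP p hp).2.2.2.2.1⟩, fun p hp => ?_, fun i k₂ k₃ hET hk => ?_⟩
  · have hg := I_FAM.p0_facts h5 hG hp
    have hh := hP p hp
    refine ⟨hg.2.2.2.1.le.trans hh.2.2.2.2.2.2.2.1, hh.2.2.2.2.2.2.2.2.trans ?_⟩
    have := hg.2.2.2.2.1
    calc 2 * gg (LP E κ) p ≤ 2 * (6 / p) := by linarith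
      _ = 12 / p := by ring
  · have hF : ∀ p ∈ P1 T k₂ k₃, _ := fun p hp => I_FAM.p1_facts h3 h4 h5 hG hET hk hp i
    have hQ : ∀ p ∈ P1 T k₂ k₃, _ := fun p hp =>
      h1 (LL E κ i) ((h2 E κ).1 i) p (hF p hp).1 (hF p hp).2.2.2.1 (hF p hp).2.2.2.2
    have m0 : ∀ {A : Type} (f g : ℕ → A) (p : ℕ), p ∈ P0 E T → mix T f g p = f p := by
      intro A f g p hp
      unfold mix
      rw [if_pos (I_FAM.p0_facts h5 hG hp).2.1]
    have m1 : ∀ {A : Type} (f g : ℕ → A) (p : ℕ), p ∈ P1 T k₂ k₃ → mix T f g p = g p := by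
      intro A f g p hp
      unfold mix
      rw [if_neg (by have := (hF p hp).2.1; omega)]
    refine ⟨⟨fun p hp => ?_, fun p hp => ?_, fun p hp => ?_, fun p hp => ?_, fun p hp => ?_⟩,
      fun p hp => ⟨(hF p hp).2.1, (hF p hp).2.2.1.trans (hQ p hp).2.2.2.2.2.2.2.1,
        (hQ p hp).2.2.2.2.2.2.1⟩⟩
    · rcases mem_union.1 hp with hp | hp
      · exact (I_FAM.p0_facts h5 hG hp).1
      · exact (hF p hp).1
    · rcases mem_union.1 hp with hp | hp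
      · rw [m0 _ _ p hp]; exact (hP p hp).2.1
      · rw [m1 _ _ p hp]; exact (hQ p hp).2.1
    · rcases mem_union.1 hp with hp | hp
      · rw [m0 _ _ p hp]; exact (hP p hp).2.2.1
      · rw [m1 _ _ p hp]; exact (hQ p hp).2.2.1
    · rcases mem_union.1 hp with hp | hp
      · rw [m0 _ _ p hp, m0 _ _ p hp]; exact (hP p hp).2.2.2.1
      · rw [m1 _ _ p hp, m1 _ _ p hp]; exact (hQ p hp).2.2.2.1
    · rcases mem_union.1 hp with hp | hp
      · rw [m0 _ _ p hp]; exact (hP p hp).2.2.2.2.1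
      · rw [m1 _ _ p hp]; exact (hQ p hp).2.2.2.2.1

end Pool.Agent.Work.MP_0f91f8_co.Rg
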