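import Pool.Agent.Work.MP_0f91f8_co.Rg.Stmts

/-!
# Item FIN: the final theorem from the sieve proposition
-/

set_option autoImplicit false

namespace Pool.Agent.Work.MP_0f91f8_co.Rg

open Finset

namespace I_FIN

theorem close1 {U t θ δ b x : ℝ} (ht0 : 0 ≤ t) (ht1 : t ≤ 1)
    (hδ : 0 ≤ δ) (h : 3 * t + θ ^ 2 ≤ δ) (hb1 : U ^ 2 ≤ b) (hb2 : b ≤ U ^ 2 * (1 + t) ^ 2)
    (hx1 : U ^ 2 * (1 - θ ^ 2) ≤ x) (hx2 : x ≤ U ^ 2 * ((1 + t) ^ 2 + θ ^ 2)) :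
    |b - x| ≤ δ * b := by
  have hU2 : 0 ≤ U ^ 2 := sq_nonneg U
  have h1 : (1 + t) ^ 2 ≤ 1 + 3 * t := by nlinarith
  have h2 : δ * U ^ 2 ≤ δ * b := mul_le_mul_of_nonneg_left hb1 hδ
  have h3 : U ^ 2 * (3 * t + θ ^ 2) ≤ U ^ 2 * δ := mul_le_mul_of_nonneg_left h hU2
  have h4 : U ^ 2 * (1 + t) ^ 2 ≤ U ^ 2 * (1 + 3 * t) := mul_le_mul_of_nonneg_left h1 hU2
  rw [abs_le]
  constructor
  · nlinarith
  · nlinarith

theorem mem_Box {A B : ℤ} {X Y : ℕ} {z : Z2} :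
    z ∈ Box A B X Y ↔ (A ≤ z.1 ∧ z.1 < A + X) ∧ B ≤ z.2 ∧ z.2 < B + Y := by
  unfold Box
  rw [mem_product, mem_Ico, mem_Ico]

/-- The sieve proposition in terms of natural numbers. -/
theorem spn (hTRI : S_TRI) {k₀ : ℕ} {δ₀ : ℝ}
    (hSP : ∀ E κ : ℕ, Good E κ → ∀ α β : ℕ,
      ∃ T₀ : ℕ, ∀ T : ℕ, T₀ ≤ T → ∀ Q : Set ℕ, ∑ q ∈ QQ Q T (T ^ (2 * k₀ + 1)), (1 : ℝ) / q ≤ δ₀ →
        ∃ z ∈ Box (α * (T ^ k₀ : ℕ)) (β * (T ^ k₀ : ℕ)) (T ^ k₀) (T ^ k₀),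
          ∀ p : ℕ, p.Prime → (p : ℤ) ∣ LP E κ z → T < p ∧ p ∉ Q)
    {D r : ℕ} (hD : 0 < D) (h4 : 4 * 30030 ∣ D) (e : ℕ) (he : 1 ≤ e ∧ e ≤ r) (α β : ℕ) :
    ∃ T₀ : ℕ, ∀ T : ℕ, T₀ ≤ T → ∀ Q : Set ℕ, ∑ q ∈ QQ Q T (T ^ (2 * k₀ + 1)), (1 : ℝ) / q ≤ δ₀ →
      ∃ u v : ℕ, D ^ (r + 1) * α * T ^ k₀ ≤ u ∧ u ≤ D ^ (r + 1) * (α + 1) * T ^ k₀ ∧
        (D ^ (r + 1) / (D ^ e / 2)) * β * T ^ k₀ ≤ v ∧
        v ≤ (D ^ (r + 1) / (D ^ e / 2)) * (β + 1) * T ^ k₀ ∧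
        u ≡ 1 [MOD D] ∧ v ≡ 1 [MOD D] ∧ ∀ p : ℕ, p.Prime → (p ∣ u ∨ p ∣ v ∨
          (p : ℤ) ∣ (u : ℤ) ^ 2 - ((D ^ e / 2 : ℕ) * v : ℤ) ^ 2 ∨
          p ∣ u ^ 2 + ((D ^ e / 2) * v) ^ 2) → T < p ∧ p ∉ Q := by
  obtain ⟨hgood, -, hDE, hDEκ, -⟩ := hTRI D r e hD h4 he.1 he.2
  set E := D ^ (r + 1) with hE
  set κ := D ^ e / 2 with hκ
  obtain ⟨T₀, hT₀⟩ := hSP E κ hgood α β
  refine ⟨T₀ + 1, fun T hT Q hQ => ?_⟩
  obtain ⟨z, hz, hp⟩ := hT₀ T (by omega) Q hQ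
  rw [mem_Box] at hz
  obtain ⟨⟨ha1, ha2⟩, hb1, hb2⟩ := hz
  have hTpos : 0 < T ^ k₀ := Nat.pow_pos (by omega)
  set H := T ^ k₀ with hH
  have hEpos : 0 < E := hgood.epos
  set F := E / κ with hF
  have hFpos : 0 < F := Nat.div_pos (Nat.le_of_dvd hEpos hgood.dvd) hgood.pos
  have ha0 : 0 ≤ z.1 := le_trans (by positivity) ha1
  have hb0 : 0 ≤ z.2 := le_trans (by positivity) hb1
  obtain ⟨a, ha⟩ := Int.eq_ofNat_of_zero_le ha0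
  obtain ⟨b, hb⟩ := Int.eq_ofNat_of_zero_le hb0
  rw [ha] at ha1 ha2
  rw [hb] at hb1 hb2
  have ha1' : α * H ≤ a := by exact_mod_cast ha1
  have ha2' : a < α * H + H := by exact_mod_cast ha2
  have hb1' : β * H ≤ b := by exact_mod_cast hb1
  have hb2' : b < β * H + H := by exact_mod_cast hb2
  have hu : uu E z = ((1 + E * a : ℕ) : ℤ) := by
    unfold uu; rw [ha]; push_cast; ring
  have hv : vv E κ z = ((1 + F * b : ℕ) : ℤ) := by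
    change 1 + (F : ℤ) * z.2 = _
    rw [hb, Nat.cast_add, Nat.cast_mul, Nat.cast_one]
  have hdvd : ∀ i : Fin 5, LL E κ i z ∣ LP E κ z := fun i => by
    unfold LP
    exact dvd_prod_of_mem (fun i => LL E κ i z) (mem_univ i)
  refine ⟨1 + E * a, 1 + F * b, ?_, ?_, ?_, ?_, ?_, ?_, ?_⟩
  · calc E * α * H = E * (α * H) := by ring
      _ ≤ E * a := Nat.mul_le_mul_left _ ha1'
      _ ≤ 1 + E * a := by omega
  · calc 1 + E * a ≤ E * (a + 1) := by rw [mul_add, mul_one]; omega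
      _ ≤ E * (α * H + H) := Nat.mul_le_mul_left _ (by omega)
      _ = E * (α + 1) * H := by ring
  · calc F * β * H = F * (β * H) := by ring
      _ ≤ F * b := Nat.mul_le_mul_left _ hb1'
      _ ≤ 1 + F * b := by omega
  · calc 1 + F * b ≤ F * (b + 1) := by rw [mul_add, mul_one]; omega
      _ ≤ F * (β * H + H) := Nat.mul_le_mul_left _ (by omega)
      _ = F * (β + 1) * H := by ring
  · have : E * a ≡ 0 [MOD D] := (Nat.modEq_zero_iff_dvd).2 (hDE.mul_right a)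
    simpa using this.add_left 1
  · have : F * b ≡ 0 [MOD D] := (Nat.modEq_zero_iff_dvd).2 (hDEκ.mul_right b)
    simpa using this.add_left 1
  · intro p hpp hor
    apply hp p hpp
    have h0 : LL E κ 0 z = uu E z := rfl
    have h1 : LL E κ 1 z = vv E κ z := rfl
    have h2 : LL E κ 2 z = uu E z - κ * vv E κ z := rfl
    have h3 : LL E κ 3 z = uu E z + κ * vv E κ z := rfl
    have h4 : LL E κ 4 z = uu E z ^ 2 + (κ * vv E κ z) ^ 2 := rfl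
    have hpi : Prime (p : ℤ) := Nat.prime_iff_prime_int.1 hpp
    rcases hor with h | h | h | h
    · refine dvd_trans ?_ (hdvd 0)
      rw [h0, hu]
      exact_mod_cast h
    · refine dvd_trans ?_ (hdvd 1)
      rw [h1, hv]
      exact_mod_cast h
    · have h5 : ((1 + E * a : ℕ) : ℤ) ^ 2 - ((κ : ℤ) * ((1 + F * b : ℕ) : ℤ)) ^ 2 =
          LL E κ 2 z * LL E κ 3 z := by
        rw [h2, h3, hu, hv]; ring
      rw [h5] at h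
      rcases hpi.dvd_or_dvd h with h6 | h6
      · exact dvd_trans h6 (hdvd 2)
      · exact dvd_trans h6 (hdvd 3)
    · refine dvd_trans ?_ (hdvd 4)
      rw [h4, hu, hv]
      exact_mod_cast h

/-- One comparison of colours. -/
theorem step {k₀ k : ℕ} (hk0 : 0 < k₀) (hk : k = 2 * k₀ + 1) {Q : Set ℕ} {M : ℕ} {δ : ℝ} {r : ℕ}
    {c : ℕ → Fin r}
    (hc : ∀ s m n : ℕ, 0 < s → 0 < m → 0 < n → m ≡ n [MOD M] → |(m : ℝ) - n| ≤ δ * m →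
      (∀ p : ℕ, p.Prime → p ∣ s → (p : ℝ) ≤ ((s * min m n : ℕ) : ℝ) ^ ((1 : ℝ) / (2 * k))) →
      (∀ p : ℕ, p.Prime → p ∣ m * n →
        ((s * max m n : ℕ) : ℝ) ^ ((1 : ℝ) / (2 * k)) < p ∧ p ∉ Q) →
      c (s * m) = c (s * n))
    {D T i m n : ℕ} (hD : 0 < D) (hMD : M ∣ D) (hDT : D ^ 3 ≤ T) (hi : i ≤ r)
    (hm : T ^ (2 * k₀) ≤ m) (hn : T ^ (2 * k₀) ≤ n) (hm' : D ^ r * m ≤ T ^ k)
    (hn' : D ^ r * n ≤ T ^ k) (hm1 : m ≡ 1 [MOD D]) (hn1 : n ≡ 1 [MOD D])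
    (hmn : |(m : ℝ) - n| ≤ δ * m) (hp : ∀ p : ℕ, p.Prime → p ∣ m * n → T < p ∧ p ∉ Q) :
    c (D ^ i * m) = c (D ^ i * n) := by
  have hT : 0 < T := lt_of_lt_of_le (Nat.pow_pos hD) hDT
  have hTk : 0 < T ^ (2 * k₀) := Nat.pow_pos hT
  have hkpos : 0 < k := by omega
  have h2k : (2 * k : ℕ) ≠ 0 := by omega
  have hexp : ((1 : ℝ) / (2 * k)) = (((2 * k : ℕ) : ℝ))⁻¹ := by push_cast; rw [one_div]
  have hexp0 : (0 : ℝ) ≤ (1 : ℝ) / (2 * k) := by positivity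
  apply hc _ _ _ (Nat.pow_pos hD) (lt_of_lt_of_le hTk hm) (lt_of_lt_of_le hTk hn)
    ((hm1.trans hn1.symm).of_dvd hMD) hmn
  · intro p hpp hps
    have h1 : p ∣ D := hpp.dvd_of_dvd_pow hps
    have h2 : p ≤ D := Nat.le_of_dvd hD h1
    have h3 : D ^ (2 * k) ≤ D ^ i * min m n := by
      calc D ^ (2 * k) ≤ D ^ (3 * (2 * k₀)) := Nat.pow_le_pow_right hD (by omega)
        _ = (D ^ 3) ^ (2 * k₀) := by rw [pow_mul]
        _ ≤ T ^ (2 * k₀) := Nat.pow_le_pow_left hDT _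
        _ ≤ min m n := le_min hm hn
        _ ≤ D ^ i * min m n := Nat.le_mul_of_pos_left _ (Nat.pow_pos hD)
    calc (p : ℝ) ≤ D := by exact_mod_cast h2
      _ = ((D : ℝ) ^ (2 * k)) ^ ((1 : ℝ) / (2 * k)) := by
          rw [hexp, Real.pow_rpow_inv_natCast (by positivity) h2k]
      _ ≤ ((D ^ i * min m n : ℕ) : ℝ) ^ ((1 : ℝ) / (2 * k)) := by
          apply Real.rpow_le_rpow (by positivity) _ hexp0
          exact_mod_cast h3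
  · intro p hpp hpd
    obtain ⟨h1, h2⟩ := hp p hpp hpd
    refine ⟨?_, h2⟩
    have h3 : D ^ i * max m n ≤ T ^ (2 * k) := by
      calc D ^ i * max m n ≤ D ^ r * max m n :=
            Nat.mul_le_mul_right _ (Nat.pow_le_pow_right hD hi)
        _ ≤ T ^ k := by
            rcases max_choice m n with h | h <;> rw [h] <;> assumption
        _ ≤ T ^ (2 * k) := Nat.pow_le_pow_right hT (by omega)
    calc ((D ^ i * max m n : ℕ) : ℝ) ^ ((1 : ℝ) / (2 * k))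
        ≤ ((T : ℝ) ^ (2 * k)) ^ ((1 : ℝ) / (2 * k)) := by
          apply Real.rpow_le_rpow (by positivity) _ hexp0
          exact_mod_cast h3
      _ = T := by rw [hexp, Real.pow_rpow_inv_natCast (by positivity) h2k]
      _ < p := by exact_mod_cast h1

/-- The relative size of a number in `[U, U + U / α₀]`. -/
theorem up {x U d α₀ : ℝ} (hα : 0 < α₀) (h : x ≤ U + d) (hd : α₀ * d ≤ U) :
    x ≤ U * (1 + 1 / α₀) := by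
  have h1 : d ≤ U / α₀ := by rw [le_div_iff₀ hα]; linarith
  calc x ≤ U + d := h
    _ ≤ U + U / α₀ := by linarith
    _ = U * (1 + 1 / α₀) := by ring

/-- The choice of the parameters. -/
theorem param {δ : ℝ} (hδ : 0 < δ) {α₀ m₀ : ℕ} (hα0 : α₀ = ⌈6 / δ⌉₊ + 1)
    (hm0 : m₀ = ⌈8 / δ⌉₊ + 2) : (1 : ℝ) / α₀ ≤ 1 ∧
      3 * ((1 : ℝ) / α₀) + (2 / (m₀ : ℝ) ^ 2) ^ 2 ≤ δ ∧ 2 / (m₀ : ℝ) ^ 2 ≤ 1 / 2 := by
  have hα0R : (1 : ℝ) ≤ α₀ := by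
    have : 1 ≤ α₀ := by omega
    exact_mod_cast this
  have htδ : 6 * ((1 : ℝ) / α₀) ≤ δ := by
    have h1 : 6 / δ ≤ α₀ := by
      have := Nat.le_ceil (6 / δ)
      rw [hα0]; push_cast; linarith
    rw [div_le_iff₀ hδ] at h1
    rw [mul_one_div, div_le_iff₀ (by linarith)]
    linarith
  have hm0R : 8 / δ ≤ (m₀ : ℝ) := by
    have := Nat.le_ceil (8 / δ)
    rw [hm0]; push_cast; linarith
  have hm02 : (2 : ℝ) ≤ m₀ := by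
    have : 2 ≤ m₀ := by omega
    exact_mod_cast this
  have hθ1 : 2 / (m₀ : ℝ) ^ 2 ≤ 1 / 2 := by
    rw [div_le_iff₀ (by positivity)]
    nlinarith
  have hθ0 : 0 ≤ 2 / (m₀ : ℝ) ^ 2 := by positivity
  have hθδ : 2 * (2 / (m₀ : ℝ) ^ 2) ^ 2 ≤ δ := by
    have h1 : 2 / (m₀ : ℝ) ^ 2 ≤ 4 / m₀ := by
      rw [div_le_div_iff₀ (by positivity) (by positivity)]
      nlinarith
    have h2 : 4 / (m₀ : ℝ) ≤ δ / 2 := by
      rw [div_le_iff₀ (by linarith)]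
      rw [div_le_iff₀ hδ] at hm0R
      linarith
    nlinarith
  refine ⟨?_, by linarith, hθ1⟩
  rw [div_le_one (by linarith)]
  exact hα0R

theorem reals {t θ δ U V W u v w a b H : ℝ} (ht0 : 0 ≤ t) (ht1 : t ≤ 1) (hδ : 0 ≤ δ)
    (h3θ : 3 * t + θ ^ 2 ≤ δ) (hθ0 : 0 ≤ θ) (hθ1 : θ ≤ 1 / 2) (hU : 0 < U) (hV : 0 ≤ V)
    (hW : 0 ≤ W) (hUV : U * V = W ^ 2) (huU : U ≤ u) (huU' : u ≤ U * (1 + t)) (hvV : V ≤ v)
    (hvV' : v ≤ V * (1 + t)) (haU : U ≤ a) (haU' : a ≤ U * (1 + t)) (hbW : W ≤ b)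
    (hbW' : b ≤ W * (1 + t)) (hw0 : 0 ≤ w) (hw : w ≤ θ * U) (hH0 : 0 ≤ H) (hH : 2 * H ≤ U) :
    |a ^ 2 - (u ^ 2 - w ^ 2)| ≤ δ * a ^ 2 ∧ |a ^ 2 - (u ^ 2 + w ^ 2)| ≤ δ * a ^ 2 ∧
      |b ^ 2 - u * v| ≤ δ * b ^ 2 ∧ w < u ∧ H ^ 2 ≤ u ^ 2 - w ^ 2 := by
  have hw2 : w ^ 2 ≤ U ^ 2 * θ ^ 2 := by
    calc w ^ 2 ≤ (θ * U) ^ 2 := pow_le_pow_left₀ hw0 hw 2
      _ = _ := by ring
  have hu2' : u ^ 2 ≤ U ^ 2 * (1 + t) ^ 2 := by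
    calc u ^ 2 ≤ (U * (1 + t)) ^ 2 := pow_le_pow_left₀ (by linarith) huU' 2
      _ = _ := by ring
  have hu2'' : U ^ 2 ≤ u ^ 2 := pow_le_pow_left₀ hU.le huU 2
  have hb1 : U ^ 2 ≤ a ^ 2 := pow_le_pow_left₀ hU.le haU 2
  have hb2 : a ^ 2 ≤ U ^ 2 * (1 + t) ^ 2 := by
    calc a ^ 2 ≤ (U * (1 + t)) ^ 2 := pow_le_pow_left₀ (by linarith) haU' 2
      _ = _ := by ring
  have hc1 : W ^ 2 ≤ b ^ 2 := pow_le_pow_left₀ hW hbW 2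
  have hc2 : b ^ 2 ≤ W ^ 2 * (1 + t) ^ 2 := by
    calc b ^ 2 ≤ (W * (1 + t)) ^ 2 := pow_le_pow_left₀ (by linarith) hbW' 2
      _ = _ := by ring
  have hw20 : 0 ≤ w ^ 2 := sq_nonneg w
  have hUθ : 0 ≤ U ^ 2 * θ ^ 2 := by positivity
  have hx1 : U ^ 2 * (1 - θ ^ 2) ≤ u ^ 2 - w ^ 2 := by
    have : U ^ 2 * (1 - θ ^ 2) = U ^ 2 - U ^ 2 * θ ^ 2 := by ring
    rw [this]; linarith
  have hx2 : u ^ 2 - w ^ 2 ≤ U ^ 2 * ((1 + t) ^ 2 + θ ^ 2) := by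
    rw [mul_add]; linarith
  have hz1 : U ^ 2 * (1 - θ ^ 2) ≤ u ^ 2 + w ^ 2 := by linarith
  have hz2 : u ^ 2 + w ^ 2 ≤ U ^ 2 * ((1 + t) ^ 2 + θ ^ 2) := by
    rw [mul_add]; linarith
  have hy1 : W ^ 2 ≤ u * v := by
    rw [← hUV]
    exact mul_le_mul huU hvV hV (by linarith)
  have hy2 : u * v ≤ W ^ 2 * (1 + t) ^ 2 := by
    rw [← hUV]
    calc u * v ≤ (U * (1 + t)) * (V * (1 + t)) :=
          mul_le_mul huU' hvV' (by linarith) (by nlinarith)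
      _ = _ := by ring
  refine ⟨close1 ht0 ht1 hδ h3θ hb1 hb2 hx1 hx2, close1 ht0 ht1 hδ h3θ hb1 hb2 hz1 hz2,
    close1 (θ := 0) ht0 ht1 hδ (by nlinarith) hc1 hc2 (by simpa using hy1)
      (by simpa using hy2), ?_, ?_⟩
  · nlinarith
  · have h3 : (2 * H) ^ 2 ≤ U ^ 2 := pow_le_pow_left₀ (by linarith) hH 2
    have h4 : θ ^ 2 ≤ 1 / 4 := by nlinarith
    have h5 : U ^ 2 * (3 / 4) ≤ U ^ 2 * (1 - θ ^ 2) :=
      mul_le_mul_of_nonneg_left (by linarith) (sq_nonneg _)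
    have h6 : 0 ≤ H ^ 2 := sq_nonneg H
    have h7 : (2 * H) ^ 2 = 4 * H ^ 2 := by ring
    linarith

/-- Powers. -/
theorem expo {α₀ μ r i j : ℕ} (hij : i < j) (hjr : j ≤ r) :
    α₀ * μ ^ (2 * r - i) = α₀ * μ ^ (2 * r + i - 2 * j) * μ ^ (2 * (j - i)) ∧
    α₀ * μ ^ (2 * r - i) * (α₀ * μ ^ (2 * r + i - 2 * j)) = (α₀ * μ ^ (2 * r - j)) ^ 2 := by
  constructor
  · have h1 : 2 * r - i = (2 * r + i - 2 * j) + 2 * (j - i) := by omega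
    rw [h1, pow_add]; ring
  · calc α₀ * μ ^ (2 * r - i) * (α₀ * μ ^ (2 * r + i - 2 * j)) =
        α₀ ^ 2 * (μ ^ (2 * r - i) * μ ^ (2 * r + i - 2 * j)) := by ring
      _ = α₀ ^ 2 * (μ ^ (2 * r - j) * μ ^ (2 * r - j)) := by
          rw [← pow_add, ← pow_add]
          congr 2
          omega
      _ = _ := by ring

/-- The size of `w`. -/
theorem wsize {E F κ γ β H v m₀ D r e μ a : ℕ} (hFκ : κ * F = E) (hβγ : β = κ * γ)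
    (hβ1 : 1 ≤ β) (hv2 : v ≤ F * (β + 1) * H) (hD : 0 < D) (hμ : μ = D ^ r * m₀)
    (hμpos : 0 < μ) (he : 1 ≤ e ∧ e ≤ r) (hκ : κ ≤ D ^ e) (ha : a = γ * μ ^ (2 * e)) :
    m₀ ^ 2 * (κ * v) ≤ 2 * (E * a * H) := by
  have h1 : κ * v ≤ 2 * (E * κ * γ * H) := by
    calc κ * v ≤ κ * (F * (β + 1) * H) := Nat.mul_le_mul_left _ hv2
      _ = (κ * F) * (β + 1) * H := by ring
      _ = E * (β + 1) * H := by rw [hFκ]
      _ ≤ E * (β + β) * H := by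
          apply Nat.mul_le_mul_right
          apply Nat.mul_le_mul_left
          omega
      _ = 2 * (E * κ * γ * H) := by rw [hβγ]; ring
  have h2 : κ * m₀ ^ 2 ≤ μ ^ (2 * e) := by
    calc κ * m₀ ^ 2 ≤ D ^ r * m₀ ^ 2 := by
          apply Nat.mul_le_mul_right
          calc κ ≤ D ^ e := hκ
            _ ≤ D ^ r := Nat.pow_le_pow_right hD he.2
      _ ≤ (D ^ r) ^ 2 * m₀ ^ 2 := by
          apply Nat.mul_le_mul_right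
          calc D ^ r = D ^ r * 1 := (mul_one _).symm
            _ ≤ D ^ r * D ^ r := Nat.mul_le_mul_left _ (Nat.pow_pos hD)
            _ = (D ^ r) ^ 2 := by ring
      _ = μ ^ 2 := by rw [hμ]; ring
      _ ≤ μ ^ (2 * e) := Nat.pow_le_pow_right hμpos (by omega)
  calc m₀ ^ 2 * (κ * v) ≤ m₀ ^ 2 * (2 * (E * κ * γ * H)) := Nat.mul_le_mul_left _ h1
    _ = 2 * (E * (κ * m₀ ^ 2) * γ * H) := by ring
    _ ≤ 2 * (E * μ ^ (2 * e) * γ * H) := by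
        apply Nat.mul_le_mul_left
        apply Nat.mul_le_mul_right
        apply Nat.mul_le_mul_right
        exact Nat.mul_le_mul_left _ h2
    _ = 2 * (E * a * H) := by rw [ha]; ring

/-- Upper bound with a relative error. -/
theorem upn {E a H x α₀ : ℕ} (hα0 : 0 < α₀) (ha : α₀ ≤ a) (hx : x ≤ E * (a + 1) * H) :
    (x : ℝ) ≤ ((E * a * H : ℕ) : ℝ) * (1 + 1 / α₀) := by
  have hα0R : (0 : ℝ) < α₀ := by exact_mod_cast hα0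
  apply up hα0R (d := ((E * H : ℕ) : ℝ))
  · have : x ≤ E * a * H + E * H := by
      calc x ≤ E * (a + 1) * H := hx
        _ = _ := by ring
    exact_mod_cast this
  · have : α₀ * (E * H) ≤ E * a * H := by
      calc α₀ * (E * H) ≤ a * (E * H) := Nat.mul_le_mul_right _ ha
        _ = _ := by ring
    exact_mod_cast this

/-- The last part of the proof: the triple. -/
theorem triple {k₀ k : ℕ} (hk0 : 0 < k₀) (hk : k = 2 * k₀ + 1) {Q : Set ℕ} {M : ℕ} {δ : ℝ} {r : ℕ}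
    {c : ℕ → Fin r}
    (hc : ∀ s m n : ℕ, 0 < s → 0 < m → 0 < n → m ≡ n [MOD M] → |(m : ℝ) - n| ≤ δ * m →
      (∀ p : ℕ, p.Prime → p ∣ s → (p : ℝ) ≤ ((s * min m n : ℕ) : ℝ) ^ ((1 : ℝ) / (2 * k))) →
      (∀ p : ℕ, p.Prime → p ∣ m * n →
        ((s * max m n : ℕ) : ℝ) ^ ((1 : ℝ) / (2 * k)) < p ∧ p ∉ Q) →
      c (s * m) = c (s * n))
    {D T i j e κ ui uj u v x z : ℕ} (hD : 0 < D) (hMD : M ∣ D) (hDT : D ^ 3 ≤ T) (hj : j ≤ r)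
    (he : j = i + e) (h2κ : 2 * κ = D ^ e) (hDκ : D ∣ κ ^ 2)
    (hcol : c (D ^ i * ui ^ 2) = c (D ^ j * uj ^ 2))
    (hxw : x + (κ * v) ^ 2 = u ^ 2) (hzw : z = u ^ 2 + (κ * v) ^ 2)
    (hHi : T ^ (2 * k₀) ≤ ui ^ 2) (hHj : T ^ (2 * k₀) ≤ uj ^ 2) (hHx : T ^ (2 * k₀) ≤ x)
    (hHz : T ^ (2 * k₀) ≤ z) (hHy : T ^ (2 * k₀) ≤ u * v)
    (hBi : D ^ r * ui ^ 2 ≤ T ^ k) (hBj : D ^ r * uj ^ 2 ≤ T ^ k) (hBx : D ^ r * x ≤ T ^ k)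
    (hBz : D ^ r * z ≤ T ^ k) (hBy : D ^ r * (u * v) ≤ T ^ k)
    (huiD : ui ≡ 1 [MOD D]) (hujD : uj ≡ 1 [MOD D]) (huD : u ≡ 1 [MOD D]) (hvD : v ≡ 1 [MOD D])
    (hpi : ∀ p : ℕ, p.Prime → p ∣ ui → T < p ∧ p ∉ Q)
    (hpj : ∀ p : ℕ, p.Prime → p ∣ uj → T < p ∧ p ∉ Q)
    (hp : ∀ p : ℕ, p.Prime → (p ∣ u ∨ p ∣ v ∨
          (p : ℤ) ∣ (u : ℤ) ^ 2 - ((κ : ℕ) * v : ℤ) ^ 2 ∨
          p ∣ u ^ 2 + (κ * v) ^ 2) → T < p ∧ p ∉ Q)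
    (c1 : |((ui ^ 2 : ℕ) : ℝ) - (x : ℕ)| ≤ δ * ((ui ^ 2 : ℕ) : ℝ))
    (c2 : |((ui ^ 2 : ℕ) : ℝ) - (z : ℕ)| ≤ δ * ((ui ^ 2 : ℕ) : ℝ))
    (c3 : |((uj ^ 2 : ℕ) : ℝ) - (u * v : ℕ)| ≤ δ * ((uj ^ 2 : ℕ) : ℝ)) :
    ∃ x y z : ℕ, 0 < x ∧ 0 < y ∧ 0 < z ∧ x ^ 2 + y ^ 2 = z ^ 2 ∧ c x = c y ∧ c y = c z := by
  have hTpos : 0 < T := lt_of_lt_of_le (Nat.pow_pos hD) hDT
  have huD2 : u ^ 2 ≡ 1 [MOD D] := by simpa using huD.pow 2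
  have hwD : (κ * v) ^ 2 ≡ 0 [MOD D] := by
    rw [Nat.modEq_zero_iff_dvd, mul_pow]
    exact hDκ.mul_right _
  have hi3' : ui ^ 2 ≡ 1 [MOD D] := by simpa using huiD.pow 2
  have hj3' : uj ^ 2 ≡ 1 [MOD D] := by simpa using hujD.pow 2
  have hxD : x ≡ 1 [MOD D] := by
    have h1 : x + (κ * v) ^ 2 ≡ 1 + 0 [MOD D] := by rw [hxw]; exact huD2
    exact Nat.ModEq.add_right_cancel hwD h1
  have hzD : z ≡ 1 [MOD D] := by rw [hzw]; simpa using huD2.add hwD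
  have hyD : u * v ≡ 1 [MOD D] := by simpa using huD.mul hvD
  have hpx : ∀ p : ℕ, p.Prime → p ∣ x → T < p ∧ p ∉ Q := by
    intro p hpp hpx
    apply hp p hpp
    right; right; left
    have h1 : ((u : ℤ) ^ 2 - ((κ : ℕ) * v : ℤ) ^ 2) = (x : ℤ) := by
      have : (x : ℤ) + ((κ : ℤ) * v) ^ 2 = (u : ℤ) ^ 2 := by exact_mod_cast hxw
      rw [← this]; ring
    rw [h1]
    exact_mod_cast hpx
  have hpz : ∀ p : ℕ, p.Prime → p ∣ z → T < p ∧ p ∉ Q := fun p hpp hpz =>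
    hp p hpp (Or.inr (Or.inr (Or.inr (by rw [← hzw]; exact hpz))))
  have hpy : ∀ p : ℕ, p.Prime → p ∣ u * v → T < p ∧ p ∉ Q := by
    intro p hpp h
    rcases (hpp.dvd_mul).1 h with h | h
    · exact hp p hpp (Or.inl h)
    · exact hp p hpp (Or.inr (Or.inl h))
  have hpm : ∀ (m n : ℕ), (∀ p : ℕ, p.Prime → p ∣ m → T < p ∧ p ∉ Q) →
      (∀ p : ℕ, p.Prime → p ∣ n → T < p ∧ p ∉ Q) →
      ∀ p : ℕ, p.Prime → p ∣ m ^ 2 * n → T < p ∧ p ∉ Q := by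
    intro m n h1 h2 p hpp h
    rcases (hpp.dvd_mul).1 h with h | h
    · exact h1 p hpp (hpp.dvd_of_dvd_pow h)
    · exact h2 p hpp h
  have e1 : c (D ^ i * ui ^ 2) = c (D ^ i * x) :=
    step hk0 hk hc hD hMD hDT (by omega) hHi hHx hBi hBx hi3' hxD c1 (hpm ui x hpi hpx)
  have e2 : c (D ^ i * ui ^ 2) = c (D ^ i * z) :=
    step hk0 hk hc hD hMD hDT (by omega) hHi hHz hBi hBz hi3' hzD c2 (hpm ui z hpi hpz)
  have e3 : c (D ^ j * uj ^ 2) = c (D ^ j * (u * v)) :=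
    step hk0 hk hc hD hMD hDT hj hHj hHy hBj hBy hj3' hyD c3 (hpm uj (u * v) hpj hpy)
  have hY : D ^ i * (2 * u * (κ * v)) = D ^ j * (u * v) := by
    rw [he, pow_add, ← h2κ]; ring
  refine ⟨D ^ i * x, D ^ i * (2 * u * (κ * v)), D ^ i * z, ?_, ?_, ?_, ?_, ?_, ?_⟩
  · exact Nat.mul_pos (Nat.pow_pos hD) (lt_of_lt_of_le (Nat.pow_pos hTpos) hHx)
  · rw [hY]
    exact Nat.mul_pos (Nat.pow_pos hD) (lt_of_lt_of_le (Nat.pow_pos hTpos) hHy)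
  · exact Nat.mul_pos (Nat.pow_pos hD) (lt_of_lt_of_le (Nat.pow_pos hTpos) hHz)
  · have h1 : x ^ 2 + (2 * u * (κ * v)) ^ 2 = z ^ 2 := by
      have h2 : (x : ℤ) + ((κ : ℤ) * v) ^ 2 = (u : ℤ) ^ 2 := by exact_mod_cast hxw
      have h3 : (x : ℤ) = (u : ℤ) ^ 2 - ((κ : ℤ) * v) ^ 2 := by linarith
      have h4 : (x : ℤ) ^ 2 + (2 * u * (κ * v)) ^ 2 = (z : ℤ) ^ 2 := by
        rw [h3, hzw]; push_cast; ring
      exact_mod_cast h4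
    calc (D ^ i * x) ^ 2 + (D ^ i * (2 * u * (κ * v))) ^ 2 =
        (D ^ i) ^ 2 * (x ^ 2 + (2 * u * (κ * v)) ^ 2) := by ring
      _ = (D ^ i * z) ^ 2 := by rw [h1]; ring
  · rw [hY, ← e1, ← e3, hcol]
  · rw [hY, ← e2, ← e3, hcol]

theorem main_aux (hTRI : S_TRI) (hSCA : S_SCA) {k₀ : ℕ} (hk0 : 0 < k₀) {δ₀ : ℝ}
    (hSP : ∀ E κ : ℕ, Good E κ → ∀ α β : ℕ,
      ∃ T₀ : ℕ, ∀ T : ℕ, T₀ ≤ T → ∀ Q : Set ℕ, ∑ q ∈ QQ Q T (T ^ (2 * k₀ + 1)), (1 : ℝ) / q ≤ δ₀ →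
        ∃ z ∈ Box (α * (T ^ k₀ : ℕ)) (β * (T ^ k₀ : ℕ)) (T ^ k₀) (T ^ k₀),
          ∀ p : ℕ, p.Prime → (p : ℤ) ∣ LP E κ z → T < p ∧ p ∉ Q)
    {k : ℕ} (hk : k = 2 * k₀ + 1) (Q : Set ℕ)
    (hQ : ∃ᶠ N : ℕ in Filter.atTop,
      ∑ q ∈ QQ Q ⌊(N : ℝ) ^ ((1 : ℝ) / (2 * k))⌋₊ N, (1 : ℝ) / q ≤ δ₀)
    (M : ℕ) (δ : ℝ) (r : ℕ) (c : ℕ → Fin r) (hM : 0 < M) (hδ : 0 < δ)
    (hc : ∀ s m n : ℕ, 0 < s → 0 < m → 0 < n → m ≡ n [MOD M] → |(m : ℝ) - n| ≤ δ * m →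
      (∀ p : ℕ, p.Prime → p ∣ s → (p : ℝ) ≤ ((s * min m n : ℕ) : ℝ) ^ ((1 : ℝ) / (2 * k))) →
      (∀ p : ℕ, p.Prime → p ∣ m * n →
        ((s * max m n : ℕ) : ℝ) ^ ((1 : ℝ) / (2 * k)) < p ∧ p ∉ Q) →
      c (s * m) = c (s * n)) :
    ∃ x y z : ℕ, 0 < x ∧ 0 < y ∧ 0 < z ∧ x ^ 2 + y ^ 2 = z ^ 2 ∧ c x = c y ∧ c y = c z := by
  classical
  rcases Nat.eq_zero_or_pos r with hr0 | hr
  · subst hr0
    exact (c 0).elim0
  set D : ℕ := 4 * 30030 * M with hDdef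
  have hD : 0 < D := by positivity
  have h4 : 4 * 30030 ∣ D := Dvd.intro _ rfl
  have hMD : M ∣ D := Dvd.intro_left _ rfl
  have hD2 : 2 ≤ D := by
    have : 1 ≤ M := hM
    omega
  set E : ℕ := D ^ (r + 1) with hE
  have hEpos : 0 < E := Nat.pow_pos hD
  have hE2 : 2 ≤ E := by
    calc 2 ≤ D := hD2
      _ = D ^ 1 := (pow_one D).symm
      _ ≤ D ^ (r + 1) := Nat.pow_le_pow_right hD (by omega)
  set α₀ : ℕ := ⌈6 / δ⌉₊ + 1 with hα0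
  set m₀ : ℕ := ⌈8 / δ⌉₊ + 2 with hm0
  set μ : ℕ := D ^ r * m₀ with hμ
  have hμpos : 0 < μ := Nat.mul_pos (Nat.pow_pos hD) (by omega)
  have hα0pos : 0 < α₀ := by omega
  let α : ℕ → ℕ := fun i => α₀ * μ ^ (2 * r - i)
  let β : ℕ → ℕ → ℕ := fun i j => (D ^ (j - i) / 2) * (α₀ * μ ^ (2 * r + i - 2 * j))
  set A : ℕ := D ^ r * (α₀ * μ ^ (2 * r)) with hA
  have hαA : ∀ i, α i ≤ A := by
    intro i
    calc α i = 1 * (α₀ * μ ^ (2 * r - i)) := by simp [α]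
      _ ≤ D ^ r * (α₀ * μ ^ (2 * r)) := Nat.mul_le_mul (Nat.pow_pos hD)
          (Nat.mul_le_mul_left _ (Nat.pow_le_pow_right hμpos (by omega)))
  have hβA : ∀ i j, i ≤ j → j ≤ r → β i j ≤ A := by
    intro i j hij hj
    refine Nat.mul_le_mul ?_ (Nat.mul_le_mul_left _ (Nat.pow_le_pow_right hμpos (by omega)))
    calc D ^ (j - i) / 2 ≤ D ^ (j - i) := Nat.div_le_self _ _
      _ ≤ D ^ r := Nat.pow_le_pow_right hD (by omega)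
  have hαpos : ∀ i, α₀ ≤ α i := by
    intro i
    exact Nat.le_mul_of_pos_right _ (Nat.pow_pos hμpos)
  -- the thresholds
  have hT := fun (e : ℕ) (he : 1 ≤ e ∧ e ≤ r) (a b : ℕ) => spn hTRI hSP hD h4 e he a b
  choose! Tf hTf using hT
  set T₁ : ℕ := ∑ i ∈ range (r + 1), ∑ j ∈ range (r + 1),
    (Tf 1 (α i) (α i) + Tf (j - i) (α i) (β i j)) with hT1
  obtain ⟨T, hTT, hQT⟩ := hSCA k (by omega) δ₀ Q hQ
    (T₁ + D ^ 3 + D ^ r * (2 * (E * (A + 1)) ^ 2) + 1)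
  have hT1T : ∀ i j, i ≤ r → j ≤ r →
      Tf 1 (α i) (α i) + Tf (j - i) (α i) (β i j) ≤ T := by
    intro i j hi hj
    have h1 : Tf 1 (α i) (α i) + Tf (j - i) (α i) (β i j) ≤
        ∑ j ∈ range (r + 1), (Tf 1 (α i) (α i) + Tf (j - i) (α i) (β i j)) :=
      single_le_sum (f := fun j => Tf 1 (α i) (α i) + Tf (j - i) (α i) (β i j))
        (fun _ _ => Nat.zero_le _) (mem_range.2 (by omega))
    have h2 : ∑ j ∈ range (r + 1), (Tf 1 (α i) (α i) + Tf (j - i) (α i) (β i j)) ≤ T₁ :=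
      single_le_sum (f := fun i => ∑ j ∈ range (r + 1),
        (Tf 1 (α i) (α i) + Tf (j - i) (α i) (β i j)))
        (fun _ _ => Nat.zero_le _) (mem_range.2 (by omega))
    omega
  have hDT : D ^ 3 ≤ T := by omega
  have hbigT : D ^ r * (2 * (E * (A + 1)) ^ 2) ≤ T := by omega
  have hTpos : 0 < T := by omega
  set H : ℕ := T ^ k₀ with hH
  have hHpos : 0 < H := Nat.pow_pos hTpos
  have hH2 : T ^ (2 * k₀) = H ^ 2 := by rw [hH, ← pow_mul, mul_comm]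
  have hTk : T ^ k = H ^ 2 * T := by rw [hk, pow_succ, hH2]
  have hQT' : ∑ q ∈ QQ Q T (T ^ (2 * k₀ + 1)), (1 : ℝ) / q ≤ δ₀ := by rw [← hk]; exact hQT
  -- bound for all numbers
  have hbound : ∀ m : ℕ, m ≤ 2 * (E * (A + 1) * H) ^ 2 → D ^ r * m ≤ T ^ k := by
    intro m hm
    calc D ^ r * m ≤ D ^ r * (2 * (E * (A + 1) * H) ^ 2) := Nat.mul_le_mul_left _ hm
      _ = H ^ 2 * (D ^ r * (2 * (E * (A + 1)) ^ 2)) := by ring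
      _ ≤ H ^ 2 * T := Nat.mul_le_mul_left _ hbigT
      _ = T ^ k := hTk.symm
  -- the anchors
  have hanc : ∀ i, i ≤ r → ∃ u : ℕ, E * α i * H ≤ u ∧ u ≤ E * (α i + 1) * H ∧ u ≡ 1 [MOD D] ∧
      ∀ p : ℕ, p.Prime → p ∣ u → T < p ∧ p ∉ Q := by
    intro i hi
    obtain ⟨u, v, h1, h2, -, -, h5, -, h7⟩ := hTf 1 ⟨le_rfl, hr⟩ (α i) (α i) T
      (by have := hT1T i i hi hi; omega) Q hQT'
    exact ⟨u, h1, h2, h5, fun p hp hpu => h7 p hp (Or.inl hpu)⟩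
  choose! ua hua using hanc
  -- pigeonhole
  obtain ⟨i, j, hij, hjr, hcol⟩ : ∃ i j : ℕ, i < j ∧ j ≤ r ∧
      c (D ^ i * ua i ^ 2) = c (D ^ j * ua j ^ 2) := by
    obtain ⟨i, j, hne, heq⟩ := Fintype.exists_ne_map_eq_of_card_lt
      (fun i : Fin (r + 1) => c (D ^ (i : ℕ) * ua i ^ 2)) (by simp)
    rcases lt_or_gt_of_ne hne with h | h
    · exact ⟨i, j, h, by omega, heq⟩
    · exact ⟨j, i, h, by omega, heq.symm⟩
  have hir : i ≤ r := by omega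
  set e : ℕ := j - i with he
  have he1 : 1 ≤ e ∧ e ≤ r := by omega
  set κ : ℕ := D ^ e / 2 with hκ
  obtain ⟨hgood, h2κ, -, -, hDκ⟩ := hTRI D r e hD h4 he1.1 he1.2
  have hκpos : 0 < κ := hgood.pos
  set F : ℕ := E / κ with hF
  have hFκ : κ * F = E := Nat.mul_div_cancel' hgood.dvd
  have hFpos : 0 < F := Nat.div_pos (Nat.le_of_dvd hEpos hgood.dvd) hgood.pos
  have hFE : F ≤ E := Nat.div_le_self _ _
  obtain ⟨u, v, hu1, hu2, hv1, hv2, huD, hvD, hp⟩ := hTf e he1 (α i) (β i j) T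
    ((Nat.le_add_left _ _).trans (hT1T i j hir hjr)) Q hQT'
  set γ : ℕ := α₀ * μ ^ (2 * r + i - 2 * j) with hγ
  have hβγ : β i j = κ * γ := rfl
  have hγpos : α₀ ≤ γ := Nat.le_mul_of_pos_right _ (Nat.pow_pos hμpos)
  have hβα₀ : α₀ ≤ β i j := by
    rw [hβγ]
    calc α₀ ≤ γ := hγpos
      _ ≤ κ * γ := Nat.le_mul_of_pos_left _ hκpos
  obtain ⟨hαγ, hαj⟩ := expo (α₀ := α₀) (μ := μ) hij hjr
  obtain ⟨ht1, h3θ, hθ1⟩ := param hδ hα0 hm0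
  obtain ⟨hi1, hi2, hi3, hi4⟩ := hua i hir
  obtain ⟨hj1, hj2, hj3, hj4⟩ := hua j hjr
  have hEα : ∀ i, 1 ≤ E * α i := fun i =>
    Nat.mul_pos hEpos (lt_of_lt_of_le hα0pos (hαpos i))
  have hHi0 : H ≤ ua i := (Nat.le_mul_of_pos_left _ (hEα i)).trans hi1
  have hHj0 : H ≤ ua j := (Nat.le_mul_of_pos_left _ (hEα j)).trans hj1
  have hHu : H ≤ u := (Nat.le_mul_of_pos_left _ (hEα i)).trans hu1
  have hHv : H ≤ v := (Nat.le_mul_of_pos_left _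
    (Nat.mul_pos hFpos (lt_of_lt_of_le hα0pos hβα₀))).trans hv1
  have hUVn : (E * α i * H) * (F * β i j * H) = (E * α j * H) ^ 2 := by
    rw [hβγ]
    calc (E * α i * H) * (F * (κ * γ) * H) = (E * (κ * F)) * (α i * γ) * H ^ 2 := by ring
      _ = (E * E) * α j ^ 2 * H ^ 2 := by rw [hFκ, hαj]
      _ = _ := by ring
  have hws : m₀ ^ 2 * (κ * v) ≤ 2 * (E * α i * H) :=
    wsize hFκ hβγ (lt_of_lt_of_le hα0pos hβα₀) hv2 hD hμ hμpos he1 (Nat.div_le_self _ _) hαγ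
  have hwR : ((κ * v : ℕ) : ℝ) ≤ 2 / (m₀ : ℝ) ^ 2 * ((E * α i * H : ℕ) : ℝ) := by
    have h4 : (m₀ : ℝ) ^ 2 * ((κ * v : ℕ) : ℝ) ≤ 2 * ((E * α i * H : ℕ) : ℝ) := by
      exact_mod_cast hws
    have hm0pos : (0 : ℝ) < m₀ := by
      have : 0 < m₀ := by omega
      exact_mod_cast this
    rw [div_mul_eq_mul_div, le_div_iff₀ (by positivity)]
    linarith
  have h2H : 2 * H ≤ E * α i * H := by
    apply Nat.mul_le_mul_right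
    exact hE2.trans (Nat.le_mul_of_pos_right _ (lt_of_lt_of_le hα0pos (hαpos i)))
  obtain ⟨r1, r2, r3, r4, r5⟩ := reals (t := 1 / (α₀ : ℝ)) (θ := 2 / (m₀ : ℝ) ^ 2) (δ := δ)
    (U := ((E * α i * H : ℕ) : ℝ)) (V := ((F * β i j * H : ℕ) : ℝ))
    (W := ((E * α j * H : ℕ) : ℝ)) (u := u) (v := v) (w := ((κ * v : ℕ) : ℝ)) (a := ua i)
    (b := ua j) (H := (H : ℝ)) (by positivity) ht1 hδ.le h3θ (by positivity) hθ1
    (by exact_mod_cast (lt_of_lt_of_le hHpos (Nat.le_mul_of_pos_left _ (hEα i))))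
    (Nat.cast_nonneg _) (Nat.cast_nonneg _) (by exact_mod_cast hUVn) (by exact_mod_cast hu1)
    (upn hα0pos (hαpos i) hu2) (by exact_mod_cast hv1) (upn hα0pos hβα₀ hv2)
    (by exact_mod_cast hi1) (upn hα0pos (hαpos i) hi2) (by exact_mod_cast hj1)
    (upn hα0pos (hαpos j) hj2) (Nat.cast_nonneg _) hwR (Nat.cast_nonneg _)
    (by exact_mod_cast h2H)
  have hwu : κ * v < u := by exact_mod_cast r4
  have hw2n : (κ * v) ^ 2 ≤ u ^ 2 := Nat.pow_le_pow_left hwu.le 2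
  have hxw : u ^ 2 - (κ * v) ^ 2 + (κ * v) ^ 2 = u ^ 2 := Nat.sub_add_cancel hw2n
  have hxR : (((u ^ 2 - (κ * v) ^ 2 : ℕ)) : ℝ) = (u : ℝ) ^ 2 - ((κ * v : ℕ) : ℝ) ^ 2 := by
    rw [Nat.cast_sub hw2n, Nat.cast_pow, Nat.cast_pow]
  have hzR : (((u ^ 2 + (κ * v) ^ 2 : ℕ)) : ℝ) = (u : ℝ) ^ 2 + ((κ * v : ℕ) : ℝ) ^ 2 := by
    rw [Nat.cast_add, Nat.cast_pow, Nat.cast_pow]
  have hua_le : ∀ i, ua i ≤ E * (α i + 1) * H → ua i ≤ E * (A + 1) * H := fun i h =>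
    h.trans (Nat.mul_le_mul_right _ (Nat.mul_le_mul_left _ (Nat.succ_le_succ (hαA i))))
  have hu_le : u ≤ E * (A + 1) * H :=
    hu2.trans (Nat.mul_le_mul_right _ (Nat.mul_le_mul_left _ (Nat.succ_le_succ (hαA i))))
  have hv_le : v ≤ E * (A + 1) * H :=
    hv2.trans (Nat.mul_le_mul_right _ (Nat.mul_le_mul hFE (Nat.succ_le_succ
      (hβA i j hij.le hjr))))
  have hu_le2 := Nat.pow_le_pow_left hu_le 2
  have hi_le2 := Nat.pow_le_pow_left (hua_le i hi2) 2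
  have hj_le2 := Nat.pow_le_pow_left (hua_le j hj2) 2
  have hy_le2 : u * v ≤ (E * (A + 1) * H) ^ 2 := by
    rw [pow_two]; exact Nat.mul_le_mul hu_le hv_le
  refine triple hk0 hk hc hD hMD hDT hjr (e := e) (i := i) (j := j) (κ := κ) (ui := ua i)
    (uj := ua j) (u := u) (v := v) (x := u ^ 2 - (κ * v) ^ 2) (z := u ^ 2 + (κ * v) ^ 2)
    (by omega) h2κ hDκ hcol hxw rfl ?_ ?_ ?_ ?_ ?_ (hbound _ ?_) (hbound _ ?_) (hbound _ ?_)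
    (hbound _ ?_) (hbound _ ?_) hi3 hj3 huD hvD hi4 hj4 hp ?_ ?_ ?_
  · rw [hH2]; exact Nat.pow_le_pow_left hHi0 2
  · rw [hH2]; exact Nat.pow_le_pow_left hHj0 2
  · rw [hH2]
    have : ((H ^ 2 : ℕ) : ℝ) ≤ ((u ^ 2 - (κ * v) ^ 2 : ℕ) : ℝ) := by
      rw [hxR, Nat.cast_pow]; exact r5
    exact_mod_cast this
  · rw [hH2]; exact (Nat.pow_le_pow_left hHu 2).trans (Nat.le_add_right _ _)
  · rw [hH2, pow_two]; exact Nat.mul_le_mul hHu hHv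
  · exact hi_le2.trans (Nat.le_mul_of_pos_left _ two_pos)
  · exact hj_le2.trans (Nat.le_mul_of_pos_left _ two_pos)
  · exact ((Nat.sub_le _ _).trans hu_le2).trans (Nat.le_mul_of_pos_left _ two_pos)
  · rw [two_mul]; exact Nat.add_le_add hu_le2 (hw2n.trans hu_le2)
  · exact hy_le2.trans (Nat.le_mul_of_pos_left _ two_pos)
  · rw [hxR, Nat.cast_pow]; exact r1
  · rw [hzR, Nat.cast_pow]; exact r2
  · rw [Nat.cast_mul, Nat.cast_pow]; exact r3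

end I_FIN

theorem FIN_pf (hTRI : S_TRI) (hSCA : S_SCA) : S_FIN := by
  intro hSP
  obtain ⟨k₀, hk0, δ₀, hδ0, hSP⟩ := hSP
  refine ⟨(1 : ℝ) / (2 * ((2 * k₀ + 1 : ℕ) : ℝ)), by positivity, δ₀, hδ0, ?_⟩
  intro Q hQ M δ r c hM hδ hc
  exact I_FIN.main_aux hTRI hSCA hk0 hSP rfl Q hQ M δ r c hM hδ hc

end Pool.Agent.Work.MP_0f91f8_co.Rg
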