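import Pool.Agent.Work.MP_0f91f8_co.Rg.Stmts

/-!
# The final theorem with cells for the size
-/

set_option autoImplicit false

namespace Pool.Agent.Work.MP_0f91f8_co.Rg

open Finset

/-- The final theorem: the colour may depend on the part `s` composed of the primes `≤ N ^ ε₀`, on
the exponents at the primes of `Q`, on the residue class modulo `M` of the remaining part and on
the cell of its size in any partition of the logarithmic scale into intervals of length `δ`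
(with an origin that may depend on `s`). -/
def Main2 : Prop := ∃ ε₀ : ℝ, 0 < ε₀ ∧ ∃ δ₀ : ℝ, 0 < δ₀ ∧ ∀ Q : Set ℕ,
  (∃ᶠ N : ℕ in Filter.atTop, ∑ q ∈ QQ Q ⌊(N : ℝ) ^ ε₀⌋₊ N, (1 : ℝ) / q ≤ δ₀) →
  ∀ (M : ℕ) (δ : ℝ) (θ : ℕ → ℝ) (r : ℕ) (c : ℕ → Fin r), 0 < M → 0 < δ →
  (∀ s m n : ℕ, 0 < s → 0 < m → 0 < n → m ≡ n [MOD M] →
    ⌊(Real.log m - θ s) / δ⌋ = ⌊(Real.log n - θ s) / δ⌋ →
    (∀ p : ℕ, p.Prime → p ∣ s → (p : ℝ) ≤ ((s * min m n : ℕ) : ℝ) ^ ε₀) →
    (∀ p : ℕ, p.Prime → p ∣ m * n → ((s * max m n : ℕ) : ℝ) ^ ε₀ < p ∧ p ∉ Q) →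
    c (s * m) = c (s * n)) →
  ∃ x y z : ℕ, 0 < x ∧ 0 < y ∧ 0 < z ∧ x ^ 2 + y ^ 2 = z ^ 2 ∧ c x = c y ∧ c y = c z

/-- [FIN2] as `FIN`; candidates `α₀^(l)`, `0 ≤ l ≤ r + 1`, the nearest integers to
`A exp (l δ / (2 (r + 2)))`, `A` large; for a good `T` and fixed `i` the positions
`(2 log (E H α₀^(l)) + 2 (2 r - i) log μ - θ (D ^ i)) / δ` modulo `1` are `r + 2` almost
equidistant points of the circle, so for at most one `l` the position is within `1 / (4 (r + 2))`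
of an integer; as there are `r + 1` values of `i`, some `l` is good for all `i`: then all numbers
of stage `i` are in one cell. -/
def S_FIN2 : Prop := S_SP → Main2

end Pool.Agent.Work.MP_0f91f8_co.Rg
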