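import Pool.Agent.Work.MP_0f91f8_co.Rg.I_FIN
import Pool.Agent.Work.MP_0f91f8_co.Rg.Stmts2

/-!
# Item FIN2: the final theorem with cells for the size
-/

set_option autoImplicit false

namespace Pool.Agent.Work.MP_0f91f8_co.Rg

open Finset

namespace I_FIN2

open I_FIN

/-- Numbers in a small window around `U ^ 2` in the logarithmic scale. -/
theorem logwin {U x t θ ε : ℝ} (hU : 0 < U) (ht : 0 ≤ t) (hθ : θ ^ 2 ≤ 1 / 2)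
    (hε : 3 * t + 2 * θ ^ 2 ≤ ε) (h1 : U ^ 2 * (1 - θ ^ 2) ≤ x)
    (h2 : x ≤ U ^ 2 * (1 + 3 * t + θ ^ 2)) : |Real.log x - Real.log (U ^ 2)| ≤ ε := by
  have hU2 : 0 < U ^ 2 := by positivity
  have hθ0 : 0 ≤ θ ^ 2 := sq_nonneg θ
  have hy : 0 < 1 - θ ^ 2 := by linarith
  have hx : 0 < x := lt_of_lt_of_le (mul_pos hU2 hy) h1
  rw [abs_le]
  constructor
  · have h3 := Real.log_le_log (mul_pos hU2 hy) h1
    rw [Real.log_mul hU2.ne' hy.ne'] at h3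
    have h4 := Real.one_sub_inv_le_log_of_pos hy
    have h5 : -(2 * θ ^ 2) ≤ 1 - (1 - θ ^ 2)⁻¹ := by
      have h6 : (1 - θ ^ 2)⁻¹ ≤ 1 + 2 * θ ^ 2 := by
        rw [inv_le_iff_one_le_mul₀ hy]
        nlinarith
      linarith
    linarith
  · have h3 := Real.log_le_log hx h2
    have h4 : 0 < 1 + 3 * t + θ ^ 2 := by linarith
    rw [Real.log_mul hU2.ne' h4.ne'] at h3
    have h5 := Real.log_le_sub_one_of_pos h4
    linarith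

/-- Two numbers in a window far from the boundaries are in the same cell. -/
theorem cell {δ P θ ε a b : ℝ} (hδ : 0 < δ) (h : ∀ k : ℤ, ε < |P - θ - k * δ|)
    (ha : |a - P| ≤ ε) (hb : |b - P| ≤ ε) : ⌊(a - θ) / δ⌋ = ⌊(b - θ) / δ⌋ := by
  have key : ∀ x : ℝ, |x - P| ≤ ε → ⌊(x - θ) / δ⌋ = ⌊(P - θ) / δ⌋ := by
    intro x hx
    set k : ℤ := ⌊(P - θ) / δ⌋ with hk
    have h1 : (k : ℝ) ≤ (P - θ) / δ := Int.floor_le _
    have h2 : (P - θ) / δ < k + 1 := Int.lt_floor_add_one _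
    rw [le_div_iff₀ hδ] at h1
    rw [div_lt_iff₀ hδ] at h2
    have h3 := h k
    have h4 := h (k + 1)
    rw [abs_of_nonneg (by linarith)] at h3
    push_cast at h4
    rw [abs_of_nonpos (by linarith)] at h4
    rw [abs_le] at hx
    rw [Int.floor_eq_iff]
    constructor
    · rw [le_div_iff₀ hδ]
      linarith
    · rw [div_lt_iff₀ hδ]
      linarith
  rw [key a ha, key b hb]

/-- The candidates. -/
theorem cand {δ ρ : ℝ} (hδ : 0 < δ) (hρ : 0 < ρ) (R N₀ : ℕ) (hR : 0 < R) :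
    ∃ (A : ℝ) (a : ℕ → ℕ), ∀ l : ℕ, N₀ ≤ a l ∧
      |2 * Real.log (a l) - (A + l * δ / R)| ≤ ρ := by
  obtain ⟨B, hB0, hB1, hB2⟩ : ∃ B : ℝ, 1 ≤ B ∧ (N₀ : ℝ) ≤ B ∧ 2 / ρ ≤ B :=
    ⟨max 1 (max N₀ (2 / ρ)), le_max_left _ _, (le_max_left _ _).trans (le_max_right _ _),
      (le_max_right _ _).trans (le_max_right _ _)⟩
  have hBpos : 0 < B := by linarith
  refine ⟨2 * Real.log B, fun l => ⌈B * Real.exp (l * δ / R / 2)⌉₊, fun l => ?_⟩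
  have hl : 0 ≤ (l : ℝ) * δ / R / 2 := by positivity
  have he : 1 ≤ Real.exp (l * δ / R / 2) := Real.one_le_exp hl
  set X : ℝ := B * Real.exp (l * δ / R / 2) with hX
  have hXB : B ≤ X := by
    rw [hX]
    nlinarith
  have hXpos : 0 < X := by linarith
  have h1 : X ≤ (⌈X⌉₊ : ℝ) := Nat.le_ceil X
  have h2 : (⌈X⌉₊ : ℝ) < X + 1 := Nat.ceil_lt_add_one hXpos.le
  have hlogX : 2 * Real.log X = 2 * Real.log B + l * δ / R := by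
    rw [hX, Real.log_mul hBpos.ne' (Real.exp_pos _).ne', Real.log_exp]
    ring
  refine ⟨?_, ?_⟩
  · have : (N₀ : ℝ) ≤ (⌈X⌉₊ : ℝ) := by linarith
    exact_mod_cast this
  · rw [← hlogX]
    have h3 : Real.log X ≤ Real.log (⌈X⌉₊ : ℝ) := Real.log_le_log hXpos h1
    have h4 : Real.log (⌈X⌉₊ : ℝ) ≤ Real.log X + 1 / X := by
      have h5 : (⌈X⌉₊ : ℝ) ≤ X * (1 + 1 / X) := by
        rw [mul_add, mul_one, mul_one_div_cancel hXpos.ne']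
        linarith
      have h6 := Real.log_le_log (by linarith) h5
      have h7 : 0 < 1 + 1 / X := by positivity
      rw [Real.log_mul hXpos.ne' h7.ne'] at h6
      have h8 := Real.log_le_sub_one_of_pos h7
      linarith
    have h9 : 1 / X ≤ ρ / 2 := by
      rw [div_le_iff₀ hXpos]
      rw [div_le_iff₀ hρ] at hB2
      nlinarith
    rw [abs_le]
    constructor <;> linarith

/-- One of the candidates is good for all `i`. -/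
theorem good {δ ρ ε A : ℝ} {r : ℕ} (hδ : 0 < δ) (a : ℕ → ℕ)
    (ha : ∀ l : ℕ, |2 * Real.log (a l) - (A + l * δ / (r + 2 : ℕ))| ≤ ρ)
    (hsm : 2 * ε + 2 * ρ < δ / (r + 2 : ℕ)) (B : ℕ → ℝ) :
    ∃ l : ℕ, l < r + 2 ∧ ∀ i : ℕ, i ≤ r → ∀ k : ℤ, ε < |2 * Real.log (a l) + B i - k * δ| := by
  by_contra hcon
  push Not at hcon
  have h1 : ∀ l : Fin (r + 2), ∃ i : Fin (r + 1), ∃ k : ℤ,
      |2 * Real.log (a l) + B i - k * δ| ≤ ε := by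
    intro l
    obtain ⟨i, hi, k, hk⟩ := hcon l l.2
    exact ⟨⟨i, by omega⟩, k, hk⟩
  choose f g hfg using h1
  obtain ⟨l, l', hne, heq⟩ := Fintype.exists_ne_map_eq_of_card_lt f (by simp)
  have h2 := hfg l
  have h3 := hfg l'
  rw [← heq] at h3
  have h4 := ha l
  have h5 := ha l'
  rw [abs_le] at h2 h3 h4 h5
  have hR : (0 : ℝ) < ((r + 2 : ℕ) : ℝ) := by positivity
  set d : ℤ := ((l : ℕ) : ℤ) - ((l' : ℕ) : ℤ) - (g l - g l') * ((r + 2 : ℕ) : ℤ) with hd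
  have hd0 : d ≠ 0 := by
    intro h0
    have h6 : ((l : ℕ) : ℤ) - ((l' : ℕ) : ℤ) = (g l - g l') * ((r + 2 : ℕ) : ℤ) := by
      rw [hd] at h0
      linarith
    have h7 : ((r + 2 : ℕ) : ℤ) ∣ ((l : ℕ) : ℤ) - ((l' : ℕ) : ℤ) := ⟨g l - g l', by rw [h6]; ring⟩
    have h8 : |((l : ℕ) : ℤ) - ((l' : ℕ) : ℤ)| < ((r + 2 : ℕ) : ℤ) := by
      rw [abs_lt]
      have := l.2
      have := l'.2
      constructor <;> omega
    have h9 := Int.eq_zero_of_abs_lt_dvd h7 h8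
    apply hne
    apply Fin.ext
    omega
  have hd1 : (1 : ℝ) ≤ |(d : ℝ)| := by
    have : 1 ≤ |d| := Int.one_le_abs hd0
    exact_mod_cast this
  have h10 : (d : ℝ) * (δ / (r + 2 : ℕ)) =
      (l : ℕ) * δ / (r + 2 : ℕ) - (l' : ℕ) * δ / (r + 2 : ℕ) - (g l - g l') * δ := by
    rw [hd]
    push_cast
    field_simp
  have hq : 0 < δ / (r + 2 : ℕ) := by positivity
  have h11 : |(d : ℝ) * (δ / (r + 2 : ℕ))| ≤ 2 * ε + 2 * ρ := by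
    rw [h10, abs_le]
    constructor <;> linarith
  rw [abs_mul, abs_of_pos hq] at h11
  nlinarith

theorem reals2 {t θ ε U V W u v w a b H : ℝ} (ht0 : 0 ≤ t) (ht1 : t ≤ 1)
    (hε : 3 * t + 2 * θ ^ 2 ≤ ε) (hθ0 : 0 ≤ θ) (hθ1 : θ ≤ 1 / 2) (hU : 0 < U) (hV : 0 ≤ V)
    (hW : 0 < W) (hUV : U * V = W ^ 2) (huU : U ≤ u) (huU' : u ≤ U * (1 + t)) (hvV : V ≤ v)
    (hvV' : v ≤ V * (1 + t)) (haU : U ≤ a) (haU' : a ≤ U * (1 + t)) (hbW : W ≤ b)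
    (hbW' : b ≤ W * (1 + t)) (hw0 : 0 ≤ w) (hw : w ≤ θ * U) (hH0 : 0 ≤ H) (hH : 2 * H ≤ U) :
    |Real.log (a ^ 2) - Real.log (U ^ 2)| ≤ ε ∧ |Real.log (u ^ 2 - w ^ 2) - Real.log (U ^ 2)| ≤ ε ∧
      |Real.log (u ^ 2 + w ^ 2) - Real.log (U ^ 2)| ≤ ε ∧
      |Real.log (b ^ 2) - Real.log (W ^ 2)| ≤ ε ∧ |Real.log (u * v) - Real.log (W ^ 2)| ≤ ε ∧
      w < u ∧ H ^ 2 ≤ u ^ 2 - w ^ 2 := by
  have hθ2 : θ ^ 2 ≤ 1 / 2 := by nlinarith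
  have hθ20 : 0 ≤ θ ^ 2 := sq_nonneg θ
  have hw2 : w ^ 2 ≤ U ^ 2 * θ ^ 2 := by
    calc w ^ 2 ≤ (θ * U) ^ 2 := pow_le_pow_left₀ hw0 hw 2
      _ = _ := by ring
  have ht3 : (1 + t) ^ 2 ≤ 1 + 3 * t := by nlinarith
  have hU2 : 0 ≤ U ^ 2 := sq_nonneg U
  have hW2 : 0 ≤ W ^ 2 := sq_nonneg W
  have hu2' : u ^ 2 ≤ U ^ 2 * (1 + 3 * t) := by
    calc u ^ 2 ≤ (U * (1 + t)) ^ 2 := pow_le_pow_left₀ (by linarith) huU' 2
      _ = U ^ 2 * (1 + t) ^ 2 := by ring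
      _ ≤ _ := mul_le_mul_of_nonneg_left ht3 hU2
  have hu2'' : U ^ 2 ≤ u ^ 2 := pow_le_pow_left₀ hU.le huU 2
  have hb1 : U ^ 2 ≤ a ^ 2 := pow_le_pow_left₀ hU.le haU 2
  have hb2 : a ^ 2 ≤ U ^ 2 * (1 + 3 * t) := by
    calc a ^ 2 ≤ (U * (1 + t)) ^ 2 := pow_le_pow_left₀ (by linarith) haU' 2
      _ = U ^ 2 * (1 + t) ^ 2 := by ring
      _ ≤ _ := mul_le_mul_of_nonneg_left ht3 hU2
  have hc1 : W ^ 2 ≤ b ^ 2 := pow_le_pow_left₀ hW.le hbW 2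
  have hc2 : b ^ 2 ≤ W ^ 2 * (1 + 3 * t) := by
    calc b ^ 2 ≤ (W * (1 + t)) ^ 2 := pow_le_pow_left₀ (by linarith) hbW' 2
      _ = W ^ 2 * (1 + t) ^ 2 := by ring
      _ ≤ _ := mul_le_mul_of_nonneg_left ht3 hW2
  have hw20 : 0 ≤ w ^ 2 := sq_nonneg w
  have hUθ : 0 ≤ U ^ 2 * θ ^ 2 := by positivity
  have hWθ : 0 ≤ W ^ 2 * θ ^ 2 := by positivity
  have e1 : U ^ 2 * (1 - θ ^ 2) = U ^ 2 - U ^ 2 * θ ^ 2 := by ring
  have e2 : U ^ 2 * (1 + 3 * t + θ ^ 2) = U ^ 2 * (1 + 3 * t) + U ^ 2 * θ ^ 2 := by ring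
  have e3 : W ^ 2 * (1 - θ ^ 2) = W ^ 2 - W ^ 2 * θ ^ 2 := by ring
  have e4 : W ^ 2 * (1 + 3 * t + θ ^ 2) = W ^ 2 * (1 + 3 * t) + W ^ 2 * θ ^ 2 := by ring
  have hy1 : W ^ 2 ≤ u * v := by
    rw [← hUV]
    exact mul_le_mul huU hvV hV (by linarith)
  have hy2 : u * v ≤ W ^ 2 * (1 + 3 * t) := by
    calc u * v ≤ (U * (1 + t)) * (V * (1 + t)) :=
          mul_le_mul huU' hvV' (by linarith) (by nlinarith)
      _ = (U * V) * (1 + t) ^ 2 := by ring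
      _ = W ^ 2 * (1 + t) ^ 2 := by rw [hUV]
      _ ≤ _ := mul_le_mul_of_nonneg_left ht3 hW2
  refine ⟨logwin hU ht0 hθ2 hε (by linarith) (by linarith),
    logwin hU ht0 hθ2 hε (by linarith) (by linarith),
    logwin hU ht0 hθ2 hε (by linarith) (by linarith),
    logwin hW ht0 hθ2 hε (by linarith) (by linarith),
    logwin hW ht0 hθ2 hε (by linarith) (by linarith), ?_, ?_⟩
  · nlinarith
  · have h3 : (2 * H) ^ 2 ≤ U ^ 2 := pow_le_pow_left₀ (by linarith) hH 2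
    have h4 : θ ^ 2 ≤ 1 / 4 := by nlinarith
    have h5 : U ^ 2 * θ ^ 2 ≤ U ^ 2 * (1 / 4) := mul_le_mul_of_nonneg_left h4 hU2
    have h6 : 0 ≤ H ^ 2 := sq_nonneg H
    have h7 : (2 * H) ^ 2 = 4 * H ^ 2 := by ring
    linarith

/-- One comparison of colours. -/
theorem step {k₀ k : ℕ} (hk0 : 0 < k₀) (hk : k = 2 * k₀ + 1) {Q : Set ℕ} {M : ℕ} {δ : ℝ} {φ : ℕ → ℝ} {r : ℕ}
    {c : ℕ → Fin r}
    (hc : ∀ s m n : ℕ, 0 < s → 0 < m → 0 < n → m ≡ n [MOD M] →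
      ⌊(Real.log m - φ s) / δ⌋ = ⌊(Real.log n - φ s) / δ⌋ →
      (∀ p : ℕ, p.Prime → p ∣ s → (p : ℝ) ≤ ((s * min m n : ℕ) : ℝ) ^ ((1 : ℝ) / (2 * k))) →
      (∀ p : ℕ, p.Prime → p ∣ m * n →
        ((s * max m n : ℕ) : ℝ) ^ ((1 : ℝ) / (2 * k)) < p ∧ p ∉ Q) →
      c (s * m) = c (s * n))
    {D T i m n : ℕ} (hD : 0 < D) (hMD : M ∣ D) (hDT : D ^ 3 ≤ T) (hi : i ≤ r)
    (hm : T ^ (2 * k₀) ≤ m) (hn : T ^ (2 * k₀) ≤ n) (hm' : D ^ r * m ≤ T ^ k)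
    (hn' : D ^ r * n ≤ T ^ k) (hm1 : m ≡ 1 [MOD D]) (hn1 : n ≡ 1 [MOD D])
    (hmn : ⌊(Real.log m - φ (D ^ i)) / δ⌋ = ⌊(Real.log n - φ (D ^ i)) / δ⌋) (hp : ∀ p : ℕ, p.Prime → p ∣ m * n → T < p ∧ p ∉ Q) :
    c (D ^ i * m) = c (D ^ i * n) := by
  have hT : 0 < T := lt_of_lt_of_le (Nat.pow_pos hD) hDT
  have hTk : 0 < T ^ (2 * k₀) := Nat.pow_pos hT
  have hkpos : 0 < k := by omega
  have h2k : (2 * k : ℕ) ≠ 0 := by omega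
  have hexp : ((1 : ℝ) / (2 * k)) = (((2 * k : ℕ) : ℝ))⁻¹ := by push_cast; rw [one_div]
  have hexp0 : (0 : ℝ) ≤ (1 : ℝ) / (2 * k) := by positivity
  apply hc _ _ _ (Nat.pow_pos hD) (lt_of_lt_of_le hTk hm) (lt_of_lt_of_le hTk hn)
    ((hm1.trans hn1.symm).of_dvd hMD) hmn
  · intro p hpp hps
    have h1 : p ∣ D := hpp.dvd_of_dvd_pow hps
    have h2 : p ≤ D := Nat.le_of_dvd hD h1
    have h3 : D ^ (2 * k) ≤ D ^ i * min m n := by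
      calc D ^ (2 * k) ≤ D ^ (3 * (2 * k₀)) := Nat.pow_le_pow_right hD (by omega)
        _ = (D ^ 3) ^ (2 * k₀) := by rw [pow_mul]
        _ ≤ T ^ (2 * k₀) := Nat.pow_le_pow_left hDT _
        _ ≤ min m n := le_min hm hn
        _ ≤ D ^ i * min m n := Nat.le_mul_of_pos_left _ (Nat.pow_pos hD)
    calc (p : ℝ) ≤ D := by exact_mod_cast h2
      _ = ((D : ℝ) ^ (2 * k)) ^ ((1 : ℝ) / (2 * k)) := by
          rw [hexp, Real.pow_rpow_inv_natCast (by positivity) h2k]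
      _ ≤ ((D ^ i * min m n : ℕ) : ℝ) ^ ((1 : ℝ) / (2 * k)) := by
          apply Real.rpow_le_rpow (by positivity) _ hexp0
          exact_mod_cast h3
  · intro p hpp hpd
    obtain ⟨h1, h2⟩ := hp p hpp hpd
    refine ⟨?_, h2⟩
    have h3 : D ^ i * max m n ≤ T ^ (2 * k) := by
      calc D ^ i * max m n ≤ D ^ r * max m n :=
            Nat.mul_le_mul_right _ (Nat.pow_le_pow_right hD hi)
        _ ≤ T ^ k := by
            rcases max_choice m n with h | h <;> rw [h] <;> assumption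
        _ ≤ T ^ (2 * k) := Nat.pow_le_pow_right hT (by omega)
    calc ((D ^ i * max m n : ℕ) : ℝ) ^ ((1 : ℝ) / (2 * k))
        ≤ ((T : ℝ) ^ (2 * k)) ^ ((1 : ℝ) / (2 * k)) := by
          apply Real.rpow_le_rpow (by positivity) _ hexp0
          exact_mod_cast h3
      _ = T := by rw [hexp, Real.pow_rpow_inv_natCast (by positivity) h2k]
      _ < p := by exact_mod_cast h1

/-- The last part of the proof: the triple. -/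
theorem triple {k₀ k : ℕ} (hk0 : 0 < k₀) (hk : k = 2 * k₀ + 1) {Q : Set ℕ} {M : ℕ} {δ : ℝ} {φ : ℕ → ℝ} {r : ℕ}
    {c : ℕ → Fin r}
    (hc : ∀ s m n : ℕ, 0 < s → 0 < m → 0 < n → m ≡ n [MOD M] →
      ⌊(Real.log m - φ s) / δ⌋ = ⌊(Real.log n - φ s) / δ⌋ →
      (∀ p : ℕ, p.Prime → p ∣ s → (p : ℝ) ≤ ((s * min m n : ℕ) : ℝ) ^ ((1 : ℝ) / (2 * k))) →
      (∀ p : ℕ, p.Prime → p ∣ m * n →
        ((s * max m n : ℕ) : ℝ) ^ ((1 : ℝ) / (2 * k)) < p ∧ p ∉ Q) →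
      c (s * m) = c (s * n))
    {D T i j e κ ui uj u v x z : ℕ} (hD : 0 < D) (hMD : M ∣ D) (hDT : D ^ 3 ≤ T) (hj : j ≤ r)
    (he : j = i + e) (h2κ : 2 * κ = D ^ e) (hDκ : D ∣ κ ^ 2)
    (hcol : c (D ^ i * ui ^ 2) = c (D ^ j * uj ^ 2))
    (hxw : x + (κ * v) ^ 2 = u ^ 2) (hzw : z = u ^ 2 + (κ * v) ^ 2)
    (hHi : T ^ (2 * k₀) ≤ ui ^ 2) (hHj : T ^ (2 * k₀) ≤ uj ^ 2) (hHx : T ^ (2 * k₀) ≤ x)
    (hHz : T ^ (2 * k₀) ≤ z) (hHy : T ^ (2 * k₀) ≤ u * v)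
    (hBi : D ^ r * ui ^ 2 ≤ T ^ k) (hBj : D ^ r * uj ^ 2 ≤ T ^ k) (hBx : D ^ r * x ≤ T ^ k)
    (hBz : D ^ r * z ≤ T ^ k) (hBy : D ^ r * (u * v) ≤ T ^ k)
    (huiD : ui ≡ 1 [MOD D]) (hujD : uj ≡ 1 [MOD D]) (huD : u ≡ 1 [MOD D]) (hvD : v ≡ 1 [MOD D])
    (hpi : ∀ p : ℕ, p.Prime → p ∣ ui → T < p ∧ p ∉ Q)
    (hpj : ∀ p : ℕ, p.Prime → p ∣ uj → T < p ∧ p ∉ Q)
    (hp : ∀ p : ℕ, p.Prime → (p ∣ u ∨ p ∣ v ∨
          (p : ℤ) ∣ (u : ℤ) ^ 2 - ((κ : ℕ) * v : ℤ) ^ 2 ∨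
          p ∣ u ^ 2 + (κ * v) ^ 2) → T < p ∧ p ∉ Q)
    (c1 : ⌊(Real.log (ui ^ 2 : ℕ) - φ (D ^ i)) / δ⌋ = ⌊(Real.log (x : ℕ) - φ (D ^ i)) / δ⌋)
    (c2 : ⌊(Real.log (ui ^ 2 : ℕ) - φ (D ^ i)) / δ⌋ = ⌊(Real.log (z : ℕ) - φ (D ^ i)) / δ⌋)
    (c3 : ⌊(Real.log (uj ^ 2 : ℕ) - φ (D ^ j)) / δ⌋ =
      ⌊(Real.log (u * v : ℕ) - φ (D ^ j)) / δ⌋) :
    ∃ x y z : ℕ, 0 < x ∧ 0 < y ∧ 0 < z ∧ x ^ 2 + y ^ 2 = z ^ 2 ∧ c x = c y ∧ c y = c z := by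
  have hTpos : 0 < T := lt_of_lt_of_le (Nat.pow_pos hD) hDT
  have huD2 : u ^ 2 ≡ 1 [MOD D] := by simpa using huD.pow 2
  have hwD : (κ * v) ^ 2 ≡ 0 [MOD D] := by
    rw [Nat.modEq_zero_iff_dvd, mul_pow]
    exact hDκ.mul_right _
  have hi3' : ui ^ 2 ≡ 1 [MOD D] := by simpa using huiD.pow 2
  have hj3' : uj ^ 2 ≡ 1 [MOD D] := by simpa using hujD.pow 2
  have hxD : x ≡ 1 [MOD D] := by
    have h1 : x + (κ * v) ^ 2 ≡ 1 + 0 [MOD D] := by rw [hxw]; exact huD2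
    exact Nat.ModEq.add_right_cancel hwD h1
  have hzD : z ≡ 1 [MOD D] := by rw [hzw]; simpa using huD2.add hwD
  have hyD : u * v ≡ 1 [MOD D] := by simpa using huD.mul hvD
  have hpx : ∀ p : ℕ, p.Prime → p ∣ x → T < p ∧ p ∉ Q := by
    intro p hpp hpx
    apply hp p hpp
    right; right; left
    have h1 : ((u : ℤ) ^ 2 - ((κ : ℕ) * v : ℤ) ^ 2) = (x : ℤ) := by
      have : (x : ℤ) + ((κ : ℤ) * v) ^ 2 = (u : ℤ) ^ 2 := by exact_mod_cast hxw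
      rw [← this]; ring
    rw [h1]
    exact_mod_cast hpx
  have hpz : ∀ p : ℕ, p.Prime → p ∣ z → T < p ∧ p ∉ Q := fun p hpp hpz =>
    hp p hpp (Or.inr (Or.inr (Or.inr (by rw [← hzw]; exact hpz))))
  have hpy : ∀ p : ℕ, p.Prime → p ∣ u * v → T < p ∧ p ∉ Q := by
    intro p hpp h
    rcases (hpp.dvd_mul).1 h with h | h
    · exact hp p hpp (Or.inl h)
    · exact hp p hpp (Or.inr (Or.inl h))
  have hpm : ∀ (m n : ℕ), (∀ p : ℕ, p.Prime → p ∣ m → T < p ∧ p ∉ Q) →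
      (∀ p : ℕ, p.Prime → p ∣ n → T < p ∧ p ∉ Q) →
      ∀ p : ℕ, p.Prime → p ∣ m ^ 2 * n → T < p ∧ p ∉ Q := by
    intro m n h1 h2 p hpp h
    rcases (hpp.dvd_mul).1 h with h | h
    · exact h1 p hpp (hpp.dvd_of_dvd_pow h)
    · exact h2 p hpp h
  have e1 : c (D ^ i * ui ^ 2) = c (D ^ i * x) :=
    step hk0 hk hc hD hMD hDT (by omega) hHi hHx hBi hBx hi3' hxD c1 (hpm ui x hpi hpx)
  have e2 : c (D ^ i * ui ^ 2) = c (D ^ i * z) :=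
    step hk0 hk hc hD hMD hDT (by omega) hHi hHz hBi hBz hi3' hzD c2 (hpm ui z hpi hpz)
  have e3 : c (D ^ j * uj ^ 2) = c (D ^ j * (u * v)) :=
    step hk0 hk hc hD hMD hDT hj hHj hHy hBj hBy hj3' hyD c3 (hpm uj (u * v) hpj hpy)
  have hY : D ^ i * (2 * u * (κ * v)) = D ^ j * (u * v) := by
    rw [he, pow_add, ← h2κ]; ring
  refine ⟨D ^ i * x, D ^ i * (2 * u * (κ * v)), D ^ i * z, ?_, ?_, ?_, ?_, ?_, ?_⟩
  · exact Nat.mul_pos (Nat.pow_pos hD) (lt_of_lt_of_le (Nat.pow_pos hTpos) hHx)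
  · rw [hY]
    exact Nat.mul_pos (Nat.pow_pos hD) (lt_of_lt_of_le (Nat.pow_pos hTpos) hHy)
  · exact Nat.mul_pos (Nat.pow_pos hD) (lt_of_lt_of_le (Nat.pow_pos hTpos) hHz)
  · have h1 : x ^ 2 + (2 * u * (κ * v)) ^ 2 = z ^ 2 := by
      have h2 : (x : ℤ) + ((κ : ℤ) * v) ^ 2 = (u : ℤ) ^ 2 := by exact_mod_cast hxw
      have h3 : (x : ℤ) = (u : ℤ) ^ 2 - ((κ : ℤ) * v) ^ 2 := by linarith
      have h4 : (x : ℤ) ^ 2 + (2 * u * (κ * v)) ^ 2 = (z : ℤ) ^ 2 := by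
        rw [h3, hzw]; push_cast; ring
      exact_mod_cast h4
    calc (D ^ i * x) ^ 2 + (D ^ i * (2 * u * (κ * v))) ^ 2 =
        (D ^ i) ^ 2 * (x ^ 2 + (2 * u * (κ * v)) ^ 2) := by ring
      _ = (D ^ i * z) ^ 2 := by rw [h1]; ring
  · rw [hY, ← e1, ← e3, hcol]
  · rw [hY, ← e2, ← e3, hcol]

theorem core (hTRI : S_TRI) {k₀ : ℕ} (hk0 : 0 < k₀) {δ₀ : ℝ}
    (hSP : ∀ E κ : ℕ, Good E κ → ∀ α β : ℕ,
      ∃ T₀ : ℕ, ∀ T : ℕ, T₀ ≤ T → ∀ Q : Set ℕ, ∑ q ∈ QQ Q T (T ^ (2 * k₀ + 1)), (1 : ℝ) / q ≤ δ₀ →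
        ∃ z ∈ Box (α * (T ^ k₀ : ℕ)) (β * (T ^ k₀ : ℕ)) (T ^ k₀) (T ^ k₀),
          ∀ p : ℕ, p.Prime → (p : ℤ) ∣ LP E κ z → T < p ∧ p ∉ Q)
    {k : ℕ} (hk : k = 2 * k₀ + 1) (Q : Set ℕ)
    (M : ℕ) (δ : ℝ) (φ : ℕ → ℝ) (r : ℕ) (c : ℕ → Fin r) (hM : 0 < M) (hδ : 0 < δ)
    (hc : ∀ s m n : ℕ, 0 < s → 0 < m → 0 < n → m ≡ n [MOD M] →
      ⌊(Real.log m - φ s) / δ⌋ = ⌊(Real.log n - φ s) / δ⌋ →
      (∀ p : ℕ, p.Prime → p ∣ s → (p : ℝ) ≤ ((s * min m n : ℕ) : ℝ) ^ ((1 : ℝ) / (2 * k))) →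
      (∀ p : ℕ, p.Prime → p ∣ m * n →
        ((s * max m n : ℕ) : ℝ) ^ ((1 : ℝ) / (2 * k)) < p ∧ p ∉ Q) →
      c (s * m) = c (s * n))
    (D : ℕ) (hDdef : D = 4 * 30030 * M) (α₀ m₀ : ℕ) (hα0pos : 0 < α₀) (hm02 : 2 ≤ m₀) {ε : ℝ}
    (hε : 3 * ((1 : ℝ) / α₀) + 2 * (2 / (m₀ : ℝ) ^ 2) ^ 2 ≤ ε) :
    ∃ T₀ : ℕ, ∀ T : ℕ, T₀ ≤ T → ∑ q ∈ QQ Q T (T ^ k), (1 : ℝ) / q ≤ δ₀ →
    (∀ i : ℕ, i ≤ r → ∀ k' : ℤ, ε < |Real.log (((D ^ (r + 1) * (α₀ * (D ^ r * m₀) ^ (2 * r - i)) *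
      T ^ k₀ : ℕ) : ℝ) ^ 2) - φ (D ^ i) - k' * δ|) →
    ∃ x y z : ℕ, 0 < x ∧ 0 < y ∧ 0 < z ∧ x ^ 2 + y ^ 2 = z ^ 2 ∧ c x = c y ∧ c y = c z := by
  classical
  rcases Nat.eq_zero_or_pos r with hr0 | hr
  · subst hr0
    exact (c 0).elim0
  have hD : 0 < D := by
    rw [hDdef]
    positivity
  have h4 : 4 * 30030 ∣ D := Dvd.intro _ hDdef.symm
  have hMD : M ∣ D := Dvd.intro_left _ hDdef.symm
  have hD2 : 2 ≤ D := by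
    have : 1 ≤ M := hM
    omega
  set E : ℕ := D ^ (r + 1) with hE
  have hEpos : 0 < E := Nat.pow_pos hD
  have hE2 : 2 ≤ E := by
    calc 2 ≤ D := hD2
      _ = D ^ 1 := (pow_one D).symm
      _ ≤ D ^ (r + 1) := Nat.pow_le_pow_right hD (by omega)
  set μ : ℕ := D ^ r * m₀ with hμ
  have hμpos : 0 < μ := Nat.mul_pos (Nat.pow_pos hD) (by omega)
  let α : ℕ → ℕ := fun i => α₀ * μ ^ (2 * r - i)
  let β : ℕ → ℕ → ℕ := fun i j => (D ^ (j - i) / 2) * (α₀ * μ ^ (2 * r + i - 2 * j))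
  set A : ℕ := D ^ r * (α₀ * μ ^ (2 * r)) with hA
  have hαA : ∀ i, α i ≤ A := by
    intro i
    calc α i = 1 * (α₀ * μ ^ (2 * r - i)) := by simp [α]
      _ ≤ D ^ r * (α₀ * μ ^ (2 * r)) := Nat.mul_le_mul (Nat.pow_pos hD)
          (Nat.mul_le_mul_left _ (Nat.pow_le_pow_right hμpos (by omega)))
  have hβA : ∀ i j, i ≤ j → j ≤ r → β i j ≤ A := by
    intro i j hij hj
    refine Nat.mul_le_mul ?_ (Nat.mul_le_mul_left _ (Nat.pow_le_pow_right hμpos (by omega)))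
    calc D ^ (j - i) / 2 ≤ D ^ (j - i) := Nat.div_le_self _ _
      _ ≤ D ^ r := Nat.pow_le_pow_right hD (by omega)
  have hαpos : ∀ i, α₀ ≤ α i := by
    intro i
    exact Nat.le_mul_of_pos_right _ (Nat.pow_pos hμpos)
  -- the thresholds
  have hT := fun (e : ℕ) (he : 1 ≤ e ∧ e ≤ r) (a b : ℕ) => spn hTRI hSP hD h4 e he a b
  choose! Tf hTf using hT
  set T₁ : ℕ := ∑ i ∈ range (r + 1), ∑ j ∈ range (r + 1),
    (Tf 1 (α i) (α i) + Tf (j - i) (α i) (β i j)) with hT1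
  refine ⟨T₁ + D ^ 3 + D ^ r * (2 * (E * (A + 1)) ^ 2) + 1, fun T hTT hQT hgood => ?_⟩
  have hT1T : ∀ i j, i ≤ r → j ≤ r →
      Tf 1 (α i) (α i) + Tf (j - i) (α i) (β i j) ≤ T := by
    intro i j hi hj
    have h1 : Tf 1 (α i) (α i) + Tf (j - i) (α i) (β i j) ≤
        ∑ j ∈ range (r + 1), (Tf 1 (α i) (α i) + Tf (j - i) (α i) (β i j)) :=
      single_le_sum (f := fun j => Tf 1 (α i) (α i) + Tf (j - i) (α i) (β i j))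
        (fun _ _ => Nat.zero_le _) (mem_range.2 (by omega))
    have h2 : ∑ j ∈ range (r + 1), (Tf 1 (α i) (α i) + Tf (j - i) (α i) (β i j)) ≤ T₁ :=
      single_le_sum (f := fun i => ∑ j ∈ range (r + 1),
        (Tf 1 (α i) (α i) + Tf (j - i) (α i) (β i j)))
        (fun _ _ => Nat.zero_le _) (mem_range.2 (by omega))
    omega
  have hDT : D ^ 3 ≤ T := by omega
  have hbigT : D ^ r * (2 * (E * (A + 1)) ^ 2) ≤ T := by omega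
  have hTpos : 0 < T := by omega
  set H : ℕ := T ^ k₀ with hH
  have hHpos : 0 < H := Nat.pow_pos hTpos
  have hH2 : T ^ (2 * k₀) = H ^ 2 := by rw [hH, ← pow_mul, mul_comm]
  have hTk : T ^ k = H ^ 2 * T := by rw [hk, pow_succ, hH2]
  have hQT' : ∑ q ∈ QQ Q T (T ^ (2 * k₀ + 1)), (1 : ℝ) / q ≤ δ₀ := by rw [← hk]; exact hQT
  -- bound for all numbers
  have hbound : ∀ m : ℕ, m ≤ 2 * (E * (A + 1) * H) ^ 2 → D ^ r * m ≤ T ^ k := by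
    intro m hm
    calc D ^ r * m ≤ D ^ r * (2 * (E * (A + 1) * H) ^ 2) := Nat.mul_le_mul_left _ hm
      _ = H ^ 2 * (D ^ r * (2 * (E * (A + 1)) ^ 2)) := by ring
      _ ≤ H ^ 2 * T := Nat.mul_le_mul_left _ hbigT
      _ = T ^ k := hTk.symm
  -- the anchors
  have hanc : ∀ i, i ≤ r → ∃ u : ℕ, E * α i * H ≤ u ∧ u ≤ E * (α i + 1) * H ∧ u ≡ 1 [MOD D] ∧
      ∀ p : ℕ, p.Prime → p ∣ u → T < p ∧ p ∉ Q := by
    intro i hi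
    obtain ⟨u, v, h1, h2, -, -, h5, -, h7⟩ := hTf 1 ⟨le_rfl, hr⟩ (α i) (α i) T
      (by have := hT1T i i hi hi; omega) Q hQT'
    exact ⟨u, h1, h2, h5, fun p hp hpu => h7 p hp (Or.inl hpu)⟩
  choose! ua hua using hanc
  -- pigeonhole
  obtain ⟨i, j, hij, hjr, hcol⟩ : ∃ i j : ℕ, i < j ∧ j ≤ r ∧
      c (D ^ i * ua i ^ 2) = c (D ^ j * ua j ^ 2) := by
    obtain ⟨i, j, hne, heq⟩ := Fintype.exists_ne_map_eq_of_card_lt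
      (fun i : Fin (r + 1) => c (D ^ (i : ℕ) * ua i ^ 2)) (by simp)
    rcases lt_or_gt_of_ne hne with h | h
    · exact ⟨i, j, h, by omega, heq⟩
    · exact ⟨j, i, h, by omega, heq.symm⟩
  have hir : i ≤ r := by omega
  set e : ℕ := j - i with he
  have he1 : 1 ≤ e ∧ e ≤ r := by omega
  set κ : ℕ := D ^ e / 2 with hκ
  obtain ⟨hgd, h2κ, -, -, hDκ⟩ := hTRI D r e hD h4 he1.1 he1.2
  have hκpos : 0 < κ := hgd.pos
  set F : ℕ := E / κ with hF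
  have hFκ : κ * F = E := Nat.mul_div_cancel' hgd.dvd
  have hFpos : 0 < F := Nat.div_pos (Nat.le_of_dvd hEpos hgd.dvd) hgd.pos
  have hFE : F ≤ E := Nat.div_le_self _ _
  obtain ⟨u, v, hu1, hu2, hv1, hv2, huD, hvD, hp⟩ := hTf e he1 (α i) (β i j) T
    ((Nat.le_add_left _ _).trans (hT1T i j hir hjr)) Q hQT'
  set γ : ℕ := α₀ * μ ^ (2 * r + i - 2 * j) with hγ
  have hβγ : β i j = κ * γ := rfl
  have hγpos : α₀ ≤ γ := Nat.le_mul_of_pos_right _ (Nat.pow_pos hμpos)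
  have hβα₀ : α₀ ≤ β i j := by
    rw [hβγ]
    calc α₀ ≤ γ := hγpos
      _ ≤ κ * γ := Nat.le_mul_of_pos_left _ hκpos
  obtain ⟨hαγ, hαj⟩ := expo (α₀ := α₀) (μ := μ) hij hjr
  have hm0R : (2 : ℝ) ≤ m₀ := by exact_mod_cast hm02
  have hθ1 : 2 / (m₀ : ℝ) ^ 2 ≤ 1 / 2 := by
    rw [div_le_iff₀ (by positivity)]
    nlinarith
  have hθ0 : 0 ≤ 2 / (m₀ : ℝ) ^ 2 := by positivity
  have hθ2 : (2 / (m₀ : ℝ) ^ 2) ^ 2 ≤ 1 / 2 := by nlinarith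
  have hα0R : (1 : ℝ) ≤ α₀ := by exact_mod_cast hα0pos
  have ht1 : (1 : ℝ) / α₀ ≤ 1 := by
    rw [div_le_one (by linarith)]
    exact hα0R
  have ht0 : (0 : ℝ) ≤ 1 / α₀ := by positivity
  obtain ⟨hi1, hi2, hi3, hi4⟩ := hua i hir
  obtain ⟨hj1, hj2, hj3, hj4⟩ := hua j hjr
  have hEα : ∀ i, 1 ≤ E * α i := fun i =>
    Nat.mul_pos hEpos (lt_of_lt_of_le hα0pos (hαpos i))
  have hHi0 : H ≤ ua i := (Nat.le_mul_of_pos_left _ (hEα i)).trans hi1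
  have hHj0 : H ≤ ua j := (Nat.le_mul_of_pos_left _ (hEα j)).trans hj1
  have hHu : H ≤ u := (Nat.le_mul_of_pos_left _ (hEα i)).trans hu1
  have hHv : H ≤ v := (Nat.le_mul_of_pos_left _
    (Nat.mul_pos hFpos (lt_of_lt_of_le hα0pos hβα₀))).trans hv1
  have hUVn : (E * α i * H) * (F * β i j * H) = (E * α j * H) ^ 2 := by
    rw [hβγ]
    calc (E * α i * H) * (F * (κ * γ) * H) = (E * (κ * F)) * (α i * γ) * H ^ 2 := by ring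
      _ = (E * E) * α j ^ 2 * H ^ 2 := by rw [hFκ, hαj]
      _ = _ := by ring
  have hws : m₀ ^ 2 * (κ * v) ≤ 2 * (E * α i * H) :=
    wsize hFκ hβγ (lt_of_lt_of_le hα0pos hβα₀) hv2 hD hμ hμpos he1 (Nat.div_le_self _ _) hαγ
  have hwR : ((κ * v : ℕ) : ℝ) ≤ 2 / (m₀ : ℝ) ^ 2 * ((E * α i * H : ℕ) : ℝ) := by
    have h4 : (m₀ : ℝ) ^ 2 * ((κ * v : ℕ) : ℝ) ≤ 2 * ((E * α i * H : ℕ) : ℝ) := by
      exact_mod_cast hws
    have hm0pos : (0 : ℝ) < m₀ := by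
      have : 0 < m₀ := by omega
      exact_mod_cast this
    rw [div_mul_eq_mul_div, le_div_iff₀ (by positivity)]
    linarith
  have h2H : 2 * H ≤ E * α i * H := by
    apply Nat.mul_le_mul_right
    exact hE2.trans (Nat.le_mul_of_pos_right _ (lt_of_lt_of_le hα0pos (hαpos i)))
  have hUpos : (0 : ℝ) < ((E * α i * H : ℕ) : ℝ) := by
    exact_mod_cast (lt_of_lt_of_le hHpos (Nat.le_mul_of_pos_left _ (hEα i)))
  have hWpos : (0 : ℝ) < ((E * α j * H : ℕ) : ℝ) := by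
    exact_mod_cast (lt_of_lt_of_le hHpos (Nat.le_mul_of_pos_left _ (hEα j)))
  obtain ⟨w1, w2, w3, w4, w5, r4, r5⟩ := reals2 (t := 1 / (α₀ : ℝ)) (θ := 2 / (m₀ : ℝ) ^ 2) (ε := ε)
    (U := ((E * α i * H : ℕ) : ℝ)) (V := ((F * β i j * H : ℕ) : ℝ))
    (W := ((E * α j * H : ℕ) : ℝ)) (u := u) (v := v) (w := ((κ * v : ℕ) : ℝ)) (a := ua i)
    (b := ua j) (H := (H : ℝ)) (by positivity) ht1 hε (by positivity) hθ1
    hUpos (Nat.cast_nonneg _) hWpos (by exact_mod_cast hUVn) (by exact_mod_cast hu1)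
    (upn hα0pos (hαpos i) hu2) (by exact_mod_cast hv1) (upn hα0pos hβα₀ hv2)
    (by exact_mod_cast hi1) (upn hα0pos (hαpos i) hi2) (by exact_mod_cast hj1)
    (upn hα0pos (hαpos j) hj2) (Nat.cast_nonneg _) hwR (Nat.cast_nonneg _)
    (by exact_mod_cast h2H)
  have hwu : κ * v < u := by exact_mod_cast r4
  have hw2n : (κ * v) ^ 2 ≤ u ^ 2 := Nat.pow_le_pow_left hwu.le 2
  have hxw : u ^ 2 - (κ * v) ^ 2 + (κ * v) ^ 2 = u ^ 2 := Nat.sub_add_cancel hw2n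
  have hxR : (((u ^ 2 - (κ * v) ^ 2 : ℕ)) : ℝ) = (u : ℝ) ^ 2 - ((κ * v : ℕ) : ℝ) ^ 2 := by
    rw [Nat.cast_sub hw2n, Nat.cast_pow, Nat.cast_pow]
  have hzR : (((u ^ 2 + (κ * v) ^ 2 : ℕ)) : ℝ) = (u : ℝ) ^ 2 + ((κ * v : ℕ) : ℝ) ^ 2 := by
    rw [Nat.cast_add, Nat.cast_pow, Nat.cast_pow]
  have hua_le : ∀ i, ua i ≤ E * (α i + 1) * H → ua i ≤ E * (A + 1) * H := fun i h =>
    h.trans (Nat.mul_le_mul_right _ (Nat.mul_le_mul_left _ (Nat.succ_le_succ (hαA i))))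
  have hu_le : u ≤ E * (A + 1) * H :=
    hu2.trans (Nat.mul_le_mul_right _ (Nat.mul_le_mul_left _ (Nat.succ_le_succ (hαA i))))
  have hv_le : v ≤ E * (A + 1) * H :=
    hv2.trans (Nat.mul_le_mul_right _ (Nat.mul_le_mul hFE (Nat.succ_le_succ
      (hβA i j hij.le hjr))))
  have hu_le2 := Nat.pow_le_pow_left hu_le 2
  have hi_le2 := Nat.pow_le_pow_left (hua_le i hi2) 2
  have hj_le2 := Nat.pow_le_pow_left (hua_le j hj2) 2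
  have hy_le2 : u * v ≤ (E * (A + 1) * H) ^ 2 := by
    rw [pow_two]; exact Nat.mul_le_mul hu_le hv_le
  refine triple hk0 hk hc hD hMD hDT hjr (e := e) (i := i) (j := j) (κ := κ) (ui := ua i)
    (uj := ua j) (u := u) (v := v) (x := u ^ 2 - (κ * v) ^ 2) (z := u ^ 2 + (κ * v) ^ 2)
    (by omega) h2κ hDκ hcol hxw rfl ?_ ?_ ?_ ?_ ?_ (hbound _ ?_) (hbound _ ?_) (hbound _ ?_)
    (hbound _ ?_) (hbound _ ?_) hi3 hj3 huD hvD hi4 hj4 hp ?_ ?_ ?_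
  · rw [hH2]; exact Nat.pow_le_pow_left hHi0 2
  · rw [hH2]; exact Nat.pow_le_pow_left hHj0 2
  · rw [hH2]
    have : ((H ^ 2 : ℕ) : ℝ) ≤ ((u ^ 2 - (κ * v) ^ 2 : ℕ) : ℝ) := by
      rw [hxR, Nat.cast_pow]; exact r5
    exact_mod_cast this
  · rw [hH2]; exact (Nat.pow_le_pow_left hHu 2).trans (Nat.le_add_right _ _)
  · rw [hH2, pow_two]; exact Nat.mul_le_mul hHu hHv
  · exact hi_le2.trans (Nat.le_mul_of_pos_left _ two_pos)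
  · exact hj_le2.trans (Nat.le_mul_of_pos_left _ two_pos)
  · exact ((Nat.sub_le _ _).trans hu_le2).trans (Nat.le_mul_of_pos_left _ two_pos)
  · rw [two_mul]; exact Nat.add_le_add hu_le2 (hw2n.trans hu_le2)
  · exact hy_le2.trans (Nat.le_mul_of_pos_left _ two_pos)
  · rw [hxR, Nat.cast_pow]; exact cell hδ (hgood i hir) w1 w2
  · rw [hzR, Nat.cast_pow]; exact cell hδ (hgood i hir) w1 w3
  · rw [Nat.cast_mul, Nat.cast_pow]; exact cell hδ (hgood j hjr) w4 w5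

theorem main_aux (hTRI : S_TRI) (hSCA : S_SCA) {k₀ : ℕ} (hk0 : 0 < k₀) {δ₀ : ℝ}
    (hSP : ∀ E κ : ℕ, Good E κ → ∀ α β : ℕ,
      ∃ T₀ : ℕ, ∀ T : ℕ, T₀ ≤ T → ∀ Q : Set ℕ, ∑ q ∈ QQ Q T (T ^ (2 * k₀ + 1)), (1 : ℝ) / q ≤ δ₀ →
        ∃ z ∈ Box (α * (T ^ k₀ : ℕ)) (β * (T ^ k₀ : ℕ)) (T ^ k₀) (T ^ k₀),
          ∀ p : ℕ, p.Prime → (p : ℤ) ∣ LP E κ z → T < p ∧ p ∉ Q)
    {k : ℕ} (hk : k = 2 * k₀ + 1) (Q : Set ℕ)
    (hQ : ∃ᶠ N : ℕ in Filter.atTop,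
      ∑ q ∈ QQ Q ⌊(N : ℝ) ^ ((1 : ℝ) / (2 * k))⌋₊ N, (1 : ℝ) / q ≤ δ₀)
    (M : ℕ) (δ : ℝ) (φ : ℕ → ℝ) (r : ℕ) (c : ℕ → Fin r) (hM : 0 < M) (hδ : 0 < δ)
    (hc : ∀ s m n : ℕ, 0 < s → 0 < m → 0 < n → m ≡ n [MOD M] →
      ⌊(Real.log m - φ s) / δ⌋ = ⌊(Real.log n - φ s) / δ⌋ →
      (∀ p : ℕ, p.Prime → p ∣ s → (p : ℝ) ≤ ((s * min m n : ℕ) : ℝ) ^ ((1 : ℝ) / (2 * k))) →
      (∀ p : ℕ, p.Prime → p ∣ m * n →
        ((s * max m n : ℕ) : ℝ) ^ ((1 : ℝ) / (2 * k)) < p ∧ p ∉ Q) →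
      c (s * m) = c (s * n)) :
    ∃ x y z : ℕ, 0 < x ∧ 0 < y ∧ 0 < z ∧ x ^ 2 + y ^ 2 = z ^ 2 ∧ c x = c y ∧ c y = c z := by
  have hR : (0 : ℝ) < ((r + 2 : ℕ) : ℝ) := by positivity
  set ε : ℝ := δ / (r + 2 : ℕ) / 8 with hεdef
  have hεpos : 0 < ε := by positivity
  set N₀ : ℕ := ⌈6 / ε⌉₊ + 1 with hN0
  set m₀ : ℕ := ⌈8 / ε⌉₊ + 2 with hm0
  obtain ⟨A, a, ha⟩ := cand hδ hεpos (r + 2) N₀ (by omega)
  have hN0ε : 3 * ((1 : ℝ) / N₀) ≤ ε / 2 := by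
    have h1 : 6 / ε ≤ N₀ := by
      have := Nat.le_ceil (6 / ε)
      rw [hN0]; push_cast; linarith
    have hN0R : (1 : ℝ) ≤ N₀ := by
      have : 1 ≤ N₀ := by omega
      exact_mod_cast this
    rw [div_le_iff₀ hεpos] at h1
    rw [mul_one_div, div_le_iff₀ (by linarith)]
    linarith
  have hm02 : 2 ≤ m₀ := by omega
  have hm0ε : 2 * (2 / (m₀ : ℝ) ^ 2) ^ 2 ≤ ε / 2 := by
    have hm0R : 8 / ε ≤ (m₀ : ℝ) := by
      have := Nat.le_ceil (8 / ε)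
      rw [hm0]; push_cast; linarith
    have hm02R : (2 : ℝ) ≤ m₀ := by exact_mod_cast hm02
    have hθ1 : 2 / (m₀ : ℝ) ^ 2 ≤ 1 / 2 := by
      rw [div_le_iff₀ (by positivity)]
      nlinarith
    have hθ0 : 0 ≤ 2 / (m₀ : ℝ) ^ 2 := by positivity
    have h1 : 2 / (m₀ : ℝ) ^ 2 ≤ 4 / m₀ := by
      rw [div_le_div_iff₀ (by positivity) (by positivity)]
      nlinarith
    have h2 : 4 / (m₀ : ℝ) ≤ ε / 2 := by
      rw [div_le_iff₀ (by linarith)]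
      rw [div_le_iff₀ hεpos] at hm0R
      linarith
    nlinarith
  have hpos : ∀ l, 0 < a l := fun l => lt_of_lt_of_le (by omega) (ha l).1
  have hcore := fun l => core hTRI hk0 hSP hk Q M δ φ r c hM hδ hc (4 * 30030 * M) rfl (a l) m₀
    (hpos l) hm02 (ε := ε) (by
      have h1 : (1 : ℝ) / a l ≤ 1 / N₀ := by
        apply one_div_le_one_div_of_le
        · have : 0 < N₀ := by omega
          exact_mod_cast this
        · exact_mod_cast (ha l).1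
      linarith)
  choose Tl hTl using hcore
  obtain ⟨T, hTT, hQT⟩ := hSCA k (by omega) δ₀ Q hQ (∑ l ∈ range (r + 2), Tl l + 1)
  set D : ℕ := 4 * 30030 * M with hD
  have hDpos : 0 < D := by positivity
  have hTpos : 0 < T := by omega
  obtain ⟨l, hl, hgood⟩ := good hδ a (fun l => (ha l).2) (ε := ε) (by
    rw [hεdef]
    have : 0 < δ / (r + 2 : ℕ) := by positivity
    linarith) (fun i => 2 * Real.log ((D ^ (r + 1) * (D ^ r * m₀) ^ (2 * r - i) * T ^ k₀ : ℕ) : ℝ) -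
      φ (D ^ i))
  have hTlT : Tl l ≤ T := by
    have h1 : Tl l ≤ ∑ l ∈ range (r + 2), Tl l :=
      single_le_sum (f := fun l => Tl l) (fun _ _ => Nat.zero_le _) (mem_range.2 hl)
    omega
  refine hTl l T hTlT hQT fun i hi k' => ?_
  have h1 := hgood i hi k'
  have hap : (0 : ℝ) < a l := by exact_mod_cast hpos l
  have hbp : (0 : ℝ) < ((D ^ (r + 1) * (D ^ r * m₀) ^ (2 * r - i) * T ^ k₀ : ℕ) : ℝ) := by
    have : 0 < D ^ (r + 1) * (D ^ r * m₀) ^ (2 * r - i) * T ^ k₀ := by positivity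
    exact_mod_cast this
  have h2 : ((D ^ (r + 1) * (a l * (D ^ r * m₀) ^ (2 * r - i)) * T ^ k₀ : ℕ) : ℝ) =
      (a l : ℝ) * ((D ^ (r + 1) * (D ^ r * m₀) ^ (2 * r - i) * T ^ k₀ : ℕ) : ℝ) := by
    push_cast
    ring
  rw [h2, mul_pow, Real.log_mul (by positivity) (by positivity), Real.log_pow, Real.log_pow]
  have h3 : 2 * Real.log (a l) + (2 * Real.log ((D ^ (r + 1) * (D ^ r * m₀) ^ (2 * r - i) *
      T ^ k₀ : ℕ) : ℝ) - φ (D ^ i)) - k' * δ = ((2 : ℕ) : ℝ) * Real.log (a l) +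
      ((2 : ℕ) : ℝ) * Real.log ((D ^ (r + 1) * (D ^ r * m₀) ^ (2 * r - i) * T ^ k₀ : ℕ) : ℝ) -
      φ (D ^ i) - k' * δ := by
    push_cast
    ring
  rw [← h3]
  exact h1

end I_FIN2

theorem FIN2_pf (hTRI : S_TRI) (hSCA : S_SCA) : S_FIN2 := by
  intro hSP
  obtain ⟨k₀, hk0, δ₀, hδ0, hSP⟩ := hSP
  refine ⟨(1 : ℝ) / (2 * ((2 * k₀ + 1 : ℕ) : ℝ)), by positivity, δ₀, hδ0, ?_⟩
  intro Q hQ M δ θ r c hM hδ hc
  exact I_FIN2.main_aux hTRI hSCA hk0 hSP rfl Q hQ M δ θ r c hM hδ hc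

end Pool.Agent.Work.MP_0f91f8_co.Rg
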