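import Pool.Agent.Work.MP_0f91f8_co.Rg.Stmts

set_option autoImplicit false

namespace Pool.Agent.Work.MP_0f91f8_co.Rg

open Finset

namespace I_GAU

/-- The second coordinate multiplied by `κ`. -/
lemma kv (E κ : ℕ) (hg : Good E κ) (z : Z2) : (κ : ℤ) * vv E κ z = κ + E * z.2 := by
  obtain ⟨m, hm⟩ := hg.dvd
  have hk : 0 < κ := hg.pos
  have : E / κ = m := by rw [hm]; exact Nat.mul_div_cancel_left _ hk
  unfold vv
  rw [this, hm]
  push_cast
  ring

lemma ll4 (E κ : ℕ) (hg : Good E κ) (z : Z2) :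
    LL E κ 4 z = (1 + E * z.1) ^ 2 + (κ + E * z.2) ^ 2 := by
  have : LL E κ 4 z = uu E z ^ 2 + (κ * vv E κ z) ^ 2 := by
    unfold LL
    simp
  rw [this, kv E κ hg]
  rfl

lemma ll0 (E κ : ℕ) (z : Z2) : LL E κ 0 z = 1 + E * z.1 := by
  unfold LL
  simp [uu]

/-- The lattice of a Gaussian prime. -/
lemma core (E κ : ℕ) (q : ℕ) (hq : q.Prime) (hqE : ¬ q ∣ E) (A B : ℤ) (H : ℕ) (S : ℕ)
    (hS : ∀ s : ℤ, (q : ℤ) * s ^ 2 ≤ 2 * (H : ℤ) ^ 2 → |s| ≤ S)
    (x y : ℤ) (hxy : x ^ 2 + y ^ 2 = q) :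
    ∃ φ : Aff, |φ.det| = q ∧ ∀ z ∈ Box A B H H,
      (q : ℤ) ∣ (1 + E * z.1) ^ 2 + (κ + E * z.2) ^ 2 →
      (q : ℤ) ∣ (1 + E * z.1) * x + (κ + E * z.2) * y →
      ∃ w ∈ Box (-S) (-S) (2 * S + 1) (2 * S + 1), φ.ap w = z := by
  classical
  have hqp : Prime (q : ℤ) := Nat.prime_iff_prime_int.mp hq
  have hq0 : (0 : ℤ) < q := by exact_mod_cast hq.pos
  have hqE' : ¬ (q : ℤ) ∣ (E : ℤ) := by
    intro h; exact hqE (by exact_mod_cast h)
  have second : ∀ a b : ℤ, (q : ℤ) ∣ (1 + E * a) ^ 2 + (κ + E * b) ^ 2 →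
      (q : ℤ) ∣ (1 + E * a) * x + (κ + E * b) * y →
      (q : ℤ) ∣ (1 + E * a) * y - (κ + E * b) * x := by
    intro a b _ h2
    have h3 : (q : ℤ) ∣ ((1 + E * a) * y - (κ + E * b) * x) ^ 2 := by
      have e : ((1 + E * a) * y - (κ + E * b) * x) ^ 2 =
          q * ((1 + E * a) ^ 2 + (κ + E * b) ^ 2) -
            ((1 + E * a) * x + (κ + E * b) * y) ^ 2 := by
        rw [← hxy]; ring
      rw [e]
      exact dvd_sub (dvd_mul_right _ _) (h2.pow (by norm_num))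
    exact hqp.dvd_of_dvd_pow h3
  by_cases hex : ∃ z ∈ Box A B H H, (q : ℤ) ∣ (1 + E * z.1) ^ 2 + (κ + E * z.2) ^ 2 ∧
      (q : ℤ) ∣ (1 + E * z.1) * x + (κ + E * z.2) * y
  · obtain ⟨⟨a₁, b₁⟩, hz1, h1, h2⟩ := hex
    refine ⟨⟨a₁, b₁, x, -y, y, x⟩, ?_, ?_⟩
    · have : (Aff.det ⟨a₁, b₁, x, -y, y, x⟩ : ℤ) = q := by
        rw [← hxy]; simp only [Aff.det]; ring
      rw [this]
      exact abs_of_pos hq0
    · rintro ⟨a, b⟩ hz h3 h4
      simp only at h1 h2 h3 h4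
      have h5 := second a₁ b₁ h1 h2
      have h6 := second a b h3 h4
      have d1 : (q : ℤ) ∣ x * (a - a₁) + y * (b - b₁) := by
        have : (q : ℤ) ∣ E * (x * (a - a₁) + y * (b - b₁)) := by
          have e : (E : ℤ) * (x * (a - a₁) + y * (b - b₁)) =
            ((1 + E * a) * x + (κ + E * b) * y) - ((1 + E * a₁) * x + (κ + E * b₁) * y) := by
            ring
          rw [e]; exact dvd_sub h4 h2
        rcases hqp.dvd_or_dvd this with h | h
        · exact absurd h hqE'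
        · exact h
      have d2 : (q : ℤ) ∣ x * (b - b₁) - y * (a - a₁) := by
        have : (q : ℤ) ∣ E * (x * (b - b₁) - y * (a - a₁)) := by
          have e : (E : ℤ) * (x * (b - b₁) - y * (a - a₁)) =
            ((1 + E * a₁) * y - (κ + E * b₁) * x) - ((1 + E * a) * y - (κ + E * b) * x) := by
            ring
          rw [e]; exact dvd_sub h5 h6
        rcases hqp.dvd_or_dvd this with h | h
        · exact absurd h hqE'
        · exact h
      obtain ⟨s, hs⟩ := d1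
      obtain ⟨t, ht⟩ := d2
      have ea : x * s - y * t = a - a₁ := by
        have : (q : ℤ) * (x * s - y * t) = q * (a - a₁) := by
          have e : (q : ℤ) * (x * s - y * t) = x * (q * s) - y * (q * t) := by ring
          rw [e, ← hs, ← ht, ← hxy]; ring
        exact mul_left_cancel₀ hq0.ne' this
      have eb : y * s + x * t = b - b₁ := by
        have : (q : ℤ) * (y * s + x * t) = q * (b - b₁) := by
          have e : (q : ℤ) * (y * s + x * t) = y * (q * s) + x * (q * t) := by ring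
          rw [e, ← hs, ← ht, ← hxy]; ring
        exact mul_left_cancel₀ hq0.ne' this
      have est : (q : ℤ) * (s ^ 2 + t ^ 2) = (a - a₁) ^ 2 + (b - b₁) ^ 2 := by
        rw [← ea, ← eb, ← hxy]; ring
      unfold Box at hz hz1
      rw [mem_product, mem_Ico, mem_Ico] at hz hz1
      simp only at hz hz1
      obtain ⟨⟨ha, ha'⟩, hb, hb'⟩ := hz
      obtain ⟨⟨ha1, ha1'⟩, hb1, hb1'⟩ := hz1
      have sqa : (a - a₁) ^ 2 ≤ (H : ℤ) ^ 2 := by
        apply sq_le_sq'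
        · linarith
        · linarith
      have sqb : (b - b₁) ^ 2 ≤ (H : ℤ) ^ 2 := by
        apply sq_le_sq'
        · linarith
        · linarith
      have hs2 : |s| ≤ S := by
        apply hS
        have : 0 ≤ (q : ℤ) * t ^ 2 := by positivity
        nlinarith [est, sqa, sqb, this]
      have ht2 : |t| ≤ S := by
        apply hS
        have : 0 ≤ (q : ℤ) * s ^ 2 := by positivity
        nlinarith [est, sqa, sqb, this]
      rw [abs_le] at hs2 ht2
      refine ⟨(s, t), ?_, ?_⟩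
      · unfold Box
        rw [mem_product, mem_Ico, mem_Ico]
        push_cast
        refine ⟨⟨?_, ?_⟩, ?_, ?_⟩ <;> linarith [hs2.1, hs2.2, ht2.1, ht2.2]
      · simp only [Aff.ap]
        refine Prod.ext ?_ ?_
        · simp only; linarith [ea]
        · simp only; linarith [eb]
  · refine ⟨⟨0, 0, q, 0, 0, 1⟩, ?_, ?_⟩
    · simp [Aff.det]
    · intro z hz h3 h4
      exact absurd ⟨z, hz, h3, h4⟩ hex

end I_GAU

open I_GAU in
theorem GAU_pf : S_GAU := by
  intro E κ hg q hq hqE A B H hqH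
  have hq0 : 0 < q := hq.pos
  have hqp : Prime (q : ℤ) := Nat.prime_iff_prime_int.mp hq
  by_cases h34 : q % 4 = 3
  · refine ⟨⟨0, 0, q, 0, 0, 1⟩, ⟨0, 0, q, 0, 0, 1⟩, 0, 0, 0, 0, 0, ?_, ?_, ?_, ?_⟩
    · simp [Aff.det]
    · simp [Aff.det]
    · simp
    · intro z _ h4
      left
      rw [ll4 E κ hg] at h4
      rw [ll0]
      have : Fact q.Prime := ⟨hq⟩
      by_contra hu
      have hu' : (((1 + E * z.1 : ℤ)) : ZMod q) ≠ 0 := by
        intro h
        exact hu ((ZMod.intCast_zmod_eq_zero_iff_dvd _ _).mp h)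
      have h5 : (((1 + E * z.1) ^ 2 + (κ + E * z.2) ^ 2 : ℤ) : ZMod q) = 0 :=
        (ZMod.intCast_zmod_eq_zero_iff_dvd _ _).mpr h4
      have h6 : ((κ + E * z.2 : ℤ) : ZMod q) ^ 2 = - ((1 + E * z.1 : ℤ) : ZMod q) ^ 2 := by
        push_cast at h5 ⊢
        linear_combination h5
      exact ZMod.mod_four_ne_three_of_sq_eq_neg_sq' hu' h6 h34
  · have : Fact q.Prime := ⟨hq⟩
    obtain ⟨x, y, hxy⟩ := Nat.Prime.sq_add_sq (p := q) h34
    have hxyz : (x : ℤ) ^ 2 + (y : ℤ) ^ 2 = q := by exact_mod_cast hxy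
    have hxyz' : (x : ℤ) ^ 2 + (-(y : ℤ)) ^ 2 = q := by rw [neg_sq]; exact hxyz
    set S : ℕ := Nat.sqrt (2 * H ^ 2 / q) with hSdef
    have hS1 : 1 ≤ S := by
      rw [hSdef, Nat.le_sqrt, mul_one]
      rw [Nat.le_div_iff_mul_le hq0]
      omega
    have hS2 : S ^ 2 * q ≤ 2 * H ^ 2 := by
      have h1 : S ^ 2 ≤ 2 * H ^ 2 / q := by
        rw [sq]; exact Nat.sqrt_le _
      calc S ^ 2 * q ≤ (2 * H ^ 2 / q) * q := Nat.mul_le_mul_right _ h1
        _ ≤ 2 * H ^ 2 := Nat.div_mul_le_self _ _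
    have hS3 : ∀ s : ℤ, (q : ℤ) * s ^ 2 ≤ 2 * (H : ℤ) ^ 2 → |s| ≤ S := by
      intro s hs
      have h1 : (q : ℤ) * (s.natAbs : ℤ) ^ 2 ≤ 2 * (H : ℤ) ^ 2 := by
        rw [Int.natAbs_sq]; exact hs
      have h2 : q * s.natAbs ^ 2 ≤ 2 * H ^ 2 := by exact_mod_cast h1
      have h3 : s.natAbs ≤ S := by
        rw [hSdef, Nat.le_sqrt]
        rw [Nat.le_div_iff_mul_le hq0]
        calc s.natAbs * s.natAbs * q = q * s.natAbs ^ 2 := by ring
          _ ≤ 2 * H ^ 2 := h2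
      rw [← Int.natCast_natAbs]
      exact_mod_cast h3
    obtain ⟨φ, hφ, hφ'⟩ := core E κ q hq hqE A B H S hS3 x y hxyz
    obtain ⟨ψ, hψ, hψ'⟩ := core E κ q hq hqE A B H S hS3 x (-y) hxyz'
    refine ⟨φ, ψ, -S, -S, -S, -S, 2 * S + 1, hφ, hψ, ?_, ?_⟩
    · calc (2 * S + 1) ^ 2 * q ≤ (3 * S) ^ 2 * q := by gcongr; omega
        _ = 9 * (S ^ 2 * q) := by ring
        _ ≤ 9 * (2 * H ^ 2) := by gcongr
        _ = 18 * H ^ 2 := by ring
    · intro z hz h4
      rw [ll4 E κ hg] at h4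
      have hprod : (q : ℤ) ∣ ((1 + E * z.1) * x + (κ + E * z.2) * y) *
          ((1 + E * z.1) * x + (κ + E * z.2) * (-y)) := by
        have e : ((1 + E * z.1) * x + (κ + E * z.2) * y) *
          ((1 + E * z.1) * x + (κ + E * z.2) * (-y)) =
          (1 + E * z.1) ^ 2 * (q : ℤ) - y ^ 2 * ((1 + E * z.1) ^ 2 + (κ + E * z.2) ^ 2) := by
          rw [← hxyz]; ring
        rw [e]
        exact dvd_sub (dvd_mul_left _ _) (dvd_mul_of_dvd_right h4 _)
      rcases hqp.dvd_or_dvd hprod with h | h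
      · right; left
        exact hφ' z hz h4 h
      · right; right
        exact hψ' z hz h4 h

end Pool.Agent.Work.MP_0f91f8_co.Rg
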