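import Pool.Agent.Work.MP_0f91f8_co.Rg.Stmts

/-!
# The points of a box at which `q` divides a linear form
-/

set_option autoImplicit false

namespace Pool.Agent.Work.MP_0f91f8_co.Rg

open Finset

namespace I_LIN

/-- The range of the quotient. -/
lemma range_s {q : ℕ} (hq : 0 < q) (s D : ℤ) (K : ℕ) (h1 : D ≤ q * s) (h2 : q * s < D + K) :
    D / q ≤ s ∧ s < D / q + ((K / q + 2 : ℕ) : ℤ) := by
  have hq' : (0 : ℤ) < q := by exact_mod_cast hq
  have h3 : (q : ℤ) * (D / q) ≤ D := Int.mul_ediv_self_le hq'.ne'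
  have h4 : D < (q : ℤ) * (D / q) + q := Int.lt_mul_ediv_self_add hq'
  have h5 : (K : ℤ) < (q : ℤ) * ((K / q : ℕ) : ℤ) + q := by
    have := Nat.lt_mul_div_succ K hq
    have h6 : K < q * (K / q) + q := by
      calc K < q * (K / q + 1) := this
        _ = q * (K / q) + q := by ring
    exact_mod_cast h6
  constructor
  · exact Int.ediv_le_of_le_mul hq' (by rw [mul_comm]; exact h1)
  · push_cast
    by_contra hcon
    push Not at hcon
    have h7 : (q : ℤ) * (D / q + (((K / q : ℕ) : ℤ) + 2)) ≤ q * s :=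
      mul_le_mul_of_nonneg_left (by push_cast; linarith) hq'.le
    push_cast at h5
    nlinarith

/-- A congruence `q ∣ c + E x` is a residue class. -/
lemma solve {q E : ℕ} (hq : q.Prime) (hE : ¬ q ∣ E) (c : ℤ) :
    ∃ x₀ : ℤ, ∀ x : ℤ, (q : ℤ) ∣ c + E * x → ∃ s : ℤ, x = x₀ + q * s := by
  have hcop : IsCoprime (E : ℤ) (q : ℤ) := by
    rw [Nat.isCoprime_iff_coprime]
    exact ((Nat.Prime.coprime_iff_not_dvd hq).2 hE).symm
  obtain ⟨u, v, huv⟩ := hcop
  refine ⟨-(u * c), fun x hx => ?_⟩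
  have h1 : (q : ℤ) ∣ E * (x + u * c) := by
    have h2 : (E : ℤ) * (x + u * c) = (c + E * x) - q * (v * c) := by
      have h3 : (E : ℤ) * u = 1 - v * q := by linarith
      linear_combination c * h3
    rw [h2]
    exact dvd_sub hx (dvd_mul_right _ _)
  have h4 : IsCoprime (q : ℤ) (E : ℤ) := ⟨v, u, by linarith⟩
  obtain ⟨s, hs⟩ := h4.dvd_of_dvd_mul_left h1
  exact ⟨s, by linarith⟩

lemma card_bound {q H : ℕ} (K : ℕ) (hK : K ≤ 2 * H) (hqH : q ≤ H) :
    (K / q + 2) * q ≤ 4 * H := by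
  have h1 : K / q * q ≤ K := Nat.div_mul_le_self K q
  calc (K / q + 2) * q = K / q * q + 2 * q := by ring
    _ ≤ K + 2 * q := by omega
    _ ≤ 4 * H := by omega

lemma LL0 (E κ : ℕ) (z : Z2) : LL E κ 0 z = 1 + E * z.1 := by
  simp [LL, uu]

lemma LL1 (E κ : ℕ) (z : Z2) : LL E κ 1 z = 1 + ((E / κ : ℕ) : ℤ) * z.2 := by
  simp [LL, vv]

lemma LL2 (E κ : ℕ) (h : κ ∣ E) (z : Z2) : LL E κ 2 z = (1 - κ) + E * (z.1 - z.2) := by
  have h1 : (κ : ℤ) * ((E / κ : ℕ) : ℤ) = E := by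
    exact_mod_cast Nat.mul_div_cancel' h
  have h2 : LL E κ 2 z = uu E z - κ * vv E κ z := by
    simp [LL]
  rw [h2, uu, vv]
  linear_combination (-z.2) * h1

lemma LL3 (E κ : ℕ) (h : κ ∣ E) (z : Z2) : LL E κ 3 z = (1 + κ) + E * (z.1 + z.2) := by
  have h1 : (κ : ℤ) * ((E / κ : ℕ) : ℤ) = E := by
    exact_mod_cast Nat.mul_div_cancel' h
  have h2 : LL E κ 3 z = uu E z + κ * vv E κ z := by
    simp [LL]
  rw [h2, uu, vv]
  linear_combination z.2 * h1

end I_LIN

open I_LIN in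
/-- Lines modulo `q` in a box. -/
theorem LIN_pf : S_LIN := by
  intro E κ hG q hq hqE i hi A B H hqH
  have hq0 : 0 < q := hq.pos
  have hqE' : ¬ q ∣ E / κ := fun h => hqE (h.trans (Nat.div_dvd_of_dvd hG.dvd))
  have hqabs : |(q : ℤ)| = q := abs_of_nonneg (by positivity)
  fin_cases i
  · -- `u`
    obtain ⟨x₀, hx₀⟩ := solve hq hqE 1
    refine ⟨⟨x₀, 0, q, 0, 0, 1⟩, (A - x₀) / q, B, H / q + 2, H, ?_, card_bound H (by omega) hqH,
      le_rfl, ?_⟩
    · simp [Aff.det]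
    · intro z hz hdvd
      unfold Box at hz ⊢
      rw [mem_product, mem_Ico, mem_Ico] at hz
      have hdvd' : (q : ℤ) ∣ 1 + E * z.1 := by
        have := hdvd
        simpa [LL, uu] using this
      obtain ⟨s, hs⟩ := hx₀ z.1 hdvd'
      obtain ⟨h1, h2⟩ := range_s hq0 s (A - x₀) H (by linarith [hz.1.1]) (by linarith [hz.1.2])
      refine ⟨(s, z.2), ?_, ?_⟩
      · rw [mem_product, mem_Ico, mem_Ico]
        exact ⟨⟨h1, h2⟩, hz.2⟩
      · simp only [Aff.ap]
        ext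
        · simp only; linarith
        · simp only; linarith
  · -- `v`
    obtain ⟨x₀, hx₀⟩ := solve hq hqE' 1
    refine ⟨⟨0, x₀, 0, 1, q, 0⟩, (B - x₀) / q, A, H / q + 2, H, ?_, card_bound H (by omega) hqH,
      le_rfl, ?_⟩
    · simp [Aff.det]
    · intro z hz hdvd
      unfold Box at hz ⊢
      rw [mem_product, mem_Ico, mem_Ico] at hz
      have hdvd' : (q : ℤ) ∣ 1 + ((E / κ : ℕ) : ℤ) * z.2 := by
        have := hdvd
        simpa [LL, vv] using this
      obtain ⟨s, hs⟩ := hx₀ z.2 hdvd'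
      obtain ⟨h1, h2⟩ := range_s hq0 s (B - x₀) H (by linarith [hz.2.1]) (by linarith [hz.2.2])
      refine ⟨(s, z.1), ?_, ?_⟩
      · rw [mem_product, mem_Ico, mem_Ico]
        exact ⟨⟨h1, h2⟩, hz.1⟩
      · simp only [Aff.ap]
        ext
        · simp only; linarith
        · simp only; linarith
  · -- `u - κ v`
    obtain ⟨x₀, hx₀⟩ := solve hq hqE (1 - κ)
    refine ⟨⟨x₀, 0, q, 1, 0, 1⟩, (A - B - H - x₀) / q, B, 2 * H / q + 2, H, ?_,
      card_bound (2 * H) le_rfl hqH, le_rfl, ?_⟩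
    · simp [Aff.det]
    · intro z hz hdvd
      unfold Box at hz ⊢
      rw [mem_product, mem_Ico, mem_Ico] at hz
      have hdvd' : (q : ℤ) ∣ (1 - κ) + E * (z.1 - z.2) := by
        rw [← LL2 E κ hG.dvd z]
        exact hdvd
      obtain ⟨s, hs⟩ := hx₀ (z.1 - z.2) hdvd'
      obtain ⟨h1, h2⟩ := range_s hq0 s (A - B - H - x₀) (2 * H)
        (by linarith [hz.1.1, hz.2.2]) (by push_cast; linarith [hz.1.2, hz.2.1])
      refine ⟨(s, z.2), ?_, ?_⟩
      · rw [mem_product, mem_Ico, mem_Ico]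
        exact ⟨⟨h1, h2⟩, hz.2⟩
      · simp only [Aff.ap]
        ext
        · simp only; linarith
        · simp only; linarith
  · -- `u + κ v`
    obtain ⟨x₀, hx₀⟩ := solve hq hqE (1 + κ)
    refine ⟨⟨x₀, 0, q, -1, 0, 1⟩, (A + B - x₀) / q, B, 2 * H / q + 2, H, ?_,
      card_bound (2 * H) le_rfl hqH, le_rfl, ?_⟩
    · simp [Aff.det]
    · intro z hz hdvd
      unfold Box at hz ⊢
      rw [mem_product, mem_Ico, mem_Ico] at hz
      have hdvd' : (q : ℤ) ∣ (1 + κ) + E * (z.1 + z.2) := by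
        rw [← LL3 E κ hG.dvd z]
        exact hdvd
      obtain ⟨s, hs⟩ := hx₀ (z.1 + z.2) hdvd'
      obtain ⟨h1, h2⟩ := range_s hq0 s (A + B - x₀) (2 * H)
        (by linarith [hz.1.1, hz.2.1]) (by push_cast; linarith [hz.1.2, hz.2.2])
      refine ⟨(s, z.2), ?_, ?_⟩
      · rw [mem_product, mem_Ico, mem_Ico]
        exact ⟨⟨h1, h2⟩, hz.2⟩
      · simp only [Aff.ap]
        ext
        · simp only; linarith
        · simp only; linarith
  · exact absurd rfl hi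

end Pool.Agent.Work.MP_0f91f8_co.Rg
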