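import Pool.Agent.Work.MP_0f91f8_co.Rg.Stmts

/-!
# The local identity at a prime `q` which divides `L`
-/

set_option autoImplicit false

namespace Pool.Agent.Work.MP_0f91f8_co.Rg

open Finset

namespace I_LOC

/-- The sets of `Sq P R` which contain `q` correspond to the sets `S` with `q ∉ S` and
`q ∏ S ≤ R`. -/
lemma sum_mem (P : Finset ℕ) (ψ : ℕ → Z2 → ℝ) (R q : ℕ) (z : Z2) (hP : ∀ p ∈ P, p.Prime)
    (hq : q ∈ P) (hψ : ψ q z = -1) :
    ∑ S ∈ (Sq P R).filter (fun S => q ∈ S), Pr ψ S z =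
      -∑ S ∈ (Sq P R).filter (fun S => q ∉ S ∧ q * ∏ p ∈ S, p ≤ R), Pr ψ S z := by
  rw [← Finset.sum_neg_distrib]
  refine Finset.sum_bij' (fun S _ => S.erase q) (fun S _ => insert q S) ?_ ?_ ?_ ?_ ?_
  · intro S hS
    rw [mem_filter] at hS
    obtain ⟨hS, hqS⟩ := hS
    have hS' := hS
    rw [Sq, mem_filter, mem_powerset] at hS'
    have hpr : q * ∏ p ∈ S.erase q, p = ∏ p ∈ S, p := by
      exact Finset.mul_prod_erase S (fun p => p) hqS
    rw [mem_filter]
    refine ⟨?_, Finset.notMem_erase q S, by rw [hpr]; exact hS'.2⟩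
    rw [Sq, mem_filter, mem_powerset]
    refine ⟨(Finset.erase_subset q S).trans hS'.1, ?_⟩
    have h1 : 1 ≤ q := (hP q hq).one_lt.le
    calc ∏ p ∈ S.erase q, p = 1 * ∏ p ∈ S.erase q, p := (one_mul _).symm
      _ ≤ q * ∏ p ∈ S.erase q, p := Nat.mul_le_mul_right _ h1
      _ = ∏ p ∈ S, p := hpr
      _ ≤ R := hS'.2
  · intro S hS
    rw [mem_filter] at hS
    obtain ⟨hS, hqS, hR⟩ := hS
    rw [Sq, mem_filter, mem_powerset] at hS
    rw [mem_filter]
    refine ⟨?_, Finset.mem_insert_self q S⟩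
    rw [Sq, mem_filter, mem_powerset]
    refine ⟨Finset.insert_subset hq hS.1, ?_⟩
    rw [Finset.prod_insert hqS]
    exact hR
  · intro S hS
    rw [mem_filter] at hS
    exact Finset.insert_erase hS.2
  · intro S hS
    rw [mem_filter] at hS
    exact Finset.erase_insert hS.2.1
  · intro S hS
    rw [mem_filter] at hS
    have h := Finset.mul_prod_erase S (fun p => ψ p z) hS.2
    rw [Pr, ← h, hψ, Pr]
    ring

end I_LOC

open I_LOC in
/-- The local identity at `q ∣ L`. -/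
theorem LOC_pf : S_LOC := by
  intro P ψ R q z hP hq hψ
  have h1 : FF ψ (Sq P R) z =
      ∑ S ∈ (Sq P R).filter (fun S => q ∈ S), Pr ψ S z +
      ∑ S ∈ (Sq P R).filter (fun S => q ∉ S), Pr ψ S z := by
    rw [FF]
    exact (Finset.sum_filter_add_sum_filter_not (Sq P R) (fun S => q ∈ S) _).symm
  have h2 : ∑ S ∈ (Sq P R).filter (fun S => q ∉ S), Pr ψ S z =
      ∑ S ∈ (Sq P R).filter (fun S => q ∉ S ∧ q * ∏ p ∈ S, p ≤ R), Pr ψ S z +
      ∑ S ∈ Sh P R q, Pr ψ S z := by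
    rw [← Finset.sum_filter_add_sum_filter_not ((Sq P R).filter (fun S => q ∉ S))
      (fun S => q * ∏ p ∈ S, p ≤ R)]
    rw [Finset.filter_filter, Finset.filter_filter]
    congr 1
    refine Finset.sum_congr ?_ fun _ _ => rfl
    rw [Sh]
    refine Finset.filter_congr fun S _ => ?_
    rw [not_le]
  rw [h1, h2, sum_mem P ψ R q z hP hq hψ, FF]
  ring

end Pool.Agent.Work.MP_0f91f8_co.Rg
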