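import Pool.Agent.Work.MP_0f91f8_co.Rg.Stmts

/-!
# Item MIDL: middle primes, linear forms
-/

set_option autoImplicit false

namespace Pool.Agent.Work.MP_0f91f8_co.Rg

open Finset

namespace I_MIDL

theorem GG_ge_one (P : Finset ℕ) (h : ℕ → ℝ) (R : ℕ) (hR : 1 ≤ R) (hh0 : ∀ p ∈ P, 0 ≤ h p) :
    1 ≤ GG h (Sq P R) := by
  unfold GG
  have hmem : (∅ : Finset ℕ) ∈ Sq P R := by
    unfold Sq
    simp [hR]
  have h1 : (∏ p ∈ (∅ : Finset ℕ), h p) ≤ ∑ S ∈ Sq P R, ∏ p ∈ S, h p := by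
    apply Finset.single_le_sum (f := fun S => ∏ p ∈ S, h p) _ hmem
    intro S hS
    apply Finset.prod_nonneg
    intro p hp
    have hS' : S ⊆ P := by
      unfold Sq at hS
      exact Finset.mem_powerset.mp (Finset.mem_filter.mp hS).1
    exact hh0 p (hS' hp)
  simpa using h1

theorem arith (X Y G H q T4 : ℝ) (hX0 : 0 ≤ X) (hY0 : 0 ≤ Y) (hG : 1 ≤ G) (hH : 0 ≤ H)
    (hq : 1 ≤ q) (hT4 : 0 ≤ T4) (hX : X * q ≤ 4 * H) (hY : Y ≤ H) (h10 : 10 * T4 * q ≤ H) :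
    X * Y * G + 2 * T4 * (X + Y) ≤ 5 * H ^ 2 * G / q := by
  have hq0 : 0 < q := by linarith
  rw [le_div_iff₀ hq0]
  have hX4 : X ≤ 4 * H := by nlinarith
  have e1 : X * Y * G * q ≤ 4 * H ^ 2 * G := by
    have : X * q * Y ≤ 4 * H * H := by
      apply mul_le_mul hX hY hY0 (by linarith)
    nlinarith
  have e2 : 2 * T4 * (X + Y) * q ≤ H ^ 2 := by
    have h5 : X + Y ≤ 5 * H := by linarith
    have : 2 * T4 * (X + Y) * q ≤ 2 * T4 * (5 * H) * q := by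
      apply mul_le_mul_of_nonneg_right _ hq0.le
      apply mul_le_mul_of_nonneg_left h5 (by linarith)
    nlinarith
  have e3 : H ^ 2 ≤ H ^ 2 * G := by nlinarith [sq_nonneg H]
  nlinarith

end I_MIDL

open I_MIDL in
theorem MIDL_pf (hEV : S_EV) (hFAM : S_FAM) (hCARD : S_CARD) (hLIN : S_LIN) : S_MIDL := by
  intro E κ hG T k k₄ k₀ hET hT hk hk4 q hq hTq hqle i hi A B
  obtain ⟨hF, hb, -⟩ := hFAM E κ hG T
  have hqE : ¬ q ∣ E := by
    intro h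
    have := Nat.le_of_dvd hG.epos h
    omega
  have hT1 : 1 ≤ T := by omega
  have hqH : q ≤ T ^ k₀ := hqle.trans (Nat.pow_le_pow_right hT1 (Nat.sub_le _ _))
  obtain ⟨φ, A', B', X, Y, hdet, hXq, hY, hZ⟩ := hLIN E κ hG q hq hqE i hi A B (T ^ k₀) hqH
  have hI : ∀ S ∈ Sq (P0 E T) (T ^ k), S ⊆ P0 E T ∧ ∏ p ∈ S, p ≤ T ^ k := by
    intro S hS
    unfold Sq at hS
    rw [Finset.mem_filter, Finset.mem_powerset] at hS
    exact hS
  have hP0 : ∀ p ∈ P0 E T, p.Prime ∧ p ≤ T := by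
    intro p hp
    unfold P0 at hp
    rw [Finset.mem_filter, Finset.mem_Icc] at hp
    exact ⟨hp.2.1, hp.1.2⟩
  have hcop : ∀ p ∈ P0 E T, IsCoprime φ.det (p : ℤ) := by
    intro p hp
    obtain ⟨hpp, hpT⟩ := hP0 p hp
    have hne : q ≠ p := by omega
    have hc : Nat.Coprime q p := (Nat.coprime_primes hq hpp).mpr hne
    have hc' : IsCoprime (q : ℤ) (p : ℤ) := Nat.isCoprime_iff_coprime.mpr hc
    rcases abs_eq (by positivity : (0 : ℤ) ≤ q) |>.mp hdet with h | h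
    · rw [h]; exact hc'
    · rw [h]; exact hc'.neg_left
  have key := hEV (P0 E T) _ _ hF (Sq (P0 E T) (T ^ k)) (T ^ k) hI φ hcop
    ((Box A B (T ^ k₀) (T ^ k₀)).filter (fun z => (q : ℤ) ∣ LL E κ i z)) A' B' X Y
    (by
      intro z hz
      rw [Finset.mem_filter] at hz
      exact hZ z hz.1 hz.2)
  have hcard : (Sq (P0 E T) (T ^ k)).card ≤ T ^ k := by
    apply hCARD
    intro S hS
    obtain ⟨h1, h2⟩ := hI S hS
    exact ⟨fun p hp => (hP0 p (h1 hp)).1, h2⟩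
  have hGG : 1 ≤ GG (hh (LP E κ)) (Sq (P0 E T) (T ^ k)) :=
    GG_ge_one _ _ _ (Nat.one_le_pow _ _ hT1) (fun p hp => (hb p hp).1)
  refine key.trans ?_
  have hc1 : ((Sq (P0 E T) (T ^ k)).card : ℝ) ^ 2 * (2 * ((T ^ k : ℕ) : ℝ) ^ 2 * (X + Y)) ≤
      2 * (T : ℝ) ^ (4 * k) * (X + Y) := by
    have hc2 : ((Sq (P0 E T) (T ^ k)).card : ℝ) ≤ (T : ℝ) ^ k := by
      exact_mod_cast hcard
    have hc3 : ((Sq (P0 E T) (T ^ k)).card : ℝ) ^ 2 ≤ ((T : ℝ) ^ k) ^ 2 :=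
      pow_le_pow_left₀ (by positivity) hc2 2
    calc ((Sq (P0 E T) (T ^ k)).card : ℝ) ^ 2 * (2 * ((T ^ k : ℕ) : ℝ) ^ 2 * (X + Y))
        ≤ ((T : ℝ) ^ k) ^ 2 * (2 * ((T ^ k : ℕ) : ℝ) ^ 2 * (X + Y)) :=
          mul_le_mul_of_nonneg_right hc3 (by positivity)
      _ = 2 * (T : ℝ) ^ (4 * k) * (X + Y) := by
          push_cast
          rw [← pow_mul]
          have : (T : ℝ) ^ (4 * k) = (T : ℝ) ^ (k * 2) * (T : ℝ) ^ (k * 2) := by
            rw [← pow_add]; congr 1; ring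
          rw [this]; ring
  have hten : 10 * T ^ (4 * k) * q ≤ T ^ k₀ := by
    calc 10 * T ^ (4 * k) * q ≤ T * T ^ (4 * k) * T ^ (k₀ - k₄) := by
          apply Nat.mul_le_mul _ hqle
          apply Nat.mul_le_mul_right
          omega
      _ = T ^ (4 * k + 1 + (k₀ - k₄)) := by
          rw [pow_add, pow_succ]; ring
      _ ≤ T ^ k₀ := Nat.pow_le_pow_right hT1 (by omega)
  have hten' : 10 * (T : ℝ) ^ (4 * k) * q ≤ ((T ^ k₀ : ℕ) : ℝ) := by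
    exact_mod_cast hten
  have hXq' : (X : ℝ) * q ≤ 4 * ((T ^ k₀ : ℕ) : ℝ) := by exact_mod_cast hXq
  have hY' : (Y : ℝ) ≤ ((T ^ k₀ : ℕ) : ℝ) := by exact_mod_cast hY
  have hq1 : (1 : ℝ) ≤ q := by exact_mod_cast hq.one_lt.le
  have := arith X Y (GG (hh (LP E κ)) (Sq (P0 E T) (T ^ k))) ((T ^ k₀ : ℕ) : ℝ) q
    ((T : ℝ) ^ (4 * k)) (by positivity) (by positivity) hGG (by positivity) hq1 (by positivity)
    hXq' hY' hten'
  linarith

end Pool.Agent.Work.MP_0f91f8_co.Rg
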