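import Pool.Agent.Work.MP_0f91f8_co.Rg.Stmts

/-!
Item MIDQ of the block Rg: middle primes, the quadratic form.
-/

set_option autoImplicit false

namespace Pool.Agent.Work.MP_0f91f8_co.Rg

open Finset

namespace I_MIDQ

theorem mem_sq {P : Finset ℕ} {R : ℕ} {S : Finset ℕ} :
    S ∈ Sq P R ↔ S ⊆ P ∧ ∏ p ∈ S, p ≤ R := by
  unfold Sq
  rw [mem_filter, mem_powerset]

theorem one_le_GG {P : Finset ℕ} {h : ℕ → ℝ} {R : ℕ} (hh : ∀ p ∈ P, 0 ≤ h p) (hR : 1 ≤ R) :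
    1 ≤ GG h (Sq P R) := by
  unfold GG
  have h0 : (∅ : Finset ℕ) ∈ Sq P R := mem_sq.2 ⟨empty_subset _, by simpa using hR⟩
  have := Finset.single_le_sum (f := fun S : Finset ℕ => ∏ p ∈ S, h p) (s := Sq P R)
    (fun S hS => Finset.prod_nonneg fun p hp => hh p ((mem_sq.1 hS).1 hp)) h0
  simpa using this

theorem coprime_of {q p : ℕ} (hq : q.Prime) (hp : p.Prime) (hpq : p < q) {d : ℤ}
    (hd : |d| = q) : IsCoprime d (p : ℤ) := by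
  rw [Int.isCoprime_iff_gcd_eq_one]
  have h1 : d.natAbs = q := by
    have : ((d.natAbs : ℕ) : ℤ) = q := by rw [Int.natCast_natAbs]; exact hd
    exact_mod_cast this
  show Nat.gcd d.natAbs (p : ℤ).natAbs = 1
  rw [h1, Int.natAbs_natCast]
  exact (Nat.coprime_primes hq hp).2 (by omega)

/-- The bound for one affine map. -/
theorem one_map (hEV : S_EV) (hFAM : S_FAM) (hCARD : S_CARD) {E κ : ℕ} (hG : Good E κ)
    {T k : ℕ} {q : ℕ} (hq : q.Prime) (hTq : T < q) (φ : Aff) (hφ : |φ.det| = q)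
    (Z : Finset Z2) (A B : ℤ) (X : ℕ) (hZ : ∀ z ∈ Z, ∃ w ∈ Box A B X X, φ.ap w = z) :
    ∑ z ∈ Z, FF (psi (LP E κ)) (Sq (P0 E T) (T ^ k)) z ^ 2 ≤
      (X : ℝ) ^ 2 * GG (hh (LP E κ)) (Sq (P0 E T) (T ^ k)) + 4 * (T : ℝ) ^ (4 * k) * X := by
  have hF := (hFAM E κ hG T).1
  have h1 := hEV (P0 E T) (psi (LP E κ)) (hh (LP E κ)) hF (Sq (P0 E T) (T ^ k)) (T ^ k)
    (fun S hS => mem_sq.1 hS) φ (fun p hp => coprime_of hq (hF.prime p hp) (by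
      unfold P0 at hp
      rw [mem_filter, mem_Icc] at hp
      omega) hφ) Z A B X X hZ
  have hc : (((Sq (P0 E T) (T ^ k)).card : ℕ) : ℝ) ≤ (T : ℝ) ^ k := by
    have := hCARD (Sq (P0 E T) (T ^ k)) (T ^ k) (fun S hS =>
      ⟨fun p hp => hF.prime p ((mem_sq.1 hS).1 hp), (mem_sq.1 hS).2⟩)
    exact_mod_cast this
  refine h1.trans ?_
  have hT0 : (0 : ℝ) ≤ (T : ℝ) ^ k := by positivity
  have h2 : (((Sq (P0 E T) (T ^ k)).card : ℕ) : ℝ) ^ 2 ≤ ((T : ℝ) ^ k) ^ 2 :=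
    pow_le_pow_left₀ (Nat.cast_nonneg _) hc 2
  have h3 : (((Sq (P0 E T) (T ^ k)).card : ℕ) : ℝ) ^ 2 *
      (2 * ((T ^ k : ℕ) : ℝ) ^ 2 * ((X : ℝ) + X)) ≤
      ((T : ℝ) ^ k) ^ 2 * (2 * ((T ^ k : ℕ) : ℝ) ^ 2 * ((X : ℝ) + X)) :=
    mul_le_mul_of_nonneg_right h2 (by positivity)
  have h4 : ((T : ℝ) ^ k) ^ 2 * (2 * ((T ^ k : ℕ) : ℝ) ^ 2 * ((X : ℝ) + X)) =
      4 * (T : ℝ) ^ (4 * k) * X := by
    push_cast
    rw [show 4 * k = k * 4 by ring, pow_mul]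
    ring
  rw [h4] at h3
  have h5 : (X : ℝ) * X * GG (hh (LP E κ)) (Sq (P0 E T) (T ^ k)) =
      (X : ℝ) ^ 2 * GG (hh (LP E κ)) (Sq (P0 E T) (T ^ k)) := by ring
  rw [h5]
  linarith

end I_MIDQ

open I_MIDQ in
theorem MIDQ_pf (hEV : S_EV) (hFAM : S_FAM) (hCARD : S_CARD) (hGAU : S_GAU) : S_MIDQ := by
  intro E κ hG T k k₄ k₀ hET hT hk4 hk0 q hq hTq hqT A B
  set W : Z2 → ℝ := fun z => FF (psi (LP E κ)) (Sq (P0 E T) (T ^ k)) z ^ 2 with hW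
  set G : ℝ := GG (hh (LP E κ)) (Sq (P0 E T) (T ^ k)) with hGdef
  set H : ℕ := T ^ k₀ with hH
  have hqE : ¬ q ∣ E := fun h => by
    have := Nat.le_of_dvd hG.epos h
    omega
  have hT1 : 1 ≤ T := by omega
  have hqH : q ≤ H ^ 2 := by
    rw [hH, ← pow_mul]
    exact hqT.trans (Nat.pow_le_pow_right hT1 (by omega))
  obtain ⟨φ, φ', A₁, B₁, A₂, B₂, X, hφ, hφ', hX, hmem⟩ := hGAU E κ hG q hq hqE A B H hqH
  have hG1 : 1 ≤ G := one_le_GG (fun p hp => ((hFAM E κ hG T).2.1 p hp).1)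
    (Nat.one_le_pow _ _ hT1)
  classical
  set Z := (Box A B H H).filter (fun z => (q : ℤ) ∣ LL E κ 4 z ∧ ¬ (q : ℤ) ∣ LL E κ 0 z)
    with hZ
  set Z₁ := Z.filter (fun z => ∃ w ∈ Box A₁ B₁ X X, φ.ap w = z) with hZ1
  set Z₂ := Z.filter (fun z => ∃ w ∈ Box A₂ B₂ X X, φ'.ap w = z) with hZ2
  have hsub : Z ⊆ Z₁ ∪ Z₂ := by
    intro z hz
    have hz' := hz
    rw [hZ, mem_filter] at hz'
    rcases hmem z hz'.1 hz'.2.1 with h | h | h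
    · exact absurd h hz'.2.2
    · exact mem_union_left _ (mem_filter.2 ⟨hz, h⟩)
    · exact mem_union_right _ (mem_filter.2 ⟨hz, h⟩)
  have hnn : ∀ z, 0 ≤ W z := fun z => sq_nonneg _
  have hsum : ∑ z ∈ Z, W z ≤ ∑ z ∈ Z₁, W z + ∑ z ∈ Z₂, W z := by
    calc ∑ z ∈ Z, W z ≤ ∑ z ∈ Z₁ ∪ Z₂, W z :=
          Finset.sum_le_sum_of_subset_of_nonneg hsub fun z _ _ => hnn z
      _ ≤ ∑ z ∈ Z₁ ∪ Z₂, W z + ∑ z ∈ Z₁ ∩ Z₂, W z :=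
          le_add_of_nonneg_right (Finset.sum_nonneg fun z _ => hnn z)
      _ = ∑ z ∈ Z₁, W z + ∑ z ∈ Z₂, W z := Finset.sum_union_inter
  have b1 : ∑ z ∈ Z₁, W z ≤ (X : ℝ) ^ 2 * G + 4 * (T : ℝ) ^ (4 * k) * X :=
    one_map hEV hFAM hCARD hG hq hTq φ hφ Z₁ A₁ B₁ X fun z hz => (mem_filter.1 hz).2
  have b2 : ∑ z ∈ Z₂, W z ≤ (X : ℝ) ^ 2 * G + 4 * (T : ℝ) ^ (4 * k) * X :=
    one_map hEV hFAM hCARD hG hq hTq φ' hφ' Z₂ A₂ B₂ X fun z hz => (mem_filter.1 hz).2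
  have hq0 : (0 : ℝ) < q := by exact_mod_cast hq.pos
  have hX' : (X : ℝ) ^ 2 * q ≤ 18 * (H : ℝ) ^ 2 := by exact_mod_cast hX
  -- the error term
  have herr : 4 * (T : ℝ) ^ (4 * k) * X * q ≤ (H : ℝ) ^ 2 := by
    have hT20 : (20 : ℝ) ≤ T := by exact_mod_cast hT
    have hqT' : (q : ℝ) ≤ (T : ℝ) ^ (2 * (k₀ - k₄)) := by exact_mod_cast hqT
    have hHT : (H : ℝ) = (T : ℝ) ^ k₀ := by rw [hH]; push_cast; rfl
    have hpow : (T : ℝ) ^ (8 * k) * (T : ℝ) ^ (2 * (k₀ - k₄)) * (T : ℝ) ^ 2 ≤ (H : ℝ) ^ 2 := by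
      rw [hHT, ← pow_mul, ← pow_add, ← pow_add]
      exact pow_le_pow_right₀ (by linarith) (by omega)
    have hsq : (4 * (T : ℝ) ^ (4 * k) * X * q) ^ 2 ≤ ((H : ℝ) ^ 2) ^ 2 := by
      calc (4 * (T : ℝ) ^ (4 * k) * X * q) ^ 2
          = 16 * (T : ℝ) ^ (8 * k) * ((X : ℝ) ^ 2 * q) * q := by
            rw [show 8 * k = 4 * k * 2 by ring, pow_mul]; ring
        _ ≤ 16 * (T : ℝ) ^ (8 * k) * (18 * (H : ℝ) ^ 2) * (T : ℝ) ^ (2 * (k₀ - k₄)) := by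
            gcongr
        _ = 288 * (H : ℝ) ^ 2 * ((T : ℝ) ^ (8 * k) * (T : ℝ) ^ (2 * (k₀ - k₄))) := by ring
        _ ≤ (T : ℝ) ^ 2 * (H : ℝ) ^ 2 * ((T : ℝ) ^ (8 * k) * (T : ℝ) ^ (2 * (k₀ - k₄))) := by
            have : (288 : ℝ) ≤ (T : ℝ) ^ 2 := by nlinarith
            gcongr
        _ = (H : ℝ) ^ 2 * ((T : ℝ) ^ (8 * k) * (T : ℝ) ^ (2 * (k₀ - k₄)) * (T : ℝ) ^ 2) := by
            ring
        _ ≤ (H : ℝ) ^ 2 * (H : ℝ) ^ 2 := by gcongr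
        _ = ((H : ℝ) ^ 2) ^ 2 := by ring
    exact (sq_le_sq₀ (by positivity) (by positivity)).1 hsq
  have hfin : ∑ z ∈ Z, W z * q ≤ 38 * (H : ℝ) ^ 2 * G := by
    rw [← Finset.sum_mul]
    have : (∑ z ∈ Z, W z) * q ≤
        (2 * ((X : ℝ) ^ 2 * G + 4 * (T : ℝ) ^ (4 * k) * X)) * q :=
      mul_le_mul_of_nonneg_right (by linarith) hq0.le
    refine this.trans ?_
    have h1 : (2 * ((X : ℝ) ^ 2 * G + 4 * (T : ℝ) ^ (4 * k) * X)) * q =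
        2 * ((X : ℝ) ^ 2 * q) * G + 2 * (4 * (T : ℝ) ^ (4 * k) * X * q) := by ring
    rw [h1]
    have h2 : 2 * ((X : ℝ) ^ 2 * q) * G ≤ 2 * (18 * (H : ℝ) ^ 2) * G := by
      have : 0 ≤ G := by linarith
      gcongr
    have h3 : (H : ℝ) ^ 2 ≤ (H : ℝ) ^ 2 * G := le_mul_of_one_le_right (sq_nonneg _) hG1
    nlinarith
  rw [le_div_iff₀ hq0, Finset.sum_mul]
  exact hfin

end Pool.Agent.Work.MP_0f91f8_co.Rg
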