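import Pool.Agent.Work.MP_0f91f8_co.Rg.Stmts

set_option autoImplicit false

/-!
# Item ORT: orthogonality
-/

namespace Pool.Agent.Work.MP_0f91f8_co.Rg

open Finset

namespace I_ORT

/-- a period may be replaced by a multiple -/
lemma per_mul {N : ℕ} {F : Z2 → ℝ} (hF : Per N F) (M : ℕ) : Per (N * M) F := by
  intro z w
  have h := hF z (M * w.1, M * w.2)
  simp only at h
  rw [← h]
  congr 1
  push_cast
  rw [mul_assoc, mul_assoc]

lemma per_mul' {N : ℕ} {F : Z2 → ℝ} (hF : Per N F) (M : ℕ) : Per (M * N) F := by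
  rw [mul_comm]
  exact per_mul hF M

/-- products of periodic functions -/
lemma per_prod {N : ℕ} {F G : Z2 → ℝ} (hF : Per N F) (hG : Per N G) :
    Per N (fun z => F z * G z) := by
  intro z w
  simp only
  rw [hF z w, hG z w]

/-- the functions of the union -/
def th (ψ : ℕ → Z2 → ℝ) (S T : Finset ℕ) (p : ℕ) (z : Z2) : ℝ :=
  if p ∈ S ∩ T then ψ p z ^ 2 else ψ p z

lemma pr_eq (ψ : ℕ → Z2 → ℝ) (S T : Finset ℕ) (z : Z2) :
    Pr ψ S z * Pr ψ T z = Pr (th ψ S T) (S ∪ T) z := by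
  unfold Pr
  rw [← prod_union_inter]
  have h1 : ∏ p ∈ S ∩ T, ψ p z = ∏ p ∈ S ∪ T, if p ∈ S ∩ T then ψ p z else 1 := by
    rw [prod_ite_mem]
    congr 1
    ext p
    simp only [mem_inter, mem_union]
    tauto
  rw [h1, ← prod_mul_distrib]
  refine prod_congr rfl fun p _ => ?_
  unfold th
  split_ifs
  · ring
  · ring

end I_ORT

theorem ORT_pf (h1 : S_CRT) (h2 : S_AVM) (h3 : S_PRD) : S_ORT := by
  intro P ψ h hP q χ hq hχ hqp S T hS hT
  have hU : S ∪ T ⊆ P := union_subset hS hT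
  have hθ : ∀ p ∈ S ∪ T, Per p (I_ORT.th ψ S T p) := by
    intro p hp z w
    have hpp := hP.per p (hU hp) z w
    unfold I_ORT.th
    rw [hpp]
  have hprime : ∀ p ∈ S ∪ T, p.Prime := fun p hp => hP.prime p (hU hp)
  obtain ⟨hper, hav⟩ := h3 (S ∪ T) (I_ORT.th ψ S T) hprime hθ
  have hNpos : 0 < ∏ p ∈ S ∪ T, p := prod_pos fun p hp => (hprime p hp).pos
  have hIpos : 0 < ∏ p ∈ S ∩ T, p :=
    prod_pos fun p hp => (hprime p (mem_union_left _ (mem_inter.1 hp).1)).pos
  have hcop : Nat.Coprime q (∏ p ∈ S ∪ T, p) :=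
    Nat.Coprime.prod_right fun p hp => hqp p (hU hp)
  have hfun : (fun z => χ z * (Pr ψ S z * Pr ψ T z)) =
      fun z => χ z * Pr (I_ORT.th ψ S T) (S ∪ T) z := by
    funext z
    rw [I_ORT.pr_eq]
  have hN : q * ((∏ p ∈ S, p) * ∏ p ∈ T, p) =
      (q * ∏ p ∈ S ∪ T, p) * ∏ p ∈ S ∩ T, p := by
    rw [← prod_union_inter, mul_assoc]
  have hperq : Per (q * ∏ p ∈ S ∪ T, p) (fun z => χ z * Pr (I_ORT.th ψ S T) (S ∪ T) z) :=
    I_ORT.per_prod (I_ORT.per_mul hχ _) (I_ORT.per_mul' hper q)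
  rw [hN, hfun]
  refine ⟨I_ORT.per_mul hperq _, ?_⟩
  rw [h2 _ _ _ (Nat.mul_pos hq hNpos) hIpos hperq, h1 q _ χ _ hq hNpos hcop hχ hper, hav]
  split_ifs with hST
  · subst hST
    congr 1
    rw [union_self]
    refine prod_congr rfl fun p hp => ?_
    have he : I_ORT.th ψ S S p = fun z => ψ p z ^ 2 := by
      funext z
      unfold I_ORT.th
      rw [if_pos (by rw [inter_self]; exact hp)]
    rw [he]
    exact hP.sq p (hS hp)
  · have hex : ∃ p ∈ S ∪ T, p ∉ S ∩ T := by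
      by_contra hcon
      push Not at hcon
      apply hST
      apply Subset.antisymm
      · intro p hp
        exact (mem_inter.1 (hcon p (mem_union_left _ hp))).2
      · intro p hp
        exact (mem_inter.1 (hcon p (mem_union_right _ hp))).1
    obtain ⟨p, hp, hp'⟩ := hex
    have he : I_ORT.th ψ S T p = ψ p := by
      funext z
      unfold I_ORT.th
      rw [if_neg hp']
    rw [prod_eq_zero hp (by rw [he]; exact hP.mean p (hU hp)), mul_zero]

end Pool.Agent.Work.MP_0f91f8_co.Rg
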