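import Pool.Agent.Work.MP_0f91f8_co.Rg.Stmts

/-!
# Products of periodic functions over a set of primes
-/

set_option autoImplicit false

namespace Pool.Agent.Work.MP_0f91f8_co.Rg

open Finset

theorem I_PRD.per_mul (M N : ℕ) (F G : Z2 → ℝ) (hF : Per M F) (hG : Per N G) :
    Per (M * N) (fun z => F z * G z) := by
  intro z w
  have h1 := hF z (N * w.1, N * w.2)
  have h2 := hG z (M * w.1, M * w.2)
  have e1 : ((z.1 + ((M * N : ℕ) : ℤ) * w.1, z.2 + ((M * N : ℕ) : ℤ) * w.2) : Z2) =
      (z.1 + M * (N * w.1), z.2 + M * (N * w.2)) := by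
    push_cast
    ext <;> ring
  have e2 : ((z.1 + ((M * N : ℕ) : ℤ) * w.1, z.2 + ((M * N : ℕ) : ℤ) * w.2) : Z2) =
      (z.1 + N * (M * w.1), z.2 + N * (M * w.2)) := by
    push_cast
    ext <;> ring
  have f1 : F (z.1 + ((M * N : ℕ) : ℤ) * w.1, z.2 + ((M * N : ℕ) : ℤ) * w.2) = F z := by
    rw [e1]
    exact h1
  have f2 : G (z.1 + ((M * N : ℕ) : ℤ) * w.1, z.2 + ((M * N : ℕ) : ℤ) * w.2) = G z := by
    rw [e2]
    exact h2
  show F _ * G _ = F z * G z
  rw [f1, f2]

theorem PRD_pf (h : S_CRT) : S_PRD := by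
  intro S
  induction S using Finset.induction_on with
  | empty =>
    intro θ _ _
    refine ⟨fun z w => by simp [Pr], ?_⟩
    simp [av, Box, Pr]
  | insert p S hp ih =>
    intro θ hpr hper
    have ih' := ih θ (fun q hq => hpr q (mem_insert_of_mem hq))
      (fun q hq => hper q (mem_insert_of_mem hq))
    have e1 : Pr θ (insert p S) = fun z => θ p z * Pr θ S z := by
      funext z
      exact Finset.prod_insert hp
    have hpp := hpr p (mem_insert_self p S)
    rw [Finset.prod_insert hp, e1, Finset.prod_insert hp]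
    refine ⟨I_PRD.per_mul _ _ _ _ (hper p (mem_insert_self p S)) ih'.1, ?_⟩
    rw [h p (∏ q ∈ S, q) (θ p) (Pr θ S) hpp.pos
      (Finset.prod_pos fun q hq => (hpr q (mem_insert_of_mem hq)).pos) ?_
      (hper p (mem_insert_self p S)) ih'.1, ih'.2]
    refine Nat.Coprime.prod_right fun q hq => ?_
    rw [Nat.coprime_primes hpp (hpr q (mem_insert_of_mem hq))]
    rintro rfl
    exact hp hq

end Pool.Agent.Work.MP_0f91f8_co.Rg
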