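import Pool.Agent.Work.MP_0f91f8_co.Rg.Stmts

/-!
# Item PSI: the functions psi
-/

set_option autoImplicit false

namespace Pool.Agent.Work.MP_0f91f8_co.Rg

open Finset

namespace I_PSI

lemma chi_per (L : Z2 → ℤ) (hL : Con L) (p : ℕ) : Per p (chi L p) := by
  intro z w
  have h := hL p z w
  unfold chi
  have : ((p : ℤ) ∣ L (z.1 + p * w.1, z.2 + p * w.2)) ↔ (p : ℤ) ∣ L z := by
    constructor
    · intro h1
      have := dvd_sub h1 h
      simpa using this
    · intro h1
      have := dvd_add h h1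
      simpa using this
  simp only [this]

lemma chi_sq (L : Z2 → ℤ) (p : ℕ) (z : Z2) : chi L p z ^ 2 = chi L p z := by
  unfold chi
  split_ifs <;> norm_num

lemma card_box (p : ℕ) : ((Box 0 0 p p).card : ℝ) = (p : ℝ) ^ 2 := by
  unfold Box
  rw [card_product, Int.card_Ico]
  simp [sq]

end I_PSI

open I_PSI

theorem PSI_pf : S_PSI := by
  intro L hL p hp hg0 hg1
  have hp0 : (p : ℝ) ^ 2 ≠ 0 := by
    have : (p : ℝ) ≠ 0 := Nat.cast_ne_zero.2 hp.ne_zero
    positivity
  have hgne : gg L p ≠ 0 := hg0.ne'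
  have h1g : 0 < 1 - gg L p := by linarith
  have hsum : ∑ z ∈ Box 0 0 p p, chi L p z = gg L p * (p : ℝ) ^ 2 := by
    unfold gg av
    rw [div_mul_cancel₀ _ hp0]
  have hh0 : hh L p * (1 - gg L p) = gg L p := by
    unfold hh
    field_simp
  have hhpos : 0 < hh L p := div_pos hg0 h1g
  have hchi := chi_per L hL p
  have hdiv : ∀ z, (p : ℤ) ∣ L z → psi L p z = -1 := by
    intro z hz
    unfold psi
    have : chi L p z = 1 := by unfold chi; rw [if_pos hz]
    rw [this]
    unfold hh
    field_simp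
    ring
  have hndiv : ∀ z, ¬ (p : ℤ) ∣ L z → psi L p z = hh L p := by
    intro z hz
    unfold psi
    have : chi L p z = 0 := by unfold chi; rw [if_neg hz]
    rw [this]
    simp
  have hle : gg L p ≤ hh L p := by
    unfold hh
    rw [le_div_iff₀ h1g]
    nlinarith
  have hle2 : hh L p ≤ 2 * gg L p := by
    unfold hh
    rw [div_le_iff₀ h1g]
    nlinarith
  refine ⟨hchi, ?_, ?_, ?_, ?_, hdiv, hndiv, hle, hle2⟩
  · intro z w
    unfold psi
    rw [hchi z w]
  · unfold av
    have : ∑ z ∈ Box 0 0 p p, psi L p z = 0 := by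
      unfold psi
      rw [← mul_sum, sum_sub_distrib, ← sum_div, hsum, sum_const, nsmul_eq_mul, card_box]
      field_simp
      ring
    rw [this, zero_div]
  · unfold av
    have e : ∀ z, psi L p z ^ 2 = hh L p ^ 2 * (1 + chi L p z * (1 / gg L p ^ 2 - 2 / gg L p)) := by
      intro z
      have h2 := chi_sq L p z
      unfold psi
      have h3 : (1 - chi L p z / gg L p) ^ 2 =
          1 - 2 * chi L p z / gg L p + chi L p z ^ 2 / gg L p ^ 2 := by
        field_simp
        ring
      rw [mul_pow, h3, h2]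
      ring
    have : ∑ z ∈ Box 0 0 p p, psi L p z ^ 2 = hh L p * (p : ℝ) ^ 2 := by
      rw [sum_congr rfl fun z _ => e z, ← mul_sum, sum_add_distrib, ← sum_mul, hsum, sum_const,
        nsmul_eq_mul, card_box]
      have h4 : hh L p = gg L p / (1 - gg L p) := rfl
      rw [h4]
      field_simp
      ring
    rw [this, mul_div_cancel_right₀ _ hp0]
  · intro z
    by_cases hz : (p : ℤ) ∣ L z
    · rw [hdiv z hz]
      norm_num
    · rw [hndiv z hz, abs_of_pos hhpos]
      linarith

end Pool.Agent.Work.MP_0f91f8_co.Rg
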