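import Pool.Agent.Work.MP_0f91f8_co.Rg.Stmts

/-!
# [QF] the quadratic form
-/

set_option autoImplicit false

namespace Pool.Agent.Work.MP_0f91f8_co.Rg

open Finset

theorem QF_pf (hBOX : S_BOX) (hORT : S_ORT) : S_QF := by
  classical
  intro P ψ h hF I R hI q χ hq hχ hχ1 hqP A B X Y
  -- the terms
  have hPr : ∀ S ∈ I, ∀ z, |Pr ψ S z| ≤ 1 := by
    intro S hS z
    unfold Pr
    rw [Finset.abs_prod]
    exact Finset.prod_le_one (fun p _ => abs_nonneg _) fun p hp => hF.bd p ((hI S hS).1 hp) z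
  have hpos : ∀ S ∈ I, 0 < ∏ p ∈ S, p := fun S hS =>
    Finset.prod_pos fun p hp => (hF.prime p ((hI S hS).1 hp)).pos
  have hterm : ∀ S ∈ I, ∀ T ∈ I,
      |∑ z ∈ Box A B X Y, χ z * (Pr ψ S z * Pr ψ T z) -
        X * Y * (if S = T then av q χ * ∏ p ∈ S, h p else 0)| ≤
      2 * (q * (R : ℝ) ^ 2) * (X + Y) := by
    intro S hS T hT
    obtain ⟨h1, h2⟩ := hORT P ψ h hF q χ hq hχ hqP S T (hI S hS).1 (hI T hT).1
    have h3 := hBOX (q * ((∏ p ∈ S, p) * ∏ p ∈ T, p)) (fun z => χ z * (Pr ψ S z * Pr ψ T z))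
      (by have := hpos S hS; have := hpos T hT; positivity) h1 (by
      intro z
      rw [abs_mul, abs_mul]
      have e1 : |χ z| ≤ 1 := by
        rw [abs_of_nonneg (hχ1 z).1]
        exact (hχ1 z).2
      have e2 : |Pr ψ S z| * |Pr ψ T z| ≤ 1 :=
        mul_le_one₀ (hPr S hS z) (abs_nonneg _) (hPr T hT z)
      exact mul_le_one₀ e1 (by positivity) e2) A B X Y
    rw [h2] at h3
    refine h3.trans ?_
    have h4 : ((q * ((∏ p ∈ S, p) * ∏ p ∈ T, p) : ℕ) : ℝ) ≤ q * (R : ℝ) ^ 2 := by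
      have h5 : q * ((∏ p ∈ S, p) * ∏ p ∈ T, p) ≤ q * R ^ 2 := by
        rw [sq]
        exact Nat.mul_le_mul_left q (Nat.mul_le_mul (hI S hS).2 (hI T hT).2)
      exact_mod_cast h5
    have h6 : (0 : ℝ) ≤ (X : ℝ) + Y := by positivity
    nlinarith
  -- expansion
  have e1 : ∑ z ∈ Box A B X Y, χ z * FF ψ I z ^ 2 =
      ∑ S ∈ I, ∑ T ∈ I, ∑ z ∈ Box A B X Y, χ z * (Pr ψ S z * Pr ψ T z) := by
    have : ∀ z ∈ Box A B X Y, χ z * FF ψ I z ^ 2 =
        ∑ S ∈ I, ∑ T ∈ I, χ z * (Pr ψ S z * Pr ψ T z) := by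
      intro z _
      unfold FF
      rw [sq, Finset.sum_mul_sum, Finset.mul_sum]
      refine Finset.sum_congr rfl fun S _ => ?_
      rw [Finset.mul_sum]
    rw [Finset.sum_congr rfl this, Finset.sum_comm]
    refine Finset.sum_congr rfl fun S _ => ?_
    rw [Finset.sum_comm]
  have e2 : (X : ℝ) * Y * (av q χ * GG h I) =
      ∑ S ∈ I, ∑ T ∈ I, (X : ℝ) * Y * (if S = T then av q χ * ∏ p ∈ S, h p else 0) := by
    unfold GG
    rw [Finset.mul_sum, Finset.mul_sum]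
    refine Finset.sum_congr rfl fun S hS => ?_
    rw [← Finset.mul_sum, Finset.sum_ite_eq, if_pos hS]
  rw [e1, e2, ← Finset.sum_sub_distrib]
  have e3 : ∀ S ∈ I, |∑ T ∈ I, ∑ z ∈ Box A B X Y, χ z * (Pr ψ S z * Pr ψ T z) -
      ∑ T ∈ I, (X : ℝ) * Y * (if S = T then av q χ * ∏ p ∈ S, h p else 0)| ≤
      I.card * (2 * (q * (R : ℝ) ^ 2) * (X + Y)) := by
    intro S hS
    rw [← Finset.sum_sub_distrib]
    refine (Finset.abs_sum_le_sum_abs _ _).trans ?_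
    refine (Finset.sum_le_card_nsmul _ _ _ (hterm S hS)).trans (le_of_eq ?_)
    rw [nsmul_eq_mul]
  refine (Finset.abs_sum_le_sum_abs _ _).trans ?_
  refine (Finset.sum_le_card_nsmul _ _ _ e3).trans (le_of_eq ?_)
  rw [nsmul_eq_mul]
  ring

end Pool.Agent.Work.MP_0f91f8_co.Rg
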