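import Pool.Agent.Work.MP_0f91f8_co.Rg.Stmts
import Pool.Agent.Work.MP_e0c7e8_nt.Mert

/-!
# Item SMA: the small primes, the sum over all of them
-/

set_option autoImplicit false

namespace Pool.Agent.Work.MP_0f91f8_co.Rg

open Finset

namespace I_SMA

/-- `GG` of a family of sets of primes with non-negative weights is non-negative. -/
theorem GG_nonneg (P : Finset ℕ) (h : ℕ → ℝ) (hP : ∀ p ∈ P, 0 ≤ h p) (I : Finset (Finset ℕ))
    (hI : ∀ S ∈ I, S ⊆ P) : 0 ≤ GG h I :=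
  Finset.sum_nonneg fun S hS => Finset.prod_nonneg fun p hp => hP p (hI S hS hp)

theorem Sq_sub (P : Finset ℕ) (R : ℕ) : ∀ S ∈ Sq P R, S ⊆ P := by
  intro S hS
  unfold Sq at hS
  rw [mem_filter, mem_powerset] at hS
  exact hS.1

theorem Sh_sub (P : Finset ℕ) (R q : ℕ) : ∀ S ∈ Sh P R q, S ⊆ P := by
  intro S hS
  unfold Sh at hS
  rw [mem_filter] at hS
  exact Sq_sub P R S hS.1

end I_SMA

/-- [SMA] -/
theorem SMA_pf (SUM : S_SUM) : S_SMA := by
  obtain ⟨C₁, hC₁, hS⟩ := SUM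
  obtain ⟨C₂, hM⟩ := Pool.Agent.Work.MP_e0c7e8_nt.Mert.mertens1.2
  have hl2 : 0 < Real.log 2 := Real.log_pos (by norm_num)
  refine ⟨6 * C₁ * (1 + |C₂| / Real.log 2), by positivity, ?_⟩
  intro P g h T k hT hk hP
  have hTr : (2 : ℝ) ≤ T := by exact_mod_cast hT
  have hT0 : (0 : ℝ) < T := by linarith
  have hlT : Real.log 2 ≤ Real.log T := Real.log_le_log (by norm_num) hTr
  have hlT0 : 0 < Real.log T := lt_of_lt_of_le hl2 hlT
  have hk1 : (0 : ℝ) < (k : ℝ) - 1 := by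
    have : (2 : ℝ) ≤ k := by exact_mod_cast hk
    linarith
  set G : ℝ := GG h (Sq P (T ^ k)) with hG
  have hG0 : 0 ≤ G :=
    I_SMA.GG_nonneg P h (fun p hp => (hP p hp).2.2.2.2.1) _ (I_SMA.Sq_sub P _)
  -- each prime
  have h1 : ∀ q ∈ P, g q * GG h (Sh P (T ^ k) q) * (((k : ℝ) - 1) * Real.log T) ≤
      6 * C₁ * G * (Real.log q / q) := by
    intro q hq
    obtain ⟨hqp, hqT, hg0, hg6, hh0, hh12⟩ := hP q hq
    have hq1 : (1 : ℝ) ≤ q := by exact_mod_cast hqp.one_lt.le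
    have hq0 : (0 : ℝ) < q := by linarith
    have hlq : 0 ≤ Real.log q := Real.log_nonneg hq1
    have hSh : 0 ≤ GG h (Sh P (T ^ k) q) :=
      I_SMA.GG_nonneg P h (fun p hp => (hP p hp).2.2.2.2.1) _ (I_SMA.Sh_sub P _ q)
    have hqR : q ≤ T ^ k := hqT.trans (Nat.le_self_pow (by omega) T)
    have h2 := hS P h (fun p hp => ⟨(hP p hp).1, (hP p hp).2.2.2.2⟩) (T ^ k) q hqp hqR
    have h3 : ((k : ℝ) - 1) * Real.log T ≤ Real.log (((T ^ k : ℕ) : ℝ) / q) := by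
      rw [Real.log_div (by positivity) hq0.ne']
      push_cast
      rw [Real.log_pow]
      have : Real.log q ≤ Real.log T := Real.log_le_log hq0 (by exact_mod_cast hqT)
      linarith
    have h4 : GG h (Sh P (T ^ k) q) * (((k : ℝ) - 1) * Real.log T) ≤ C₁ * Real.log q * G :=
      (mul_le_mul_of_nonneg_left h3 hSh).trans h2
    calc g q * GG h (Sh P (T ^ k) q) * (((k : ℝ) - 1) * Real.log T)
        = g q * (GG h (Sh P (T ^ k) q) * (((k : ℝ) - 1) * Real.log T)) := by ring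
      _ ≤ g q * (C₁ * Real.log q * G) := mul_le_mul_of_nonneg_left h4 hg0
      _ ≤ 6 / q * (C₁ * Real.log q * G) := mul_le_mul_of_nonneg_right hg6 (by positivity)
      _ = 6 * C₁ * G * (Real.log q / q) := by ring
  -- Mertens
  have h5 : ∑ q ∈ P, Real.log q / (q : ℝ) ≤ Real.log T + C₂ := by
    have h6 := (abs_le.1 (hM T (by linarith))).2
    rw [Nat.floor_natCast] at h6
    have h7 : ∑ q ∈ P, Real.log q / (q : ℝ) ≤
        ∑ p ∈ (Finset.Icc 1 T).filter Nat.Prime, Real.log p / (p : ℝ) := by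
      refine Finset.sum_le_sum_of_subset_of_nonneg ?_ ?_
      · intro q hq
        rw [mem_filter, mem_Icc]
        exact ⟨⟨(hP q hq).1.one_lt.le, (hP q hq).2.1⟩, (hP q hq).1⟩
      · intro p hp _
        exact div_nonneg (Real.log_natCast_nonneg p) (Nat.cast_nonneg p)
    linarith
  have h8 : Real.log T + C₂ ≤ (1 + |C₂| / Real.log 2) * Real.log T := by
    have h9 : |C₂| ≤ |C₂| / Real.log 2 * Real.log T := by
      rw [div_mul_eq_mul_div, le_div_iff₀ hl2]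
      exact mul_le_mul_of_nonneg_left hlT (abs_nonneg _)
    have := le_abs_self C₂
    nlinarith
  have h10 : (∑ q ∈ P, g q * GG h (Sh P (T ^ k) q)) * (((k : ℝ) - 1) * Real.log T) ≤
      6 * C₁ * G * ((1 + |C₂| / Real.log 2) * Real.log T) := by
    rw [Finset.sum_mul]
    calc ∑ q ∈ P, g q * GG h (Sh P (T ^ k) q) * (((k : ℝ) - 1) * Real.log T)
        ≤ ∑ q ∈ P, 6 * C₁ * G * (Real.log q / (q : ℝ)) := Finset.sum_le_sum h1
      _ = 6 * C₁ * G * ∑ q ∈ P, Real.log q / (q : ℝ) := by rw [Finset.mul_sum]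
      _ ≤ 6 * C₁ * G * ((1 + |C₂| / Real.log 2) * Real.log T) :=
          mul_le_mul_of_nonneg_left (h5.trans h8) (by positivity)
  have h11 : (∑ q ∈ P, g q * GG h (Sh P (T ^ k) q)) * ((k : ℝ) - 1) ≤
      6 * C₁ * G * (1 + |C₂| / Real.log 2) := by
    refine le_of_mul_le_mul_right ?_ hlT0
    calc (∑ q ∈ P, g q * GG h (Sh P (T ^ k) q)) * ((k : ℝ) - 1) * Real.log T
        = (∑ q ∈ P, g q * GG h (Sh P (T ^ k) q)) * (((k : ℝ) - 1) * Real.log T) := by ring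
      _ ≤ 6 * C₁ * G * ((1 + |C₂| / Real.log 2) * Real.log T) := h10
      _ = 6 * C₁ * G * (1 + |C₂| / Real.log 2) * Real.log T := by ring
  rw [div_mul_eq_mul_div, le_div_iff₀ hk1]
  calc (∑ q ∈ P, g q * GG h (Sh P (T ^ k) q)) * ((k : ℝ) - 1)
      ≤ 6 * C₁ * G * (1 + |C₂| / Real.log 2) := h11
    _ = 6 * C₁ * (1 + |C₂| / Real.log 2) * G := by ring

end Pool.Agent.Work.MP_0f91f8_co.Rg
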