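import Pool.Agent.Work.MP_0f91f8_co.Rg.Stmts

/-!
# [SP] the sieve proposition
-/

set_option autoImplicit false

namespace Pool.Agent.Work.MP_0f91f8_co.Rg

open Finset

namespace I_SP

lemma av_one : av 1 (fun _ => (1 : ℝ)) = 1 := by
  simp [av, Box]

lemma mem_P0 {E T p : ℕ} : p ∈ P0 E T ↔ p ≤ T ∧ p.Prime ∧ ¬ p ∣ E := by
  unfold P0
  rw [mem_filter, mem_Icc]
  constructor
  · rintro ⟨⟨_, h⟩, h2, h3⟩
    exact ⟨h, h2, h3⟩
  · rintro ⟨h, h2, h3⟩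
    exact ⟨⟨h2.one_le, h⟩, h2, h3⟩

lemma mem_P1 {T a b p : ℕ} : p ∈ P1 T a b ↔ (T ^ a < p ∧ p ≤ T ^ b) ∧ p.Prime ∧ p % 4 = 1 := by
  unfold P1
  rw [mem_filter, mem_Ioc]

lemma mem_QQ {Q : Set ℕ} {x y q : ℕ} : q ∈ QQ Q x y ↔ (x < q ∧ q ≤ y) ∧ q.Prime ∧ q ∈ Q := by
  classical
  unfold QQ
  rw [mem_filter, mem_Ioc]

/-- `GG ≥ 1`. -/
lemma GG_ge (hFAM : S_FAM) {E κ : ℕ} (hg : Good E κ) (T R : ℕ) (hR : 1 ≤ R) :
    1 ≤ GG (hh (LP E κ)) (Sq (P0 E T) R) := by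
  obtain ⟨_, h2, _⟩ := hFAM E κ hg T
  unfold GG
  have hmem : (∅ : Finset ℕ) ∈ Sq (P0 E T) R := by
    unfold Sq
    rw [mem_filter, mem_powerset]
    exact ⟨empty_subset _, by simpa using hR⟩
  have := Finset.single_le_sum (f := fun S : Finset ℕ => ∏ p ∈ S, hh (LP E κ) p)
    (s := Sq (P0 E T) R) ?_ hmem
  · simpa using this
  · intro S hS
    have hS' : S ⊆ P0 E T := by
      unfold Sq at hS
      rw [mem_filter, mem_powerset] at hS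
      exact hS.1
    exact Finset.prod_nonneg fun p hp => (h2 p (hS' hp)).1

/-- The whole weight. -/
lemma whole (hQF : S_QF) (hFAM : S_FAM) (hCARD : S_CARD) {E κ : ℕ} (hg : Good E κ) (T k : ℕ)
    (A B : ℤ) (H : ℕ) :
    (H : ℝ) ^ 2 * GG (hh (LP E κ)) (Sq (P0 E T) (T ^ k)) - 4 * (T : ℝ) ^ (4 * k) * H ≤
      ∑ z ∈ Box A B H H, FF (psi (LP E κ)) (Sq (P0 E T) (T ^ k)) z ^ 2 := by
  obtain ⟨hF, h2, _⟩ := hFAM E κ hg T
  have hI : ∀ S ∈ Sq (P0 E T) (T ^ k), S ⊆ P0 E T ∧ ∏ p ∈ S, p ≤ T ^ k := by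
    intro S hS
    unfold Sq at hS
    rw [mem_filter, mem_powerset] at hS
    exact hS
  have hc : (Sq (P0 E T) (T ^ k)).card ≤ T ^ k := by
    apply hCARD
    intro S hS
    exact ⟨fun p hp => (mem_P0.1 ((hI S hS).1 hp)).2.1, (hI S hS).2⟩
  have hc' : ((Sq (P0 E T) (T ^ k)).card : ℝ) ≤ (T : ℝ) ^ k := by
    exact_mod_cast hc
  have := hQF (P0 E T) (psi (LP E κ)) (hh (LP E κ)) hF (Sq (P0 E T) (T ^ k)) (T ^ k) hI 1
    (fun _ => 1) one_pos (fun z w => rfl) (fun z => ⟨zero_le_one, le_refl _⟩)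
    (fun p _ => Nat.coprime_one_left p) A B H H
  rw [av_one, abs_le] at this
  have h3 := this.1
  have h4 : ((Sq (P0 E T) (T ^ k)).card : ℝ) ^ 2 *
      (2 * (((1 : ℕ) : ℝ) * ((T ^ k : ℕ) : ℝ) ^ 2) * ((H : ℝ) + H)) ≤
      4 * (T : ℝ) ^ (4 * k) * H := by
    have h5 : ((Sq (P0 E T) (T ^ k)).card : ℝ) ^ 2 ≤ ((T : ℝ) ^ k) ^ 2 :=
      pow_le_pow_left₀ (Nat.cast_nonneg _) hc' 2
    calc ((Sq (P0 E T) (T ^ k)).card : ℝ) ^ 2 *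
          (2 * (((1 : ℕ) : ℝ) * ((T ^ k : ℕ) : ℝ) ^ 2) * ((H : ℝ) + H))
        ≤ ((T : ℝ) ^ k) ^ 2 * (2 * (((1 : ℕ) : ℝ) * ((T ^ k : ℕ) : ℝ) ^ 2) * ((H : ℝ) + H)) := by
          apply mul_le_mul_of_nonneg_right h5
          positivity
      _ = 4 * (T : ℝ) ^ (4 * k) * H := by
          push_cast
          have : (T : ℝ) ^ (4 * k) = ((T : ℝ) ^ k) ^ 4 := by
            rw [← pow_mul, mul_comm]
          rw [this]
          ring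
  have h6 : ∑ z ∈ Box A B H H, (1 : ℝ) * FF (psi (LP E κ)) (Sq (P0 E T) (T ^ k)) z ^ 2 =
      ∑ z ∈ Box A B H H, FF (psi (LP E κ)) (Sq (P0 E T) (T ^ k)) z ^ 2 := by
    simp
  rw [h6] at h3
  have h7 : (H : ℝ) * H * (1 * GG (hh (LP E κ)) (Sq (P0 E T) (T ^ k))) =
      (H : ℝ) ^ 2 * GG (hh (LP E κ)) (Sq (P0 E T) (T ^ k)) := by ring
  rw [h7] at h3
  linarith

/-- A covering argument. -/
lemma cover {ι₁ ι₂ ι₃ : Type} (s : Finset Z2) (w : Z2 → ℝ) (hw : ∀ z, 0 ≤ w z)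
    (I₁ : Finset ι₁) (a₁ : ι₁ → Z2 → Prop) (I₂ : Finset ι₂) (a₂ : ι₂ → Z2 → Prop)
    (I₃ : Finset ι₃) (a₃ : ι₃ → Z2 → Prop) [∀ i z, Decidable (a₁ i z)]
    [∀ i z, Decidable (a₂ i z)] [∀ i z, Decidable (a₃ i z)]
    (h : ∀ z ∈ s, (∃ i ∈ I₁, a₁ i z) ∨ (∃ i ∈ I₂, a₂ i z) ∨ ∃ i ∈ I₃, a₃ i z) :
    ∑ z ∈ s, w z ≤ ∑ i ∈ I₁, ∑ z ∈ s.filter (a₁ i), w z + ∑ i ∈ I₂, ∑ z ∈ s.filter (a₂ i), w z +
      ∑ i ∈ I₃, ∑ z ∈ s.filter (a₃ i), w z := by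
  simp_rw [Finset.sum_filter]
  rw [Finset.sum_comm (s := I₁), Finset.sum_comm (s := I₂), Finset.sum_comm (s := I₃),
    ← Finset.sum_add_distrib, ← Finset.sum_add_distrib]
  apply Finset.sum_le_sum
  intro z hz
  have n₁ : ∀ i ∈ I₁, 0 ≤ if a₁ i z then w z else 0 := by
    intro i _
    split_ifs
    · exact hw z
    · exact le_refl _
  have n₂ : ∀ i ∈ I₂, 0 ≤ if a₂ i z then w z else 0 := by
    intro i _
    split_ifs
    · exact hw z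
    · exact le_refl _
  have n₃ : ∀ i ∈ I₃, 0 ≤ if a₃ i z then w z else 0 := by
    intro i _
    split_ifs
    · exact hw z
    · exact le_refl _
  have m₁ := Finset.sum_nonneg n₁
  have m₂ := Finset.sum_nonneg n₂
  have m₃ := Finset.sum_nonneg n₃
  rcases h z hz with ⟨i, hi, ha⟩ | ⟨i, hi, ha⟩ | ⟨i, hi, ha⟩
  · have := Finset.single_le_sum n₁ hi
    rw [if_pos ha] at this
    linarith
  · have := Finset.single_le_sum n₂ hi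
    rw [if_pos ha] at this
    linarith
  · have := Finset.single_le_sum n₃ hi
    rw [if_pos ha] at this
    linarith

/-- Two different primes with large product. -/
lemma noprime {L : ℤ} (hL : L ≠ 0) {p p' X Y : ℕ} (hp : p.Prime) (hp' : p'.Prime) (hne : p ≠ p')
    (h1 : (p : ℤ) ∣ L) (h2 : (p' : ℤ) ∣ L) (hX : X < p) (hY : Y < p') (hb : |L| ≤ (X * Y : ℕ)) :
    False := by
  have h3 : ((p * p' : ℕ) : ℤ) ∣ L := by
    have : IsCoprime (p : ℤ) (p' : ℤ) := by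
      rw [Nat.isCoprime_iff_coprime]
      exact (Nat.coprime_primes hp hp').2 hne
    push_cast
    exact this.mul_dvd h1 h2
  have h4 := Int.le_of_dvd (abs_pos.2 hL) ((dvd_abs _ _).2 h3)
  have h5 : ((p * p' : ℕ) : ℤ) ≤ (X * Y : ℕ) := h4.trans hb
  have h6 : p * p' ≤ X * Y := by exact_mod_cast h5
  have h7 : X * Y < p * p' := by
    calc X * Y ≤ X * p' := Nat.mul_le_mul_left X hY.le
      _ < p * p' := Nat.mul_lt_mul_of_pos_right hX hp'.pos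
  omega

lemma small_of_dvd {L : ℤ} (hL : L ≠ 0) {p X : ℕ} (h1 : (p : ℤ) ∣ L) (hb : |L| ≤ (X : ℕ)) :
    p ≤ X := by
  have h4 := Int.le_of_dvd (abs_pos.2 hL) ((dvd_abs _ _).2 h1)
  have : (p : ℤ) ≤ X := h4.trans hb
  exact_mod_cast this

end I_SP

open I_SP

theorem SP_pf (hQF : S_QF) (hCOP : S_COP) (hFAM : S_FAM) (hCARD : S_CARD) (hSML : S_SML)
    (hMIDL : S_MIDL) (hMIDQ : S_MIDQ) (hMER : S_MER) (hTOP : S_TOP) (hSZ : S_SZ) : S_SP := by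
  classical
  obtain ⟨C, hC, hSML⟩ := hSML
  -- the constants
  obtain ⟨k, hk2, hkC⟩ : ∃ k : ℕ, 2 ≤ k ∧ C / ((k : ℝ) - 1) ≤ 1 / 10 := by
    refine ⟨⌈10 * C⌉₊ + 2, by omega, ?_⟩
    have h1 : 10 * C ≤ (⌈10 * C⌉₊ : ℝ) := Nat.le_ceil _
    push_cast
    rw [div_le_iff₀ (by linarith)]
    linarith
  obtain ⟨k₄, hk₄⟩ : ∃ k₄ : ℕ, k₄ = 4 * k + 1 := ⟨_, rfl⟩
  obtain ⟨k₂, hk₂⟩ : ∃ k₂ : ℕ, k₂ = 2 * k₄ + 1 := ⟨_, rfl⟩
  obtain ⟨k₃, hk₂₃, T₁, hT₁⟩ := hMER 100 k₂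
  obtain ⟨k₀, hk₀⟩ : ∃ k₀ : ℕ, k₀ = 4 * (k + k₃) + k₄ + 1 := ⟨_, rfl⟩
  refine ⟨k₀, by omega, 1 / 1000, by norm_num, ?_⟩
  intro E κ hg α β
  obtain ⟨T₂, hT₂⟩ := hSZ E κ hg α β
  refine ⟨max (max T₁ T₂) (max E 400), ?_⟩
  intro T hT Q hQ
  have hTT₁ : T₁ ≤ T := le_trans (le_max_left _ _) (le_trans (le_max_left _ _) hT)
  have hTT₂ : T₂ ≤ T := le_trans (le_max_right _ _) (le_trans (le_max_left _ _) hT)
  have hET : E ≤ T := le_trans (le_max_left _ _) (le_trans (le_max_right _ _) hT)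
  have hT400 : 400 ≤ T := le_trans (le_max_right _ _) (le_trans (le_max_right _ _) hT)
  have hTr : (400 : ℝ) ≤ T := by exact_mod_cast hT400
  have hT0 : (0 : ℝ) < T := by linarith
  have hMERT := hT₁ T hTT₁
  have hH1 : 1 ≤ T ^ k₀ := Nat.one_le_pow _ _ (by omega)
  have hsz := hT₂ T (T ^ k₀) hTT₂ hH1
  obtain ⟨H, hH⟩ : ∃ H : ℕ, H = T ^ k₀ := ⟨_, rfl⟩
  have hHr : (H : ℝ) = (T : ℝ) ^ k₀ := by rw [hH]; push_cast; rfl
  have hH0 : (0 : ℝ) < H := by rw [hHr]; positivity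
  obtain ⟨G, hG⟩ : ∃ G : ℝ, G = GG (hh (LP E κ)) (Sq (P0 E T) (T ^ k)) := ⟨_, rfl⟩
  have hG1 : 1 ≤ G := by
    rw [hG]
    exact GG_ge hFAM hg T (T ^ k) (Nat.one_le_pow _ _ (by omega))
  obtain ⟨w, hw⟩ : ∃ w : Z2 → ℝ, w = fun z => FF (psi (LP E κ)) (Sq (P0 E T) (T ^ k)) z ^ 2 :=
    ⟨_, rfl⟩
  have hw0 : ∀ z, 0 ≤ w z := fun z => by rw [hw]; positivity
  -- small errors
  have herr : ∀ a : ℕ, a + 1 ≤ k₀ → 4 * (T : ℝ) ^ a * H ≤ (H : ℝ) ^ 2 * G / 100 := by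
    intro a ha
    have h1 : (T : ℝ) ^ a * 400 ≤ H := by
      calc (T : ℝ) ^ a * 400 ≤ (T : ℝ) ^ a * T := mul_le_mul_of_nonneg_left hTr (by positivity)
        _ = (T : ℝ) ^ (a + 1) := (pow_succ _ _).symm
        _ ≤ (T : ℝ) ^ k₀ := pow_le_pow_right₀ (by linarith) ha
        _ = H := hHr.symm
    have h2 : (T : ℝ) ^ a * 400 * H ≤ H * H := mul_le_mul_of_nonneg_right h1 hH0.le
    have h3 : (H : ℝ) ^ 2 * 1 ≤ (H : ℝ) ^ 2 * G := mul_le_mul_of_nonneg_left hG1 (by positivity)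
    nlinarith
  have hHG : 0 < (H : ℝ) ^ 2 * G := by positivity
  by_contra hcon
  push Not at hcon
  -- the box
  obtain ⟨Bx, hBx⟩ : ∃ Bx : Finset Z2, Bx = Box ((α : ℤ) * (T ^ k₀ : ℕ)) ((β : ℤ) * (T ^ k₀ : ℕ))
    (T ^ k₀) (T ^ k₀) := ⟨_, rfl⟩
  rw [← hBx] at hcon
  obtain ⟨QA, hQA⟩ : ∃ QA : Finset ℕ, QA = (QQ Q T (T ^ (2 * k₀ + 1))).filter
    (fun q => q ≤ T ^ (k₀ - k₄)) := ⟨_, rfl⟩
  obtain ⟨QB, hQB⟩ : ∃ QB : Finset ℕ, QB = (QQ Q T (T ^ (2 * k₀ + 1))).filter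
    (fun q => q ≤ T ^ (2 * (k₀ - k₄))) := ⟨_, rfl⟩
  obtain ⟨J, hJ⟩ : ∃ J : Finset (Fin 5), J = univ.filter (fun i => i ≠ 4) := ⟨_, rfl⟩
  have hJc : J.card = 4 := by rw [hJ]; decide
  have hcov : ∀ z ∈ Bx, (∃ q ∈ P0 E T, (q : ℤ) ∣ LP E κ z) ∨
      (∃ x ∈ J ×ˢ QA ∪ ({4} : Finset (Fin 5)) ×ˢ QB, ((x.2 : ℕ) : ℤ) ∣ LL E κ x.1 z ∧
        (x.1 = 4 → ¬ ((x.2 : ℕ) : ℤ) ∣ LL E κ 0 z)) ∨
      ∃ i ∈ (univ : Finset (Fin 5)), ∀ p ∈ P1 T k₂ k₃, ¬ (p : ℤ) ∣ LL E κ i z := by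
    intro z hz
    obtain ⟨p, hp, hpL, hpT⟩ := hcon z hz
    by_cases hpT' : p ≤ T
    · left
      refine ⟨p, ?_, hpL⟩
      rw [mem_P0]
      refine ⟨hpT', hp, ?_⟩
      intro hpE
      exact hCOP E κ hg z p hp hpE hpL
    right
    push Not at hpT'
    have hpQ : p ∈ Q := hpT hpT'
    have hLP : LP E κ z ≠ 0 := by
      intro h0
      apply hCOP E κ hg z 2 Nat.prime_two (dvd_trans (by norm_num) hg.small)
      rw [h0]
      exact dvd_zero _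
    have hLi : ∀ i, LL E κ i z ≠ 0 := by
      intro i h0
      apply hLP
      unfold LP
      exact Finset.prod_eq_zero (mem_univ i) h0
    rw [hBx] at hz
    obtain ⟨hs1, hs4⟩ := hsz z hz
    have hkk : k₄ ≤ k₀ := by omega
    have hL1 : ∀ i : Fin 5, i ≠ 4 → |LL E κ i z| ≤ ((T ^ (k₀ - k₄) * T ^ k₂ : ℕ) : ℤ) := by
      intro i hi
      refine (hs1 i hi).trans ?_
      have : T * T ^ k₀ ≤ T ^ (k₀ - k₄) * T ^ k₂ := by
        rw [← pow_add, ← pow_succ']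
        exact Nat.pow_le_pow_right (by omega) (by omega)
      exact_mod_cast this
    have hL1' : ∀ i : Fin 5, i ≠ 4 → |LL E κ i z| ≤ ((T ^ (2 * k₀ + 1) : ℕ) : ℤ) := by
      intro i hi
      refine (hs1 i hi).trans ?_
      have : T * T ^ k₀ ≤ T ^ (2 * k₀ + 1) := by
        rw [← pow_succ']
        exact Nat.pow_le_pow_right (by omega) (by omega)
      exact_mod_cast this
    have hL4 : |LL E κ 4 z| ≤ ((T ^ (2 * (k₀ - k₄)) * T ^ k₂ : ℕ) : ℤ) := by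
      refine hs4.trans ?_
      have : T * (T ^ k₀) ^ 2 ≤ T ^ (2 * (k₀ - k₄)) * T ^ k₂ := by
        rw [← pow_add, ← pow_mul, ← pow_succ']
        exact Nat.pow_le_pow_right (by omega) (by omega)
      exact_mod_cast this
    have hL4' : |LL E κ 4 z| ≤ ((T ^ (2 * k₀ + 1) : ℕ) : ℤ) := by
      refine hs4.trans ?_
      have : T * (T ^ k₀) ^ 2 ≤ T ^ (2 * k₀ + 1) := by
        rw [← pow_mul, ← pow_succ']
        exact Nat.pow_le_pow_right (by omega) (by omega)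
      exact_mod_cast this
    -- linear forms
    have key1 : ∀ i : Fin 5, i ≠ 4 → (p : ℤ) ∣ LL E κ i z →
        (∃ x ∈ J ×ˢ QA ∪ ({4} : Finset (Fin 5)) ×ˢ QB, ((x.2 : ℕ) : ℤ) ∣ LL E κ x.1 z ∧
          (x.1 = 4 → ¬ ((x.2 : ℕ) : ℤ) ∣ LL E κ 0 z)) ∨
        ∃ i ∈ (univ : Finset (Fin 5)), ∀ p ∈ P1 T k₂ k₃, ¬ (p : ℤ) ∣ LL E κ i z := by
      intro i hi hpi
      by_cases hq : p ≤ T ^ (k₀ - k₄)
      · left
        refine ⟨(i, p), ?_, hpi, fun h => absurd h hi⟩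
        rw [mem_union, mem_product]
        left
        refine ⟨?_, ?_⟩
        · rw [hJ, mem_filter]
          exact ⟨mem_univ _, hi⟩
        · rw [hQA, mem_filter, mem_QQ]
          exact ⟨⟨⟨hpT', small_of_dvd (hLi i) hpi (hL1' i hi)⟩, hp, hpQ⟩, hq⟩
      · right
        refine ⟨i, mem_univ _, ?_⟩
        intro p' hp' hd
        rw [mem_P1] at hp'
        push Not at hq
        refine noprime (hLi i) hp hp'.2.1 ?_ hpi hd hq hp'.1.1 (hL1 i hi)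
        intro heq
        have h1 : T ^ k₃ ≤ T ^ (k₀ - k₄) := Nat.pow_le_pow_right (by omega) (by omega)
        have h2 := hp'.1.2
        omega
    obtain ⟨i, _, hpi⟩ : ∃ i ∈ (univ : Finset (Fin 5)), (p : ℤ) ∣ LL E κ i z := by
      have hpP : Prime (p : ℤ) := Nat.prime_iff_prime_int.1 hp
      unfold LP at hpL
      exact (hpP.dvd_finsetProd_iff _).1 hpL
    by_cases hi : i = 4
    · subst hi
      by_cases h0 : (p : ℤ) ∣ LL E κ 0 z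
      · exact key1 0 (by decide) h0
      by_cases hq : p ≤ T ^ (2 * (k₀ - k₄))
      · left
        refine ⟨(4, p), ?_, hpi, fun _ => h0⟩
        rw [mem_union, mem_product (s := {4})]
        right
        refine ⟨mem_singleton_self _, ?_⟩
        rw [hQB, mem_filter, mem_QQ]
        exact ⟨⟨⟨hpT', small_of_dvd (hLi 4) hpi hL4'⟩, hp, hpQ⟩, hq⟩
      · right
        refine ⟨4, mem_univ _, ?_⟩
        intro p' hp' hd
        rw [mem_P1] at hp'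
        push Not at hq
        refine noprime (hLi 4) hp hp'.2.1 ?_ hpi hd hq hp'.1.1 hL4
        intro heq
        have h1 : T ^ k₃ ≤ T ^ (2 * (k₀ - k₄)) := Nat.pow_le_pow_right (by omega) (by omega)
        have h2 := hp'.1.2
        omega
    · exact key1 i hi hpi
  have hsum := cover Bx w hw0 (P0 E T) (fun q z => (q : ℤ) ∣ LP E κ z)
    (J ×ˢ QA ∪ ({4} : Finset (Fin 5)) ×ˢ QB) (fun x z => ((x.2 : ℕ) : ℤ) ∣ LL E κ x.1 z ∧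
        (x.1 = 4 → ¬ ((x.2 : ℕ) : ℤ) ∣ LL E κ 0 z)) univ
    (fun i z => ∀ p ∈ P1 T k₂ k₃, ¬ (p : ℤ) ∣ LL E κ i z) hcov
  -- the whole
  have hwhole : (99 / 100 : ℝ) * ((H : ℝ) ^ 2 * G) ≤ ∑ z ∈ Bx, w z := by
    have h1 := whole hQF hFAM hCARD hg T k ((α : ℤ) * (T ^ k₀ : ℕ)) ((β : ℤ) * (T ^ k₀ : ℕ))
      (T ^ k₀)
    rw [← hBx, ← hG, ← hH] at h1
    have h2 := herr (4 * k) (by omega)
    rw [hw]
    show (99 / 100 : ℝ) * ((H : ℝ) ^ 2 * G) ≤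
      ∑ z ∈ Bx, FF (psi (LP E κ)) (Sq (P0 E T) (T ^ k)) z ^ 2
    linarith
  -- small primes
  have hb1 : ∑ q ∈ P0 E T, ∑ z ∈ Bx.filter (fun z => (q : ℤ) ∣ LP E κ z), w z ≤
      (11 / 100 : ℝ) * ((H : ℝ) ^ 2 * G) := by
    have h1 := hSML E κ hg T k (by omega) hk2 ((α : ℤ) * (T ^ k₀ : ℕ)) ((β : ℤ) * (T ^ k₀ : ℕ))
      (T ^ k₀)
    rw [← hBx, ← hG, ← hH] at h1
    have h2 := herr (4 * k + 2) (by omega)
    have h3 : C / ((k : ℝ) - 1) * ((H : ℝ) ^ 2 * G) ≤ 1 / 10 * ((H : ℝ) ^ 2 * G) :=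
      mul_le_mul_of_nonneg_right hkC hHG.le
    rw [hw]
    show ∑ q ∈ P0 E T, ∑ z ∈ Bx.filter (fun z => (q : ℤ) ∣ LP E κ z),
      FF (psi (LP E κ)) (Sq (P0 E T) (T ^ k)) z ^ 2 ≤ _
    linarith
  -- middle primes
  have hsA : ∑ q ∈ QA, (1 : ℝ) / q ≤ 1 / 1000 := by
    refine le_trans ?_ hQ
    rw [hQA]
    exact Finset.sum_le_sum_of_subset_of_nonneg (filter_subset _ _) fun _ _ _ => by positivity
  have hsB : ∑ q ∈ QB, (1 : ℝ) / q ≤ 1 / 1000 := by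
    refine le_trans ?_ hQ
    rw [hQB]
    exact Finset.sum_le_sum_of_subset_of_nonneg (filter_subset _ _) fun _ _ _ => by positivity
  have hb2 : ∑ x ∈ J ×ˢ QA ∪ ({4} : Finset (Fin 5)) ×ˢ QB,
      ∑ z ∈ Bx.filter (fun z => ((x.2 : ℕ) : ℤ) ∣ LL E κ x.1 z ∧
        (x.1 = 4 → ¬ ((x.2 : ℕ) : ℤ) ∣ LL E κ 0 z)), w z ≤
      (58 / 1000 : ℝ) * ((H : ℝ) ^ 2 * G) := by
    have hdis : Disjoint (J ×ˢ QA) (({4} : Finset (Fin 5)) ×ˢ QB) := by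
      rw [Finset.disjoint_left]
      rintro ⟨i, q⟩ h1 h2
      rw [mem_product] at h1 h2
      have h3 := h1.1
      rw [hJ, mem_filter] at h3
      exact h3.2 (mem_singleton.1 h2.1)
    rw [Finset.sum_union hdis, Finset.sum_product, Finset.sum_product, Finset.sum_singleton]
    have hA : ∀ i ∈ J, ∑ q ∈ QA, ∑ z ∈ Bx.filter (fun z => ((q : ℕ) : ℤ) ∣ LL E κ i z ∧
        (i = 4 → ¬ ((q : ℕ) : ℤ) ∣ LL E κ 0 z)), w z ≤ (5 / 1000 : ℝ) * ((H : ℝ) ^ 2 * G) := by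
      intro i hi
      have hi4 : i ≠ 4 := by
        rw [hJ, mem_filter] at hi
        exact hi.2
      calc ∑ q ∈ QA, ∑ z ∈ Bx.filter (fun z => ((q : ℕ) : ℤ) ∣ LL E κ i z ∧
            (i = 4 → ¬ ((q : ℕ) : ℤ) ∣ LL E κ 0 z)), w z
          ≤ ∑ q ∈ QA, 5 * ((H : ℝ) ^ 2 * G) * (1 / (q : ℝ)) := by
            apply Finset.sum_le_sum
            intro q hq
            rw [hQA, mem_filter, mem_QQ] at hq
            have h1 := hMIDL E κ hg T k k₄ k₀ hET (by omega) (by omega) (by omega) q hq.1.2.1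
              hq.1.1.1 hq.2 i hi4 ((α : ℤ) * (T ^ k₀ : ℕ)) ((β : ℤ) * (T ^ k₀ : ℕ))
            rw [← hBx, ← hG, ← hH] at h1
            have h2 : Bx.filter (fun z => ((q : ℕ) : ℤ) ∣ LL E κ i z ∧
                (i = 4 → ¬ ((q : ℕ) : ℤ) ∣ LL E κ 0 z)) =
                Bx.filter (fun z => ((q : ℕ) : ℤ) ∣ LL E κ i z) := by
              apply Finset.filter_congr
              intro z _
              exact ⟨fun h => h.1, fun h => ⟨h, fun h' => absurd h' hi4⟩⟩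
            rw [h2, hw]
            refine h1.trans (le_of_eq ?_)
            ring
        _ = 5 * ((H : ℝ) ^ 2 * G) * ∑ q ∈ QA, 1 / (q : ℝ) := by rw [Finset.mul_sum]
        _ ≤ 5 * ((H : ℝ) ^ 2 * G) * (1 / 1000) := mul_le_mul_of_nonneg_left hsA (by positivity)
        _ = (5 / 1000 : ℝ) * ((H : ℝ) ^ 2 * G) := by ring
    have hA' : ∑ i ∈ J, ∑ q ∈ QA, ∑ z ∈ Bx.filter (fun z => ((q : ℕ) : ℤ) ∣ LL E κ i z ∧
        (i = 4 → ¬ ((q : ℕ) : ℤ) ∣ LL E κ 0 z)), w z ≤ 4 * ((5 / 1000 : ℝ) * ((H : ℝ) ^ 2 * G)) := by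
      refine (Finset.sum_le_card_nsmul J _ _ hA).trans (le_of_eq ?_)
      rw [hJc, nsmul_eq_mul]
      norm_num
    have hB' : ∑ q ∈ QB, ∑ z ∈ Bx.filter (fun z => ((q : ℕ) : ℤ) ∣ LL E κ 4 z ∧
        ((4 : Fin 5) = 4 → ¬ ((q : ℕ) : ℤ) ∣ LL E κ 0 z)), w z ≤
        (38 / 1000 : ℝ) * ((H : ℝ) ^ 2 * G) := by
      calc ∑ q ∈ QB, ∑ z ∈ Bx.filter (fun z => ((q : ℕ) : ℤ) ∣ LL E κ 4 z ∧
            ((4 : Fin 5) = 4 → ¬ ((q : ℕ) : ℤ) ∣ LL E κ 0 z)), w z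
          ≤ ∑ q ∈ QB, 38 * ((H : ℝ) ^ 2 * G) * (1 / (q : ℝ)) := by
            apply Finset.sum_le_sum
            intro q hq
            rw [hQB, mem_filter, mem_QQ] at hq
            have h1 := hMIDQ E κ hg T k k₄ k₀ hET (by omega) (by omega) (by omega) q hq.1.2.1
              hq.1.1.1 hq.2 ((α : ℤ) * (T ^ k₀ : ℕ)) ((β : ℤ) * (T ^ k₀ : ℕ))
            rw [← hBx, ← hG, ← hH] at h1
            have h2 : Bx.filter (fun z => ((q : ℕ) : ℤ) ∣ LL E κ 4 z ∧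
                ((4 : Fin 5) = 4 → ¬ ((q : ℕ) : ℤ) ∣ LL E κ 0 z)) =
                Bx.filter (fun z => ((q : ℕ) : ℤ) ∣ LL E κ 4 z ∧ ¬ ((q : ℕ) : ℤ) ∣ LL E κ 0 z) := by
              apply Finset.filter_congr
              intro z _
              exact ⟨fun h => ⟨h.1, h.2 rfl⟩, fun h => ⟨h.1, fun _ => h.2⟩⟩
            rw [h2, hw]
            refine h1.trans (le_of_eq ?_)
            ring
        _ = 38 * ((H : ℝ) ^ 2 * G) * ∑ q ∈ QB, 1 / (q : ℝ) := by rw [Finset.mul_sum]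
        _ ≤ 38 * ((H : ℝ) ^ 2 * G) * (1 / 1000) := mul_le_mul_of_nonneg_left hsB (by positivity)
        _ = (38 / 1000 : ℝ) * ((H : ℝ) ^ 2 * G) := by ring
    have := add_le_add hA' hB'
    refine this.trans (le_of_eq ?_)
    ring
  -- top primes
  have hb3 : ∑ i ∈ (univ : Finset (Fin 5)),
      ∑ z ∈ Bx.filter (fun z => ∀ p ∈ P1 T k₂ k₃, ¬ (p : ℤ) ∣ LL E κ i z), w z ≤
      (51 / 1000 : ℝ) * ((H : ℝ) ^ 2 * G) := by
    have hA : ∀ i ∈ (univ : Finset (Fin 5)),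
        ∑ z ∈ Bx.filter (fun z => ∀ p ∈ P1 T k₂ k₃, ¬ (p : ℤ) ∣ LL E κ i z), w z ≤
        (101 / 10000 : ℝ) * ((H : ℝ) ^ 2 * G) := by
      intro i _
      have h1 := hTOP E κ hg T k k₂ k₃ hET (by omega) i ((α : ℤ) * (T ^ k₀ : ℕ))
        ((β : ℤ) * (T ^ k₀ : ℕ)) (T ^ k₀)
        (Bx.filter (fun z => ∀ p ∈ P1 T k₂ k₃, ¬ (p : ℤ) ∣ LL E κ i z))
        (by rw [← hBx]; exact filter_subset _ _)
        (fun z hz => (mem_filter.1 hz).2)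
      rw [← hG, ← hH] at h1
      have h2 := herr (4 * (k + k₃)) (by omega)
      have h3 : 0 ≤ ∑ z ∈ Bx.filter (fun z => ∀ p ∈ P1 T k₂ k₃, ¬ (p : ℤ) ∣ LL E κ i z), w z :=
        Finset.sum_nonneg fun z _ => hw0 z
      have h4 : (101 : ℝ) *
          ∑ z ∈ Bx.filter (fun z => ∀ p ∈ P1 T k₂ k₃, ¬ (p : ℤ) ∣ LL E κ i z), w z ≤
          (1 + ∑ p ∈ P1 T k₂ k₃, (1 : ℝ) / p) *
          ∑ z ∈ Bx.filter (fun z => ∀ p ∈ P1 T k₂ k₃, ¬ (p : ℤ) ∣ LL E κ i z), w z :=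
        mul_le_mul_of_nonneg_right (by linarith) h3
      have h5 : (1 + ∑ p ∈ P1 T k₂ k₃, (1 : ℝ) / p) *
          ∑ z ∈ Bx.filter (fun z => ∀ p ∈ P1 T k₂ k₃, ¬ (p : ℤ) ∣ LL E κ i z), w z ≤
          (H : ℝ) ^ 2 * G + 4 * (T : ℝ) ^ (4 * (k + k₃)) * H := by
        rw [hw]
        exact h1
      linarith
    refine (Finset.sum_le_card_nsmul _ _ _ hA).trans ?_
    rw [card_univ, Fintype.card_fin, nsmul_eq_mul]
    push_cast
    linarith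
  linarith

end Pool.Agent.Work.MP_0f91f8_co.Rg
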