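import Pool.Agent.Work.MP_0f91f8_co.Rg.Stmts
import Pool.Agent.Work.MP_e0c7e8_nt.Mert

/-!
# Item SUM: the sets whose product is close to the bound
-/

set_option autoImplicit false

namespace Pool.Agent.Work.MP_0f91f8_co.Rg

open Finset

namespace I_SUM

/-- Mertens in the interval `(x / q, x]`. -/
theorem inner {C0 : ℝ} (hC0 : 0 ≤ C0)
    (hM : ∀ x : ℝ, 1 ≤ x →
      |∑ p ∈ (Finset.Icc 1 ⌊x⌋₊).filter Nat.Prime, Real.log p / (p : ℝ) - Real.log x| ≤ C0)
    (P : Finset ℕ) (h : ℕ → ℝ) (hP : ∀ p ∈ P, p.Prime ∧ 0 ≤ h p ∧ h p ≤ 12 / p)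
    (R q m : ℕ) (hq : q.Prime) (hm : 1 ≤ m) (hmR : m ≤ R) :
    ∑ p ∈ P.filter (fun p => p * m ≤ R ∧ R < q * (p * m)), h p * Real.log p ≤
      12 * (Real.log q + 2 * C0) := by
  have hm0 : (0 : ℝ) < m := by exact_mod_cast hm
  have hq0 : (0 : ℝ) < q := by exact_mod_cast hq.pos
  have hq1 : (1 : ℝ) ≤ q := by exact_mod_cast hq.one_lt.le
  set x : ℝ := (R : ℝ) / m with hx
  have hx1 : 1 ≤ x := by
    rw [hx, le_div_iff₀ hm0, one_mul]; exact_mod_cast hmR
  have hx0 : 0 < x := by linarith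
  set A := (Finset.Icc 1 ⌊x⌋₊).filter Nat.Prime with hA
  set B := (Finset.Icc 1 ⌊x / q⌋₊).filter Nat.Prime with hB
  have hBA : B ⊆ A := by
    apply Finset.filter_subset_filter
    apply Finset.Icc_subset_Icc le_rfl
    apply Nat.floor_le_floor
    exact div_le_self hx0.le hq1
  have hsub : P.filter (fun p => p * m ≤ R ∧ R < q * (p * m)) ⊆ A \ B := by
    intro p hp
    rw [Finset.mem_filter] at hp
    obtain ⟨hpP, h1, h2⟩ := hp
    have hpp := (hP p hpP).1
    rw [Finset.mem_sdiff, hA, hB, Finset.mem_filter, Finset.mem_filter, Finset.mem_Icc,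
      Finset.mem_Icc]
    refine ⟨⟨⟨hpp.one_lt.le, ?_⟩, hpp⟩, ?_⟩
    · apply Nat.le_floor
      rw [hx, le_div_iff₀ hm0]
      exact_mod_cast h1
    · rintro ⟨⟨_, h4⟩, _⟩
      have h5 : (p : ℝ) ≤ x / q := (Nat.le_floor_iff (by positivity)).1 h4
      rw [hx, div_div, le_div_iff₀ (by positivity)] at h5
      have h6 : p * (m * q) ≤ R := by exact_mod_cast h5
      have h7 : q * (p * m) = p * (m * q) := by ring
      omega
  have hlog : ∀ p : ℕ, 0 ≤ Real.log p / (p : ℝ) := fun p =>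
    div_nonneg (Real.log_natCast_nonneg p) (Nat.cast_nonneg p)
  have h1 : ∑ p ∈ P.filter (fun p => p * m ≤ R ∧ R < q * (p * m)), h p * Real.log p ≤
      ∑ p ∈ P.filter (fun p => p * m ≤ R ∧ R < q * (p * m)), 12 * (Real.log p / (p : ℝ)) := by
    refine Finset.sum_le_sum fun p hp => ?_
    have hp' := hP p (Finset.mem_filter.1 hp).1
    calc h p * Real.log p ≤ 12 / p * Real.log p :=
          mul_le_mul_of_nonneg_right hp'.2.2 (Real.log_natCast_nonneg p)
      _ = 12 * (Real.log p / (p : ℝ)) := by ring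
  have h2 : ∑ p ∈ P.filter (fun p => p * m ≤ R ∧ R < q * (p * m)), 12 * (Real.log p / (p : ℝ)) ≤
      ∑ p ∈ A \ B, 12 * (Real.log p / (p : ℝ)) :=
    Finset.sum_le_sum_of_subset_of_nonneg hsub fun p _ _ => mul_nonneg (by norm_num) (hlog p)
  have h3 : ∑ p ∈ A \ B, Real.log p / (p : ℝ) =
      ∑ p ∈ A, Real.log p / (p : ℝ) - ∑ p ∈ B, Real.log p / (p : ℝ) := by
    rw [← Finset.sum_sdiff hBA]; ring
  have hAle : ∑ p ∈ A, Real.log p / (p : ℝ) ≤ Real.log x + C0 := by
    have := (abs_le.1 (hM x hx1)).2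
    rw [hA]; linarith
  have h4 : ∑ p ∈ A, Real.log p / (p : ℝ) - ∑ p ∈ B, Real.log p / (p : ℝ) ≤
      Real.log q + 2 * C0 := by
    rcases le_or_gt 1 (x / q) with h5 | h5
    · have hBge : Real.log (x / q) - C0 ≤ ∑ p ∈ B, Real.log p / (p : ℝ) := by
        have := (abs_le.1 (hM (x / q) h5)).1
        rw [hB]; linarith
      rw [Real.log_div hx0.ne' hq0.ne'] at hBge
      linarith
    · have hB0 : 0 ≤ ∑ p ∈ B, Real.log p / (p : ℝ) := Finset.sum_nonneg fun p _ => hlog p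
      have h6 : x ≤ q := by
        rw [div_lt_one hq0] at h5; exact h5.le
      have h7 : Real.log x ≤ Real.log q := Real.log_le_log hx0 h6
      linarith
  refine h1.trans (h2.trans ?_)
  rw [← Finset.mul_sum, h3]
  exact mul_le_mul_of_nonneg_left h4 (by norm_num)

end I_SUM

open I_SUM in
/-- [SUM] -/
theorem SUM_pf : S_SUM := by
  obtain ⟨C0', hM'⟩ := Pool.Agent.Work.MP_e0c7e8_nt.Mert.mertens1.2
  set C0 : ℝ := max C0' 0 with hC0d
  have hC0 : 0 ≤ C0 := le_max_right _ _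
  have hM : ∀ x : ℝ, 1 ≤ x →
      |∑ p ∈ (Finset.Icc 1 ⌊x⌋₊).filter Nat.Prime, Real.log p / (p : ℝ) - Real.log x| ≤ C0 :=
    fun x hx => (hM' x hx).trans (le_max_left _ _)
  have hl2 : 0 < Real.log 2 := Real.log_pos (by norm_num)
  refine ⟨12 * (1 + 2 * C0 / Real.log 2), by positivity, ?_⟩
  intro P h hP R q hq hqR
  have hq0 : (0 : ℝ) < q := by exact_mod_cast hq.pos
  have hlq : Real.log 2 ≤ Real.log q :=
    Real.log_le_log (by norm_num) (by exact_mod_cast hq.two_le)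
  have hK : 12 * (Real.log q + 2 * C0) ≤ 12 * (1 + 2 * C0 / Real.log 2) * Real.log q := by
    have h1 : 2 * C0 ≤ 2 * C0 / Real.log 2 * Real.log q := by
      rw [div_mul_eq_mul_div, le_div_iff₀ hl2]
      exact mul_le_mul_of_nonneg_left hlq (by positivity)
    nlinarith
  have hw : ∀ S ∈ Sq P R, 0 ≤ ∏ p ∈ S, h p := fun S hS =>
    Finset.prod_nonneg fun p hp =>
      (hP p (Finset.mem_powerset.1 (Finset.mem_filter.1 hS).1 hp)).2.1
  -- step 1
  have h1 : GG h (Sh P R q) * Real.log (R / q) ≤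
      ∑ S ∈ Sh P R q, ∑ p ∈ S, (∏ p' ∈ S.erase p, h p') * (h p * Real.log p) := by
    rw [GG, Finset.sum_mul]
    refine Finset.sum_le_sum fun S hS => ?_
    rw [Sh, Finset.mem_filter] at hS
    obtain ⟨hSq, -, hlt⟩ := hS
    have hSP := Finset.mem_powerset.1 (Finset.mem_filter.1 hSq).1
    have h2 : Real.log (R / q) ≤ ∑ p ∈ S, Real.log p := by
      rw [← Real.log_prod (fun p hp => by
        have := (hP p (hSP hp)).1.pos
        exact_mod_cast this.ne')]
      apply Real.log_le_log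
      · have : (0 : ℝ) < R := by exact_mod_cast hq.pos.trans_le hqR
        positivity
      · rw [div_le_iff₀ hq0]
        have : (R : ℝ) ≤ ((q * ∏ p ∈ S, p : ℕ) : ℝ) := by exact_mod_cast hlt.le
        rw [Nat.cast_mul, Nat.cast_prod] at this
        linarith
    calc (∏ p ∈ S, h p) * Real.log (R / q) ≤ (∏ p ∈ S, h p) * ∑ p ∈ S, Real.log p :=
          mul_le_mul_of_nonneg_left h2 (hw S hSq)
      _ = _ := by
        rw [Finset.mul_sum]
        refine Finset.sum_congr rfl fun p hp => ?_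
        rw [← Finset.prod_erase_mul S h hp]; ring
  -- step 2
  have h2 : ∑ S ∈ Sh P R q, ∑ p ∈ S, (∏ p' ∈ S.erase p, h p') * (h p * Real.log p) ≤
      ∑ x ∈ (Sq P R ×ˢ P).filter (fun x => x.2 * (∏ p ∈ x.1, p) ≤ R ∧
        R < q * (x.2 * (∏ p ∈ x.1, p))), (∏ p' ∈ x.1, h p') * (h x.2 * Real.log x.2) := by
    rw [Finset.sum_sigma']
    have hinj : Set.InjOn (fun t : (Σ _ : Finset ℕ, ℕ) => (t.1.erase t.2, t.2))
        (((Sh P R q).sigma fun S => S : Finset (Σ _ : Finset ℕ, ℕ)) :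
          Set (Σ _ : Finset ℕ, ℕ)) := by
      rintro ⟨S, p⟩ hS ⟨S', p'⟩ hS' heq
      simp only [Finset.coe_sigma, Set.mem_sigma_iff, Finset.mem_coe] at hS hS'
      simp only [Prod.mk.injEq] at heq
      obtain ⟨h1, h2⟩ := heq
      subst h2
      have : S = S' := by
        rw [← Finset.insert_erase hS.2, h1, Finset.insert_erase hS'.2]
      subst this
      rfl
    have hs := Finset.sum_image (s := ((Sh P R q).sigma fun S => S))
      (f := fun x : Finset ℕ × ℕ => (∏ p' ∈ x.1, h p') * (h x.2 * Real.log x.2)) hinj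
    rw [← hs]
    refine Finset.sum_le_sum_of_subset_of_nonneg ?_ ?_
    · intro x hx
      rw [Finset.mem_image] at hx
      obtain ⟨⟨S, p⟩, hSp, rfl⟩ := hx
      rw [Finset.mem_sigma] at hSp
      obtain ⟨hS, hp⟩ := hSp
      simp only at hS hp
      rw [Sh, Finset.mem_filter] at hS
      obtain ⟨hSq, -, hlt⟩ := hS
      rw [Sq, Finset.mem_filter] at hSq
      obtain ⟨hSP, hle⟩ := hSq
      have hSP' := Finset.mem_powerset.1 hSP
      have hprod : p * ∏ p' ∈ S.erase p, p' = ∏ p' ∈ S, p' :=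
        Finset.mul_prod_erase S (fun p => p) hp
      have hpp := (hP p (hSP' hp)).1.pos
      simp only [Finset.mem_filter, Finset.mem_product]
      refine ⟨⟨?_, hSP' hp⟩, ?_, ?_⟩
      · rw [Sq, Finset.mem_filter, Finset.mem_powerset]
        refine ⟨(Finset.erase_subset _ _).trans hSP', ?_⟩
        calc ∏ p' ∈ S.erase p, p' ≤ p * ∏ p' ∈ S.erase p, p' := Nat.le_mul_of_pos_left _ hpp
          _ = ∏ p' ∈ S, p' := hprod
          _ ≤ R := hle
      · rw [hprod]; exact hle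
      · rw [hprod]; exact hlt
    · intro x hx _
      rw [Finset.mem_filter, Finset.mem_product] at hx
      refine mul_nonneg (hw _ hx.1.1) (mul_nonneg (hP _ hx.1.2).2.1 (Real.log_natCast_nonneg _))
  -- step 3
  have h3 : ∑ x ∈ (Sq P R ×ˢ P).filter (fun x => x.2 * (∏ p ∈ x.1, p) ≤ R ∧
        R < q * (x.2 * (∏ p ∈ x.1, p))), (∏ p' ∈ x.1, h p') * (h x.2 * Real.log x.2) ≤
      ∑ S ∈ Sq P R, (∏ p' ∈ S, h p') * (12 * (Real.log q + 2 * C0)) := by
    rw [Finset.sum_filter, Finset.sum_product]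
    refine Finset.sum_le_sum fun S hS => ?_
    rw [← Finset.sum_filter]
    dsimp only
    rw [← Finset.mul_sum]
    refine mul_le_mul_of_nonneg_left ?_ (hw S hS)
    have hS' := hS
    rw [Sq, Finset.mem_filter] at hS'
    have hSP' := Finset.mem_powerset.1 hS'.1
    exact inner hC0 hM P h hP R q (∏ p ∈ S, p) hq
      (Finset.one_le_prod' fun p hp => (hP p (hSP' hp)).1.one_lt.le) hS'.2
  have hG : 0 ≤ GG h (Sq P R) := Finset.sum_nonneg hw
  calc GG h (Sh P R q) * Real.log (R / q)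
      ≤ ∑ S ∈ Sq P R, (∏ p' ∈ S, h p') * (12 * (Real.log q + 2 * C0)) := h1.trans (h2.trans h3)
    _ = 12 * (Real.log q + 2 * C0) * GG h (Sq P R) := by rw [← Finset.sum_mul, GG]; ring
    _ ≤ 12 * (1 + 2 * C0 / Real.log 2) * Real.log q * GG h (Sq P R) :=
      mul_le_mul_of_nonneg_right hK hG

end Pool.Agent.Work.MP_0f91f8_co.Rg
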