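import Pool.Agent.Work.MP_0f91f8_co.Rg.Stmts

/-!
# Item SZ: sizes of the forms
-/

set_option autoImplicit false

namespace Pool.Agent.Work.MP_0f91f8_co.Rg

open Finset

theorem SZ_pf : S_SZ := by
  intro E κ hg α β
  refine ⟨((1 + E * (α + 1)) + κ * (1 + E * (β + 1))) ^ 2, fun T H hT hH z hz => ?_⟩
  unfold Box at hz
  rw [mem_product, mem_Ico, mem_Ico] at hz
  obtain ⟨⟨h1, h2⟩, h3, h4⟩ := hz
  have hκ : (1 : ℤ) ≤ κ := by exact_mod_cast hg.pos
  have hE : (1 : ℤ) ≤ E := by exact_mod_cast hg.epos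
  have hH' : (1 : ℤ) ≤ H := by exact_mod_cast hH
  have hα : (0 : ℤ) ≤ α := by positivity
  have hβ : (0 : ℤ) ≤ β := by positivity
  have hT' : (((1 : ℤ) + E * (α + 1)) + κ * (1 + E * (β + 1))) ^ 2 ≤ T := by exact_mod_cast hT
  have hz1 : 0 ≤ z.1 := le_trans (by positivity) h1
  have hz2 : 0 ≤ z.2 := le_trans (by positivity) h3
  have hEk : ((E / κ : ℕ) : ℤ) ≤ E := by exact_mod_cast Nat.div_le_self E κ
  have hEk0 : (0 : ℤ) ≤ ((E / κ : ℕ) : ℤ) := by positivity
  have hu0 : 0 ≤ uu E z := by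
    unfold uu; positivity
  have hv0 : 0 ≤ vv E κ z := by
    unfold vv; positivity
  have hu : uu E z ≤ (1 + E * (α + 1)) * H := by
    unfold uu
    have h5 : (E : ℤ) * z.1 ≤ E * ((α + 1) * H) :=
      mul_le_mul_of_nonneg_left (by nlinarith) (by positivity)
    nlinarith
  have hv : vv E κ z ≤ (1 + E * (β + 1)) * H := by
    unfold vv
    have h5 : ((E / κ : ℕ) : ℤ) * z.2 ≤ E * ((β + 1) * H) :=
      mul_le_mul hEk (by nlinarith) hz2 (by positivity)
    nlinarith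
  generalize ha : (1 : ℤ) + E * (α + 1) = a at hT' hu
  generalize hb : (1 : ℤ) + E * (β + 1) = b at hT' hv
  have ha1 : 1 ≤ a := by
    rw [← ha]
    have : 0 ≤ (E : ℤ) * (α + 1) := by positivity
    linarith
  have hb1 : 1 ≤ b := by
    rw [← hb]
    have : 0 ≤ (E : ℤ) * (β + 1) := by positivity
    linarith
  have hkb : b ≤ κ * b := by nlinarith
  have hkv : (κ : ℤ) * vv E κ z ≤ (κ * b) * H := by
    rw [mul_assoc]
    exact mul_le_mul_of_nonneg_left hv (by positivity)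
  have hkv0 : 0 ≤ (κ : ℤ) * vv E κ z := by positivity
  generalize (κ : ℤ) * b = k at hT' hkb hkv
  have hTH : (a + k) * H ≤ T * H := by
    refine mul_le_mul_of_nonneg_right (le_trans ?_ hT') (by positivity)
    nlinarith
  have hTH2 : (a + k) ^ 2 * (H : ℤ) ^ 2 ≤ T * (H : ℤ) ^ 2 :=
    mul_le_mul_of_nonneg_right hT' (by positivity)
  have hbH : b * H ≤ k * H := mul_le_mul_of_nonneg_right hkb (by positivity)
  have haH : 0 ≤ a * H := by positivity
  have hexp : (a + k) * H = a * H + k * H := by ring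
  refine ⟨fun i hi => ?_, ?_⟩
  · unfold LL
    split_ifs with h0 h1 h2 h3
    · rw [abs_of_nonneg hu0]; nlinarith
    · rw [abs_of_nonneg hv0]; nlinarith
    · rw [abs_le]; constructor <;> linarith
    · rw [abs_le]; constructor <;> linarith
    · exfalso
      fin_cases i <;> simp_all
  · have h40 : LL E κ 4 z = uu E z ^ 2 + (κ * vv E κ z) ^ 2 := by
      unfold LL
      simp
    rw [h40, abs_of_nonneg (by positivity)]
    refine le_trans ?_ hTH2
    have h5 : uu E z ^ 2 ≤ (a * H) ^ 2 := pow_le_pow_left₀ hu0 hu 2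
    have h6 : (κ * vv E κ z) ^ 2 ≤ (k * H) ^ 2 := pow_le_pow_left₀ hkv0 hkv 2
    have h7 : (a + k) ^ 2 * (H : ℤ) ^ 2 = (a * H) ^ 2 + (k * H) ^ 2 + 2 * ((a * H) * (k * H)) := by
      ring
    rw [h7]
    have h8 : 0 ≤ k * (H : ℤ) := by nlinarith
    have h9 : 0 ≤ (a * H) * (k * H) := mul_nonneg haH h8
    linarith

end Pool.Agent.Work.MP_0f91f8_co.Rg
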