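import Pool.Agent.Work.MP_0f91f8_co.Rg.Stmts

set_option autoImplicit false

namespace Pool.Agent.Work.MP_0f91f8_co.Rg

open Finset

namespace I_TOP

theorem av_one : av 1 (fun _ => (1 : ℝ)) = 1 := by
  unfold av Box
  simp

theorem mem_Ext {I : Finset (Finset ℕ)} {P : Finset ℕ} {S : Finset ℕ} (h : S ∈ Ext I P) :
    S ∈ I ∨ ∃ S' ∈ I, ∃ p ∈ P, insert p S' = S := by
  unfold Ext at h
  rw [mem_union, mem_image] at h
  rcases h with h | ⟨x, hx, rfl⟩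
  · exact Or.inl h
  · rw [mem_product] at hx
    exact Or.inr ⟨x.1, hx.1, x.2, hx.2, rfl⟩

theorem mem_Sq {P S : Finset ℕ} {R : ℕ} (h : S ∈ Sq P R) : S ⊆ P ∧ ∏ p ∈ S, p ≤ R := by
  unfold Sq at h
  rw [mem_filter, mem_powerset] at h
  exact h

end I_TOP

open I_TOP in
theorem TOP_pf (h1 : S_QF) (h2 : S_FAM) (h3 : S_CARD) (h4 : S_EXT) : S_TOP := by
  intro E κ hg T k k₂ k₃ hET hk₂ i A B H Z hZ hZp
  obtain ⟨-, -, hfam⟩ := h2 E κ hg T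
  obtain ⟨hF, hP⟩ := hfam i k₂ k₃ hET hk₂
  set P := P1 T k₂ k₃ with hPdef
  set I := Sq (P0 E T) (T ^ k) with hI
  set ψ := psi (LP E κ) with hψ
  set ψ' := psi (LL E κ i) with hψ'
  set h := hh (LP E κ) with hh0
  set h' := hh (LL E κ i) with hh'
  have hT : 1 ≤ T := le_trans hg.epos hET
  have hIm : ∀ S ∈ I, (∀ p ∈ S, p ≤ T) ∧ ∏ p ∈ S, p ≤ T ^ k := by
    intro S hS
    obtain ⟨hs1, hs2⟩ := mem_Sq hS
    refine ⟨fun p hp => ?_, hs2⟩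
    have := hs1 hp
    unfold P0 at this
    rw [mem_filter, mem_Icc] at this
    exact this.1.2
  have hPm : ∀ p ∈ P, T < p ∧ p ≤ T ^ k₃ := by
    intro p hp
    refine ⟨(hP p hp).1, ?_⟩
    rw [hPdef] at hp
    unfold P1 at hp
    rw [mem_filter, mem_Ioc] at hp
    exact hp.1.2
  obtain ⟨e1, e2, e3⟩ := h4 I P T (T ^ k) (T ^ k₃) (Nat.one_le_pow _ _ hT) hIm hPm
  have hsub : ∀ S ∈ Ext I P, S ⊆ P0 E T ∪ P := by
    intro S hS
    rcases mem_Ext hS with h5 | ⟨S', hS', p, hp, rfl⟩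
    · exact (mem_Sq h5).1.trans subset_union_left
    · intro x hx
      rw [mem_insert] at hx
      rcases hx with rfl | hx
      · exact mem_union_right _ hp
      · exact mem_union_left _ ((mem_Sq hS').1 hx)
  have hcard : (Ext I P).card ≤ T ^ k * T ^ k₃ := by
    apply h3
    intro S hS
    exact ⟨fun p hp => hF.prime p (hsub S hS hp), e1 S hS⟩
  have hQ := h1 (P0 E T ∪ P) (mix T ψ ψ') (mix T h h') hF (Ext I P) (T ^ k * T ^ k₃)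
    (fun S hS => ⟨hsub S hS, e1 S hS⟩) 1 (fun _ => 1) Nat.one_pos (fun _ _ => rfl)
    (fun _ => ⟨zero_le_one, le_refl _⟩) (fun p _ => Nat.coprime_one_left p) A B H H
  rw [av_one, e3] at hQ
  have hQ2 := (abs_le.1 hQ).2
  -- the constant
  set G : ℝ := 1 + ∑ p ∈ P, h' p with hG
  set G0 : ℝ := 1 + ∑ p ∈ P, (1 : ℝ) / p with hG0
  have hG0G : G0 ≤ G := by
    rw [hG, hG0]
    have : ∑ p ∈ P, (1 : ℝ) / p ≤ ∑ p ∈ P, h' p := sum_le_sum fun p hp => (hP p hp).2.1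
    linarith
  have hG01 : 1 ≤ G0 := by
    rw [hG0]
    have : 0 ≤ ∑ p ∈ P, (1 : ℝ) / p := sum_nonneg fun p _ => by positivity
    linarith
  have hG1 : 1 ≤ G := hG01.trans hG0G
  have hval : ∀ z ∈ Z, FF (mix T ψ ψ') (Ext I P) z ^ 2 = G ^ 2 * FF ψ I z ^ 2 := by
    intro z hz
    rw [e2 ψ ψ' z]
    have : ∑ p ∈ P, ψ' p z = ∑ p ∈ P, h' p :=
      sum_congr rfl fun p hp => (hP p hp).2.2 z (hZp z hz p hp)
    rw [this]
    ring
  have hS1 : G ^ 2 * ∑ z ∈ Z, FF ψ I z ^ 2 ≤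
      ∑ z ∈ Box A B H H, 1 * FF (mix T ψ ψ') (Ext I P) z ^ 2 := by
    rw [mul_sum]
    calc ∑ z ∈ Z, G ^ 2 * FF ψ I z ^ 2 = ∑ z ∈ Z, FF (mix T ψ ψ') (Ext I P) z ^ 2 :=
          sum_congr rfl fun z hz => (hval z hz).symm
      _ ≤ ∑ z ∈ Box A B H H, FF (mix T ψ ψ') (Ext I P) z ^ 2 :=
          sum_le_sum_of_subset_of_nonneg hZ fun z _ _ => sq_nonneg _
      _ = _ := sum_congr rfl fun z _ => (one_mul _).symm
  have hc : ((Ext I P).card : ℝ) ^ 2 ≤ (((T ^ k * T ^ k₃ : ℕ)) : ℝ) ^ 2 := by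
    apply pow_le_pow_left₀ (by positivity)
    exact_mod_cast hcard
  have hR : (((T ^ k * T ^ k₃ : ℕ)) : ℝ) ^ 4 = (T : ℝ) ^ (4 * (k + k₃)) := by
    push_cast
    rw [← pow_add, ← pow_mul]
    ring_nf
  have hErr : ((Ext I P).card : ℝ) ^ 2 *
      (2 * (((1 : ℕ) : ℝ) * (((T ^ k * T ^ k₃ : ℕ)) : ℝ) ^ 2) * ((H : ℝ) + H)) ≤
      4 * (T : ℝ) ^ (4 * (k + k₃)) * H := by
    calc _ ≤ (((T ^ k * T ^ k₃ : ℕ)) : ℝ) ^ 2 *
      (2 * (((1 : ℕ) : ℝ) * (((T ^ k * T ^ k₃ : ℕ)) : ℝ) ^ 2) * ((H : ℝ) + H)) :=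
          mul_le_mul_of_nonneg_right hc (by positivity)
      _ = 4 * (((T ^ k * T ^ k₃ : ℕ)) : ℝ) ^ 4 * H := by push_cast; ring
      _ = _ := by rw [hR]
  set F2 : ℝ := ∑ z ∈ Z, FF ψ I z ^ 2 with hF2
  have hF20 : 0 ≤ F2 := sum_nonneg fun z _ => sq_nonneg _
  have key : G ^ 2 * F2 ≤ (H : ℝ) * H * (GG h I * G) + 4 * (T : ℝ) ^ (4 * (k + k₃)) * H := by
    have := hS1.trans (sub_le_iff_le_add.1 hQ2)
    rw [one_mul] at this
    linarith [hErr]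
  have hE0 : 0 ≤ 4 * (T : ℝ) ^ (4 * (k + k₃)) * H := by positivity
  have key2 : G * F2 ≤ (H : ℝ) ^ 2 * GG h I + 4 * (T : ℝ) ^ (4 * (k + k₃)) * H := by
    have hGp : 0 < G := by linarith
    refine le_of_mul_le_mul_left ?_ hGp
    nlinarith [mul_le_mul_of_nonneg_right hG1 hE0]
  calc G0 * F2 ≤ G * F2 := mul_le_mul_of_nonneg_right hG0G hF20
    _ ≤ _ := key2

end Pool.Agent.Work.MP_0f91f8_co.Rg
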