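import Pool.Agent.Work.MP_0f91f8_co.Rg.Stmts

set_option autoImplicit false

namespace Pool.Agent.Work.MP_0f91f8_co.Rg

open Finset

theorem TRI_pf : S_TRI := by
  intro D r e hD h4 he her
  obtain ⟨m, rfl⟩ : ∃ m, e = m + 1 := ⟨e - 1, by omega⟩
  obtain ⟨n, rfl⟩ : ∃ n, r = m + 1 + n := ⟨r - (m + 1), by omega⟩
  obtain ⟨c, hc⟩ : 4 ∣ D := dvd_trans (dvd_mul_right 4 30030) h4
  have h30 : 30030 ∣ D := dvd_trans (dvd_mul_left 30030 4) h4
  have hcpos : 0 < c := by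
    rcases Nat.eq_zero_or_pos c with h | h
    · subst h; simp at hc; omega
    · exact h
  have hmD : D ^ m * D = 2 * (D ^ m * (2 * c)) := by
    have h6 : D ^ m * D = D ^ m * (4 * c) := congrArg (fun x => D ^ m * x) hc
    rw [h6]; ring
  have hκ : D ^ (m + 1) / 2 = D ^ m * (2 * c) := by
    have : D ^ (m + 1) = 2 * (D ^ m * (2 * c)) := by rw [pow_succ]; exact hmD
    rw [this, Nat.mul_div_cancel_left _ (by norm_num)]
  have h2κ : 2 * (D ^ (m + 1) / 2) = D ^ (m + 1) := by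
    rw [hκ, pow_succ]; exact hmD.symm
  have hκpos : 0 < D ^ (m + 1) / 2 := by
    rw [hκ]; positivity
  have hE : D ^ (m + 1 + n + 1) = (D ^ (m + 1) / 2) * (2 * D ^ (n + 1)) := by
    calc D ^ (m + 1 + n + 1) = D ^ (m + 1) * D ^ (n + 1) := by rw [← pow_add]; ring_nf
      _ = (2 * (D ^ (m + 1) / 2)) * D ^ (n + 1) := by rw [h2κ]
      _ = _ := by ring
  have hEκ : D ^ (m + 1 + n + 1) / (D ^ (m + 1) / 2) = 2 * D ^ (n + 1) := by
    rw [hE, Nat.mul_div_cancel_left _ hκpos]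
  have hDdiv : D ∣ D ^ (m + 1 + n + 1) / (D ^ (m + 1) / 2) := by
    rw [hEκ, pow_succ]
    exact ⟨2 * D ^ n, by ring⟩
  refine ⟨⟨by positivity, hκpos, ⟨_, hE⟩, dvd_trans h30 (dvd_pow_self D (by omega)), ?_⟩, h2κ,
    dvd_pow_self D (by omega), hDdiv, ?_⟩
  · intro p hp hpE
    have hpD : p ∣ D := hp.dvd_of_dvd_pow hpE
    refine ⟨?_, dvd_trans hpD hDdiv⟩
    rw [hκ]
    apply dvd_mul_of_dvd_right
    have h5 : p ∣ 2 * (2 * c) := by
      have : D = 2 * (2 * c) := by rw [hc]; ring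
      rwa [this] at hpD
    rcases (Nat.Prime.dvd_mul hp).1 h5 with h6 | h6
    · exact dvd_trans h6 (dvd_mul_right 2 c)
    · exact h6
  · rw [hκ, mul_pow]
    apply dvd_mul_of_dvd_right
    exact ⟨c, by rw [hc]; ring⟩

end Pool.Agent.Work.MP_0f91f8_co.Rg
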