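import Pool.Agent.Work.MP_0f91f8_co.Rg.I_BOX
import Pool.Agent.Work.MP_0f91f8_co.Rg.I_AVM
import Pool.Agent.Work.MP_0f91f8_co.Rg.I_CRT
import Pool.Agent.Work.MP_0f91f8_co.Rg.I_AFF
import Pool.Agent.Work.MP_0f91f8_co.Rg.I_PRD
import Pool.Agent.Work.MP_0f91f8_co.Rg.I_ORT
import Pool.Agent.Work.MP_0f91f8_co.Rg.I_QF
import Pool.Agent.Work.MP_0f91f8_co.Rg.I_EV
import Pool.Agent.Work.MP_0f91f8_co.Rg.I_PSI
import Pool.Agent.Work.MP_0f91f8_co.Rg.I_CON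
import Pool.Agent.Work.MP_0f91f8_co.Rg.I_COP
import Pool.Agent.Work.MP_0f91f8_co.Rg.I_DEN1
import Pool.Agent.Work.MP_0f91f8_co.Rg.I_DEN5
import Pool.Agent.Work.MP_0f91f8_co.Rg.I_DENP
import Pool.Agent.Work.MP_0f91f8_co.Rg.I_FAM
import Pool.Agent.Work.MP_0f91f8_co.Rg.I_CARD
import Pool.Agent.Work.MP_0f91f8_co.Rg.I_LOC
import Pool.Agent.Work.MP_0f91f8_co.Rg.I_SUM
import Pool.Agent.Work.MP_0f91f8_co.Rg.I_SMA
import Pool.Agent.Work.MP_0f91f8_co.Rg.I_SML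
import Pool.Agent.Work.MP_0f91f8_co.Rg.I_LIN
import Pool.Agent.Work.MP_0f91f8_co.Rg.I_GAU
import Pool.Agent.Work.MP_0f91f8_co.Rg.I_MIDL
import Pool.Agent.Work.MP_0f91f8_co.Rg.I_MIDQ
import Pool.Agent.Work.MP_0f91f8_co.Rg.I_MER
import Pool.Agent.Work.MP_0f91f8_co.Rg.I_EXT
import Pool.Agent.Work.MP_0f91f8_co.Rg.I_TOP
import Pool.Agent.Work.MP_0f91f8_co.Rg.I_SZ
import Pool.Agent.Work.MP_0f91f8_co.Rg.I_SP
import Pool.Agent.Work.MP_0f91f8_co.Rg.I_SCA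
import Pool.Agent.Work.MP_0f91f8_co.Rg.I_TRI
import Pool.Agent.Work.MP_0f91f8_co.Rg.I_FIN
import Pool.Agent.Work.MP_0f91f8_co.Rg.I_FIN2

/-!
# The assembly
-/

set_option autoImplicit false

namespace Pool.Agent.Work.MP_0f91f8_co.Rg

theorem QF_ok : S_QF := QF_pf BOX_pf (ORT_pf CRT_pf AVM_pf (PRD_pf CRT_pf))

theorem DENP_ok : S_DENP := DENP_pf DEN1_pf DEN5_pf

theorem FAM_ok : S_FAM := FAM_pf PSI_pf CON_pf DEN1_pf DEN5_pf DENP_ok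

theorem EV_ok : S_EV := EV_pf AFF_pf QF_ok

theorem SML_ok : S_SML :=
  SML_pf CON_pf PSI_pf DENP_ok FAM_ok CARD_pf LOC_pf QF_ok (SMA_pf SUM_pf)

theorem SP_ok : S_SP :=
  SP_pf QF_ok COP_pf FAM_ok CARD_pf SML_ok (MIDL_pf EV_ok FAM_ok CARD_pf LIN_pf)
    (MIDQ_pf EV_ok FAM_ok CARD_pf GAU_pf) MER_pf (TOP_pf QF_ok FAM_ok CARD_pf EXT_pf) SZ_pf

theorem Main_ok : Main := FIN_pf TRI_pf SCA_pf SP_ok

theorem Main2_ok : Main2 := FIN2_pf TRI_pf SCA_pf SP_ok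

end Pool.Agent.Work.MP_0f91f8_co.Rg
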