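import Mathlib

/-!
# Colourings that ignore most large primes: definitions
-/

set_option autoImplicit false

namespace Pool.Agent.Work.MP_0f91f8_co.Rg

open Finset

/-- Integer points of the plane. -/
abbrev Z2 : Type := ℤ × ℤ

/-- `F` has period `N` in both variables. -/
def Per (N : ℕ) (F : Z2 → ℝ) : Prop := ∀ z w : Z2, F (z.1 + N * w.1, z.2 + N * w.2) = F z

/-- The box `[A, A + X) × [B, B + Y)`. -/
noncomputable def Box (A B : ℤ) (X Y : ℕ) : Finset Z2 := Ico A (A + X) ×ˢ Ico B (B + Y)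

/-- The mean over the period `N`. -/
noncomputable def av (N : ℕ) (F : Z2 → ℝ) : ℝ := (∑ z ∈ Box 0 0 N N, F z) / (N : ℝ) ^ 2

/-- Affine maps `(s, t) ↦ (a + x11 s + x12 t, b + x21 s + x22 t)`. -/
structure Aff where
  a : ℤ
  b : ℤ
  x11 : ℤ
  x12 : ℤ
  x21 : ℤ
  x22 : ℤ

/-- The value of an affine map. -/
def Aff.ap (φ : Aff) (z : Z2) : Z2 :=
  (φ.a + φ.x11 * z.1 + φ.x12 * z.2, φ.b + φ.x21 * z.1 + φ.x22 * z.2)

/-- The determinant of an affine map. -/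
def Aff.det (φ : Aff) : ℤ := φ.x11 * φ.x22 - φ.x12 * φ.x21

/-- One function `ψ p` for each prime `p ∈ P`, of period `p`, bounded by `1`, with mean `0` and
mean square `h p`. -/
structure Fam (P : Finset ℕ) (ψ : ℕ → Z2 → ℝ) (h : ℕ → ℝ) : Prop where
  prime : ∀ p ∈ P, p.Prime
  per : ∀ p ∈ P, Per p (ψ p)
  mean : ∀ p ∈ P, av p (ψ p) = 0
  sq : ∀ p ∈ P, av p (fun z => ψ p z ^ 2) = h p
  bd : ∀ p ∈ P, ∀ z, |ψ p z| ≤ 1

/-- The product of the functions of a set of primes. -/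
def Pr (ψ : ℕ → Z2 → ℝ) (S : Finset ℕ) (z : Z2) : ℝ := ∏ p ∈ S, ψ p z

/-- The weight. -/
def FF (ψ : ℕ → Z2 → ℝ) (I : Finset (Finset ℕ)) (z : Z2) : ℝ := ∑ S ∈ I, Pr ψ S z

/-- The mean square of the weight. -/
def GG (h : ℕ → ℝ) (I : Finset (Finset ℕ)) : ℝ := ∑ S ∈ I, ∏ p ∈ S, h p

/-- The subsets of `P` with product at most `R`. -/
def Sq (P : Finset ℕ) (R : ℕ) : Finset (Finset ℕ) :=
  P.powerset.filter fun S => ∏ p ∈ S, p ≤ R

/-- The subsets `S` of `P` with `q ∉ S` and `R / q < ∏ S ≤ R`. -/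
def Sh (P : Finset ℕ) (R q : ℕ) : Finset (Finset ℕ) :=
  (Sq P R).filter fun S => q ∉ S ∧ R < q * ∏ p ∈ S, p

/-- The sets `S` and `insert p S`, `S ∈ I`, `p ∈ P`. -/
def Ext (I : Finset (Finset ℕ)) (P : Finset ℕ) : Finset (Finset ℕ) :=
  I ∪ (I ×ˢ P).image fun x => insert x.2 x.1

/-- `f` on the numbers up to `T` and `g` above. -/
def mix {A : Type} (T : ℕ) (f g : ℕ → A) (p : ℕ) : A := if p ≤ T then f p else g p

/-- `L` is compatible with congruences. -/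
def Con (L : Z2 → ℤ) : Prop :=
  ∀ (N : ℕ) (z w : Z2), (N : ℤ) ∣ L (z.1 + N * w.1, z.2 + N * w.2) - L z

/-- The indicator function of `p ∣ L`. -/
noncomputable def chi (L : Z2 → ℤ) (p : ℕ) (z : Z2) : ℝ := if (p : ℤ) ∣ L z then 1 else 0

/-- The density of `p ∣ L`. -/
noncomputable def gg (L : Z2 → ℤ) (p : ℕ) : ℝ := av p (chi L p)

/-- `g / (1 - g)`. -/
noncomputable def hh (L : Z2 → ℤ) (p : ℕ) : ℝ := gg L p / (1 - gg L p)

/-- The function `ψ p`: it is `-1` if `p ∣ L` and `h p` otherwise. -/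
noncomputable def psi (L : Z2 → ℤ) (p : ℕ) (z : Z2) : ℝ := hh L p * (1 - chi L p z / gg L p)

/-- The conditions on the parameters: `κ ∣ E` and each prime factor of `E` divides both `κ` and
`E / κ`; all primes up to `13` divide `E`. -/
structure Good (E κ : ℕ) : Prop where
  epos : 0 < E
  pos : 0 < κ
  dvd : κ ∣ E
  small : 30030 ∣ E
  rad : ∀ p : ℕ, p.Prime → p ∣ E → p ∣ κ ∧ p ∣ E / κ

/-- `u = 1 + E a`. -/
def uu (E : ℕ) (z : Z2) : ℤ := 1 + E * z.1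

/-- `v = 1 + (E / κ) b`. -/
def vv (E κ : ℕ) (z : Z2) : ℤ := 1 + ((E / κ : ℕ) : ℤ) * z.2

/-- The five forms `u`, `v`, `u - κ v`, `u + κ v`, `u ^ 2 + (κ v) ^ 2`. -/
def LL (E κ : ℕ) (i : Fin 5) (z : Z2) : ℤ :=
  if i = 0 then uu E z
  else if i = 1 then vv E κ z
  else if i = 2 then uu E z - κ * vv E κ z
  else if i = 3 then uu E z + κ * vv E κ z
  else uu E z ^ 2 + (κ * vv E κ z) ^ 2

/-- The product of the five forms. -/
def LP (E κ : ℕ) (z : Z2) : ℤ := ∏ i : Fin 5, LL E κ i z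

/-- The small primes: the primes up to `T` that do not divide `E`. -/
def P0 (E T : ℕ) : Finset ℕ := (Icc 1 T).filter fun p => p.Prime ∧ ¬ p ∣ E

/-- The primes `p = 1 (mod 4)` with `T ^ k₂ < p ≤ T ^ k₃`. -/
def P1 (T k₂ k₃ : ℕ) : Finset ℕ := (Ioc (T ^ k₂) (T ^ k₃)).filter fun p => p.Prime ∧ p % 4 = 1

open scoped Classical in
/-- The primes of `Q` with `x < q ≤ y`. -/
noncomputable def QQ (Q : Set ℕ) (x y : ℕ) : Finset ℕ :=
  (Ioc x y).filter fun q => q.Prime ∧ q ∈ Q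

end Pool.Agent.Work.MP_0f91f8_co.Rg
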