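import Mathlib
import Pool.Agent.Work.MP_0f91f8_co.Rg.Stmts

set_option autoImplicit false

namespace Pool.Agent.Work.MP_0f91f8_co.Rg

open Finset

namespace I_BOX

theorem sum_Ico_eq (G : ℤ → ℝ) (A : ℤ) (X : ℕ) :
    ∑ x ∈ Ico A (A + X), G x = ∑ i ∈ range X, G (A + i) := by
  symm
  refine Finset.sum_bij (fun (i : ℕ) _ => A + (i : ℤ)) ?_ ?_ ?_ ?_
  · intro i hi
    have := Finset.mem_range.1 hi
    rw [Finset.mem_Ico]
    constructor <;> omega
  · intro i _ j _ h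
    simpa using h
  · intro b hb
    rw [Finset.mem_Ico] at hb
    refine ⟨(b - A).toNat, ?_, ?_⟩
    · rw [Finset.mem_range]
      omega
    · have : ((b - A).toNat : ℤ) = b - A := Int.toNat_of_nonneg (by omega)
      rw [this]
      ring
  · intro i _
    rfl

theorem shift (N : ℕ) (G : ℤ → ℝ) (hG : ∀ x, G (x + N) = G x) (A : ℤ) :
    ∑ i ∈ range N, G (A + i) = ∑ i ∈ range N, G (0 + i) := by
  have step : ∀ A : ℤ, ∑ i ∈ range N, G (A + 1 + i) = ∑ i ∈ range N, G (A + i) := by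
    intro A
    have h1 := Finset.sum_range_succ (fun i : ℕ => G (A + i)) N
    have h2 := Finset.sum_range_succ' (fun i : ℕ => G (A + i)) N
    have h3 : G (A + (N : ℤ)) = G (A + ((0 : ℕ) : ℤ)) := by
      rw [hG]
      simp
    have h4 : ∑ i ∈ range N, G (A + 1 + i) = ∑ i ∈ range N, G (A + ((i + 1 : ℕ) : ℤ)) := by
      refine Finset.sum_congr rfl ?_
      intro i _
      congr 1
      push_cast
      ring
    rw [h4]
    linarith
  induction A using Int.induction_on with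
  | zero => rfl
  | succ n ih => rw [step, ih]
  | pred n ih =>
    have := step (-(n : ℤ) - 1)
    rw [← ih, ← this]
    refine Finset.sum_congr rfl ?_
    intro i _
    congr 1
    ring

theorem periods (N : ℕ) (G : ℤ → ℝ) (hG : ∀ x, G (x + N) = G x) (A : ℤ) (k : ℕ) :
    ∑ i ∈ range (N * k), G (A + i) = k * ∑ i ∈ range N, G (0 + i) := by
  induction k with
  | zero => simp
  | succ k ih =>
    rw [Nat.mul_succ, Finset.sum_range_add, ih]
    have h : ∑ x ∈ range N, G (A + ((N * k + x : ℕ) : ℤ)) = ∑ i ∈ range N, G (0 + i) := by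
      rw [← shift N G hG (A + ((N * k : ℕ) : ℤ))]
      refine Finset.sum_congr rfl ?_
      intro i _
      congr 1
      push_cast
      ring
    rw [h]
    push_cast
    ring

theorem one (N : ℕ) (hN : 0 < N) (G : ℤ → ℝ) (hG : ∀ x, G (x + N) = G x) (c : ℝ)
    (hc : ∀ x, |G x| ≤ c) (A : ℤ) (X : ℕ) :
    |∑ x ∈ Ico A (A + X), G x - (X : ℝ) / N * ∑ x ∈ Ico (0 : ℤ) (0 + N), G x| ≤ 2 * c * N := by
  have hN' : (0 : ℝ) < N := by exact_mod_cast hN
  have hc0 : 0 ≤ c := le_trans (abs_nonneg _) (hc 0)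
  rw [sum_Ico_eq, sum_Ico_eq]
  set S := ∑ i ∈ range N, G (0 + i) with hS
  have hX : X = N * (X / N) + X % N := (Nat.div_add_mod X N).symm
  have hr : X % N < N := Nat.mod_lt _ hN
  set k := X / N with hk
  set r := X % N with hrr
  have h1 : ∑ i ∈ range X, G (A + i) = k * S + ∑ i ∈ range r, G (A + ((N * k + i : ℕ) : ℤ)) := by
    conv_lhs => rw [hX]
    rw [Finset.sum_range_add, periods N G hG]
  have h2 : |∑ i ∈ range r, G (A + ((N * k + i : ℕ) : ℤ))| ≤ r * c := by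
    refine le_trans (Finset.abs_sum_le_sum_abs _ _) ?_
    refine le_trans (Finset.sum_le_sum (fun i _ => hc _)) ?_
    simp
  have h3 : |S| ≤ N * c := by
    refine le_trans (Finset.abs_sum_le_sum_abs _ _) ?_
    refine le_trans (Finset.sum_le_sum (fun i _ => hc _)) ?_
    simp
  have h4 : (X : ℝ) = N * k + r := by exact_mod_cast hX
  have h5 : (X : ℝ) / N * S = k * S + r / N * S := by
    rw [h4]
    field_simp
  have h6 : |(r : ℝ) / N * S| ≤ r * c := by
    rw [abs_mul, abs_of_nonneg (by positivity)]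
    calc (r : ℝ) / N * |S| ≤ r / N * (N * c) := mul_le_mul_of_nonneg_left h3 (by positivity)
      _ = r * c := by field_simp
  have h7 : (r : ℝ) * c ≤ N * c := by
    have : (r : ℝ) ≤ N := by exact_mod_cast hr.le
    exact mul_le_mul_of_nonneg_right this hc0
  rw [h1, h5]
  have h8 : ↑k * S + ∑ i ∈ range r, G (A + ((N * k + i : ℕ) : ℤ)) - (↑k * S + ↑r / ↑N * S) =
      ∑ i ∈ range r, G (A + ((N * k + i : ℕ) : ℤ)) - ↑r / ↑N * S := by ring
  rw [h8]
  have h9 := abs_sub (∑ i ∈ range r, G (A + ((N * k + i : ℕ) : ℤ))) (↑r / ↑N * S)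
  linarith

end I_BOX

theorem BOX_pf : S_BOX := by
  intro N F hN hper hF A B X Y
  have hN' : (0 : ℝ) < N := by exact_mod_cast hN
  set H : ℤ → ℝ := fun a => ∑ b ∈ Ico (0 : ℤ) (0 + N), F (a, b) with hH
  have hHper : ∀ x, H (x + N) = H x := by
    intro x
    refine Finset.sum_congr rfl ?_
    intro b _
    have := hper (x, b) (1, 0)
    simpa using this
  have hHb : ∀ x, |H x| ≤ N := by
    intro x
    refine le_trans (Finset.abs_sum_le_sum_abs _ _) ?_
    refine le_trans (Finset.sum_le_sum (fun i _ => hF _)) ?_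
    simp
  have h1 : ∀ a, |∑ b ∈ Ico B (B + Y), F (a, b) - (Y : ℝ) / N * H a| ≤ 2 * 1 * N := by
    intro a
    refine I_BOX.one N hN (fun b => F (a, b)) ?_ 1 (fun b => hF _) B Y
    intro b
    have := hper (a, b) (0, 1)
    simpa using this
  have h2 := I_BOX.one N hN H hHper N hHb A X
  have h3 : ∑ z ∈ Box A B X Y, F z = ∑ a ∈ Ico A (A + X), ∑ b ∈ Ico B (B + Y), F (a, b) := by
    unfold Box
    rw [Finset.sum_product]
  have h4 : ∑ z ∈ Box 0 0 N N, F z = ∑ a ∈ Ico (0 : ℤ) (0 + N), H a := by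
    unfold Box
    rw [Finset.sum_product]
  have h5 : |∑ a ∈ Ico A (A + X), ∑ b ∈ Ico B (B + Y), F (a, b) -
      (Y : ℝ) / N * ∑ a ∈ Ico A (A + X), H a| ≤ X * (2 * 1 * N) := by
    rw [Finset.mul_sum, ← Finset.sum_sub_distrib]
    refine le_trans (Finset.abs_sum_le_sum_abs _ _) ?_
    refine le_trans (Finset.sum_le_sum (fun a _ => h1 a)) ?_
    simp
  have h6 : |(Y : ℝ) / N * (∑ a ∈ Ico A (A + X), H a -
      (X : ℝ) / N * ∑ a ∈ Ico (0 : ℤ) (0 + N), H a)| ≤ Y / N * (2 * N * N) := by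
    rw [abs_mul, abs_of_nonneg (by positivity : (0 : ℝ) ≤ (Y : ℝ) / N)]
    exact mul_le_mul_of_nonneg_left h2 (by positivity)
  have h7 : (Y : ℝ) / N * (2 * N * N) = 2 * N * Y := by
    field_simp
  rw [h7] at h6
  unfold av
  rw [h3, h4]
  have h8 : (X : ℝ) * Y * ((∑ a ∈ Ico (0 : ℤ) (0 + N), H a) / (N : ℝ) ^ 2) =
      (Y : ℝ) / N * ((X : ℝ) / N * ∑ a ∈ Ico (0 : ℤ) (0 + N), H a) := by
    field_simp
  rw [h8]
  have h9 : ∑ a ∈ Ico A (A + X), ∑ b ∈ Ico B (B + Y), F (a, b) -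
      (Y : ℝ) / N * ((X : ℝ) / N * ∑ a ∈ Ico (0 : ℤ) (0 + N), H a) =
      (∑ a ∈ Ico A (A + X), ∑ b ∈ Ico B (B + Y), F (a, b) -
        (Y : ℝ) / N * ∑ a ∈ Ico A (A + X), H a) +
      (Y : ℝ) / N * (∑ a ∈ Ico A (A + X), H a -
      (X : ℝ) / N * ∑ a ∈ Ico (0 : ℤ) (0 + N), H a) := by ring
  rw [h9]
  refine le_trans (abs_add_le _ _) ?_
  linarith

end Pool.Agent.Work.MP_0f91f8_co.Rg
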