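import Pool.Agent.Work.MP_0f91f8_co.Rg.Stmts

/-!
# The five forms and their product are compatible with congruences (item CON)
-/

set_option autoImplicit false

namespace Pool.Agent.Work.MP_0f91f8_co.Rg

open Finset

namespace I_CON

theorem con_iff {L : Z2 → ℤ} :
    Con L ↔ ∀ (N : ℕ) (z w : Z2), L z ≡ L (z.1 + N * w.1, z.2 + N * w.2) [ZMOD N] := by
  unfold Con
  simp only [Int.modEq_iff_dvd]

theorem con_uu (E : ℕ) : Con (uu E) := by
  intro N z w
  refine ⟨E * w.1, ?_⟩
  unfold uu
  ring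

theorem con_vv (E κ : ℕ) : Con (vv E κ) := by
  intro N z w
  refine ⟨((E / κ : ℕ) : ℤ) * w.2, ?_⟩
  unfold vv
  ring

theorem con_mul {L M : Z2 → ℤ} (hL : Con L) (hM : Con M) : Con (fun z => L z * M z) := by
  rw [con_iff] at *
  exact fun N z w => (hL N z w).mul (hM N z w)

theorem con_add {L M : Z2 → ℤ} (hL : Con L) (hM : Con M) : Con (fun z => L z + M z) := by
  rw [con_iff] at *
  exact fun N z w => (hL N z w).add (hM N z w)

theorem con_sub {L M : Z2 → ℤ} (hL : Con L) (hM : Con M) : Con (fun z => L z - M z) := by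
  rw [con_iff] at *
  exact fun N z w => (hL N z w).sub (hM N z w)

theorem con_pow {L : Z2 → ℤ} (hL : Con L) (k : ℕ) : Con (fun z => L z ^ k) := by
  rw [con_iff] at *
  exact fun N z w => (hL N z w).pow k

theorem con_const (c : ℤ) : Con (fun _ => c) := by
  intro N z w
  simp

theorem con_LL (E κ : ℕ) (i : Fin 5) : Con (LL E κ i) := by
  have hk := con_mul (con_const κ) (con_vv E κ)
  have hu := con_uu E
  fin_cases i
  · exact hu
  · exact con_vv E κ
  · exact con_sub hu hk
  · exact con_add hu hk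
  · exact con_add (con_pow hu 2) (con_pow hk 2)

end I_CON

open I_CON

theorem CON_pf : S_CON := by
  intro E κ
  refine ⟨con_LL E κ, ?_⟩
  have h : LP E κ = fun z => LL E κ 0 z * LL E κ 1 z * LL E κ 2 z * LL E κ 3 z * LL E κ 4 z := by
    funext z
    unfold LP
    rw [Fin.prod_univ_five]
  rw [h]
  exact con_mul (con_mul (con_mul (con_mul (con_LL E κ 0) (con_LL E κ 1)) (con_LL E κ 2))
    (con_LL E κ 3)) (con_LL E κ 4)

end Pool.Agent.Work.MP_0f91f8_co.Rg
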