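import Pool.Agent.Work.MP_0f91f8_co.Rg.Stmts

/-!
# Item SCA: the choice of the scale
-/

set_option autoImplicit false

namespace Pool.Agent.Work.MP_0f91f8_co.Rg

open Finset

theorem SCA_pf : S_SCA := by
  intro k hk δ₀ Q hQ T₀
  obtain ⟨N, hN, hS⟩ := (Filter.frequently_atTop.1 hQ) (max 1 (T₀ ^ k))
  have hN1 : 1 ≤ N := (le_max_left _ _).trans hN
  have hN2 : T₀ ^ k ≤ N := (le_max_right _ _).trans hN
  have hk0 : (k : ℝ) ≠ 0 := by positivity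
  have hkp : (0 : ℝ) < k := by positivity
  have hN1' : (1 : ℝ) ≤ N := by exact_mod_cast hN1
  have hN0 : (0 : ℝ) ≤ N := by positivity
  refine ⟨⌊(N : ℝ) ^ ((1 : ℝ) / k)⌋₊, ?_, ?_⟩
  · refine Nat.le_floor ?_
    have h1 : ((T₀ : ℝ) ^ k) ≤ N := by exact_mod_cast hN2
    have h2 : (T₀ : ℝ) = ((T₀ : ℝ) ^ k) ^ ((1 : ℝ) / k) := by
      rw [← Real.rpow_natCast, ← Real.rpow_mul (by positivity), mul_one_div_cancel hk0,
        Real.rpow_one]
    rw [h2]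
    exact Real.rpow_le_rpow (by positivity) h1 (by positivity)
  · refine le_trans (Finset.sum_le_sum_of_subset_of_nonneg ?_ fun i _ _ => by positivity) hS
    have hT1 : ⌊(N : ℝ) ^ ((1 : ℝ) / (2 * k))⌋₊ ≤ ⌊(N : ℝ) ^ ((1 : ℝ) / k)⌋₊ := by
      refine Nat.floor_le_floor (Real.rpow_le_rpow_of_exponent_le hN1' ?_)
      refine one_div_le_one_div_of_le hkp ?_
      linarith
    have hT2 : ⌊(N : ℝ) ^ ((1 : ℝ) / k)⌋₊ ^ k ≤ N := by
      have h1 : ((⌊(N : ℝ) ^ ((1 : ℝ) / k)⌋₊ : ℕ) : ℝ) ≤ (N : ℝ) ^ ((1 : ℝ) / k) :=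
        Nat.floor_le (by positivity)
      have h2 : (((⌊(N : ℝ) ^ ((1 : ℝ) / k)⌋₊ ^ k : ℕ)) : ℝ) ≤ N := by
        push_cast
        refine (pow_le_pow_left₀ (by positivity) h1 k).trans ?_
        rw [← Real.rpow_natCast, ← Real.rpow_mul hN0, one_div_mul_cancel hk0, Real.rpow_one]
      exact_mod_cast h2
    intro q hq
    simp only [QQ, Finset.mem_filter, Finset.mem_Ioc] at hq ⊢
    exact ⟨⟨lt_of_le_of_lt hT1 hq.1.1, hq.1.2.trans hT2⟩, hq.2⟩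

end Pool.Agent.Work.MP_0f91f8_co.Rg
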