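import Pool.Agent.Work.MP_0f91f8_co.Rg.Stmts

/-!
# Item SML: the small primes
-/

set_option autoImplicit false

namespace Pool.Agent.Work.MP_0f91f8_co.Rg

open Finset

namespace I_SML

theorem fam_mono {P P' : Finset ℕ} {ψ : ℕ → Z2 → ℝ} {h : ℕ → ℝ} (hF : Fam P ψ h)
    (hs : P' ⊆ P) : Fam P' ψ h :=
  ⟨fun p hp => hF.prime p (hs hp), fun p hp => hF.per p (hs hp), fun p hp => hF.mean p (hs hp),
    fun p hp => hF.sq p (hs hp), fun p hp => hF.bd p (hs hp)⟩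

theorem mem_P0 {E T p : ℕ} (hp : p ∈ P0 E T) : p.Prime ∧ p ≤ T ∧ ¬ p ∣ E := by
  unfold P0 at hp
  rw [mem_filter, mem_Icc] at hp
  exact ⟨hp.2.1, hp.1.2, hp.2.2⟩

theorem card_P0 (E T : ℕ) : (P0 E T).card ≤ T := by
  unfold P0
  refine (card_filter_le _ _).trans ?_
  rw [Nat.card_Icc]
  omega

theorem mem_Sh {P : Finset ℕ} {R q : ℕ} {S : Finset ℕ} (hS : S ∈ Sh P R q) :
    S ⊆ P ∧ ∏ p ∈ S, p ≤ R ∧ q ∉ S := by
  unfold Sh Sq at hS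
  rw [mem_filter, mem_filter, mem_powerset] at hS
  exact ⟨hS.1.1, hS.1.2, hS.2.1⟩

/-- one prime -/
theorem one (hCON : S_CON) (hPSI : S_PSI) (hDENP : S_DENP) (hFAM : S_FAM) (hCARD : S_CARD)
    (hLOC : S_LOC) (hQF : S_QF) {E κ : ℕ} (hG : Good E κ) (T k : ℕ) (A B : ℤ)
    (H : ℕ) (q : ℕ) (hq : q ∈ P0 E T) :
    ∑ z ∈ (Box A B H H).filter (fun z => (q : ℤ) ∣ LP E κ z),
      FF (psi (LP E κ)) (Sq (P0 E T) (T ^ k)) z ^ 2 ≤
    (H : ℝ) ^ 2 * (gg (LP E κ) q * GG (hh (LP E κ)) (Sh (P0 E T) (T ^ k) q)) +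
      4 * (T : ℝ) ^ (4 * k + 1) * H := by
  obtain ⟨hqp, hqT, hqE⟩ := mem_P0 hq
  obtain ⟨h17, hg0, hg6⟩ := hDENP E κ hG q hqp hqE
  have hq0 : (0 : ℝ) < q := by exact_mod_cast hqp.pos
  have hghalf : gg (LP E κ) q ≤ 1 / 2 := by
    refine hg6.trans ?_
    rw [div_le_div_iff₀ hq0 (by norm_num)]
    have : (17 : ℝ) ≤ q := by exact_mod_cast h17
    linarith
  obtain ⟨hper, _, _, _, _, hm1, _⟩ := hPSI (LP E κ) (hCON E κ).2 q hqp hg0 hghalf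
  obtain ⟨hF, hhb, _⟩ := hFAM E κ hG T
  have hchi : ∀ z, 0 ≤ chi (LP E κ) q z ∧ chi (LP E κ) q z ≤ 1 := by
    intro z
    unfold chi
    split_ifs <;> norm_num
  have e1 : ∑ z ∈ (Box A B H H).filter (fun z => (q : ℤ) ∣ LP E κ z),
      FF (psi (LP E κ)) (Sq (P0 E T) (T ^ k)) z ^ 2 =
      ∑ z ∈ Box A B H H, chi (LP E κ) q z *
        FF (psi (LP E κ)) (Sh (P0 E T) (T ^ k) q) z ^ 2 := by
    rw [Finset.sum_filter]
    refine Finset.sum_congr rfl fun z _ => ?_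
    unfold chi
    split_ifs with hd
    · rw [one_mul, hLOC (P0 E T) (psi (LP E κ)) (T ^ k) q z (fun p hp => (mem_P0 hp).1) hq
        (hm1 z hd)]
    · rw [zero_mul]
  have hQ := hQF ((P0 E T).erase q) (psi (LP E κ)) (hh (LP E κ))
    (fam_mono hF (erase_subset _ _)) (Sh (P0 E T) (T ^ k) q) (T ^ k)
    (fun S hS => ⟨fun p hp => mem_erase.2 ⟨fun h => (mem_Sh hS).2.2 (h ▸ hp), (mem_Sh hS).1 hp⟩,
      (mem_Sh hS).2.1⟩) q (chi (LP E κ) q) hqp.pos hper hchi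
    (fun p hp => (Nat.coprime_primes hqp (mem_P0 (mem_of_mem_erase hp)).1).2
      (Ne.symm (ne_of_mem_erase hp))) A B H H
  rw [← e1] at hQ
  have hQ2 := (abs_le.1 hQ).2
  have hcard : (Sh (P0 E T) (T ^ k) q).card ≤ T ^ k :=
    hCARD _ _ (fun S hS => ⟨fun p hp => (mem_P0 ((mem_Sh hS).1 hp)).1, (mem_Sh hS).2.1⟩)
  have hcard' : ((Sh (P0 E T) (T ^ k) q).card : ℝ) ≤ (T : ℝ) ^ k := by exact_mod_cast hcard
  have hqT' : (q : ℝ) ≤ T := by exact_mod_cast hqT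
  have hT0 : (0 : ℝ) ≤ T := Nat.cast_nonneg _
  have hH0 : (0 : ℝ) ≤ H := Nat.cast_nonneg _
  have herr : ((Sh (P0 E T) (T ^ k) q).card : ℝ) ^ 2 *
      (2 * (q * (((T ^ k : ℕ)) : ℝ) ^ 2) * (H + H)) ≤ 4 * (T : ℝ) ^ (4 * k + 1) * H := by
    have h1 : ((Sh (P0 E T) (T ^ k) q).card : ℝ) ^ 2 ≤ ((T : ℝ) ^ k) ^ 2 :=
      pow_le_pow_left₀ (Nat.cast_nonneg _) hcard' 2
    have h2 : 2 * ((q : ℝ) * (((T ^ k : ℕ)) : ℝ) ^ 2) * (H + H) ≤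
        4 * (T * ((T : ℝ) ^ k) ^ 2) * H := by
      push_cast
      have : (q : ℝ) * ((T : ℝ) ^ k) ^ 2 ≤ T * ((T : ℝ) ^ k) ^ 2 :=
        mul_le_mul_of_nonneg_right hqT' (by positivity)
      nlinarith
    calc _ ≤ ((T : ℝ) ^ k) ^ 2 * (4 * (T * ((T : ℝ) ^ k) ^ 2) * H) :=
          mul_le_mul h1 h2 (by positivity) (by positivity)
      _ = 4 * (T : ℝ) ^ (4 * k + 1) * H := by
          rw [show 4 * k + 1 = k + k + k + k + 1 by ring]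
          simp only [pow_add, pow_one]
          ring
  have h3 : (H : ℝ) * H * (av q (chi (LP E κ) q) * GG (hh (LP E κ)) (Sh (P0 E T) (T ^ k) q)) =
      (H : ℝ) ^ 2 * (gg (LP E κ) q * GG (hh (LP E κ)) (Sh (P0 E T) (T ^ k) q)) := by
    unfold gg
    ring
  rw [h3] at hQ2
  linarith

end I_SML

open I_SML

theorem SML_pf (hCON : S_CON) (hPSI : S_PSI) (hDENP : S_DENP) (hFAM : S_FAM) (hCARD : S_CARD)
    (hLOC : S_LOC) (hQF : S_QF) (hSMA : S_SMA) : S_SML := by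
  obtain ⟨C, hC, hS⟩ := hSMA
  refine ⟨C, hC, ?_⟩
  intro E κ hG T k hT hk A B H
  have hsma := hS (P0 E T) (gg (LP E κ)) (hh (LP E κ)) T k hT hk (by
    intro p hp
    obtain ⟨hpp, hpT, hpE⟩ := mem_P0 hp
    obtain ⟨_, hg0, hg6⟩ := hDENP E κ hG p hpp hpE
    obtain ⟨hh0, hh12⟩ := (hFAM E κ hG T).2.1 p hp
    exact ⟨hpp, hpT, hg0.le, hg6, hh0, hh12⟩)
  have hT0 : (0 : ℝ) ≤ T := Nat.cast_nonneg _
  have hH0 : (0 : ℝ) ≤ H := Nat.cast_nonneg _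
  calc ∑ q ∈ P0 E T, ∑ z ∈ (Box A B H H).filter (fun z => (q : ℤ) ∣ LP E κ z),
        FF (psi (LP E κ)) (Sq (P0 E T) (T ^ k)) z ^ 2
      ≤ ∑ q ∈ P0 E T, ((H : ℝ) ^ 2 * (gg (LP E κ) q *
          GG (hh (LP E κ)) (Sh (P0 E T) (T ^ k) q)) + 4 * (T : ℝ) ^ (4 * k + 1) * H) :=
        Finset.sum_le_sum fun q hq => one hCON hPSI hDENP hFAM hCARD hLOC hQF hG T k A B H q hq
    _ = (H : ℝ) ^ 2 * ∑ q ∈ P0 E T, gg (LP E κ) q *
          GG (hh (LP E κ)) (Sh (P0 E T) (T ^ k) q) +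
          (P0 E T).card * (4 * (T : ℝ) ^ (4 * k + 1) * H) := by
        rw [Finset.sum_add_distrib, Finset.mul_sum, Finset.sum_const, nsmul_eq_mul]
    _ ≤ (H : ℝ) ^ 2 * (C / (k - 1) * GG (hh (LP E κ)) (Sq (P0 E T) (T ^ k))) +
          T * (4 * (T : ℝ) ^ (4 * k + 1) * H) := by
        have hc : ((P0 E T).card : ℝ) ≤ T := by exact_mod_cast card_P0 E T
        exact add_le_add (mul_le_mul_of_nonneg_left hsma (by positivity))
          (mul_le_mul_of_nonneg_right hc (by positivity))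
    _ = C / (k - 1) * ((H : ℝ) ^ 2 * GG (hh (LP E κ)) (Sq (P0 E T) (T ^ k))) +
          4 * (T : ℝ) ^ (4 * k + 2) * H := by
        rw [show 4 * k + 2 = (4 * k + 1) + 1 by ring, pow_succ (T : ℝ) (4 * k + 1)]
        ring

end Pool.Agent.Work.MP_0f91f8_co.Rg
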